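import Mathlib

set_option autoImplicit false

namespace Pool.Agent.TNum

open Polynomial

/-- The naive height of an integer polynomial. -/
noncomputable def ht (P : ℤ[X]) : ℕ := P.support.sup fun i => (P.coeff i).natAbs

theorem natAbs_coeff_le_ht (P : ℤ[X]) (i : ℕ) : (P.coeff i).natAbs ≤ ht P := by
  by_cases h : i ∈ P.support
  · exact Finset.le_sup (f := fun i => (P.coeff i).natAbs) h
  · simp [Polynomial.notMem_support_iff.mp h]

theorem abs_coeff_le_ht (P : ℤ[X]) (i : ℕ) : |(P.coeff i : ℝ)| ≤ ht P := by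
  have h := natAbs_coeff_le_ht P i
  have h2 : ((P.coeff i).natAbs : ℝ) = |(P.coeff i : ℝ)| := by
    rw [Nat.cast_natAbs]; simp
  rw [← h2]
  exact_mod_cast h

theorem ht_le {P : ℤ[X]} {A : ℕ} (h : ∀ i, (P.coeff i).natAbs ≤ A) : ht P ≤ A :=
  Finset.sup_le fun i _ => h i

theorem ht_le_real {P : ℤ[X]} {A : ℝ} (hA : 0 ≤ A) (h : ∀ i, |(P.coeff i : ℝ)| ≤ A) :
    (ht P : ℝ) ≤ A := by
  have : ht P ≤ ⌊A⌋₊ := ht_le fun i => by
    apply Nat.le_floor
    have h2 : ((P.coeff i).natAbs : ℝ) = |(P.coeff i : ℝ)| := by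
      rw [Nat.cast_natAbs]; simp
    rw [h2]; exact h i
  exact (Nat.cast_le.mpr this).trans (Nat.floor_le hA)

theorem one_le_ht {P : ℤ[X]} (hP : P ≠ 0) : 1 ≤ ht P := by
  have h := natAbs_coeff_le_ht P P.natDegree
  have h2 : P.coeff P.natDegree ≠ 0 := by
    simpa using hP
  have := Int.natAbs_pos.mpr h2
  omega

theorem ht_pos {P : ℤ[X]} (hP : P ≠ 0) : 0 < ht P := one_le_ht hP

theorem ht_neg (P : ℤ[X]) : ht (-P) = ht P := by
  simp [ht]

end Pool.Agent.TNum
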