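import Mathlib
import Pool.Agent.TNum.Basic

set_option autoImplicit false

namespace Pool.Agent.TNum

open Polynomial Finset

theorem aeval_eq_sum (P : ℤ[X]) {n : ℕ} (hn : P.natDegree ≤ n) (x : ℝ) :
    aeval x P = ∑ i ∈ range (n + 1), (P.coeff i : ℝ) * x ^ i := by
  rw [aeval_eq_sum_range' (Nat.lt_succ_of_le hn)]
  simp [Algebra.smul_def]

theorem abs_aeval_le (P : ℤ[X]) {n : ℕ} (hn : P.natDegree ≤ n) {x R : ℝ} (hR : 1 ≤ R)
    (hx : |x| ≤ R) : |aeval x P| ≤ (n + 1) * R ^ n * ht P := by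
  rw [aeval_eq_sum P hn]
  refine (Finset.abs_sum_le_sum_abs _ _).trans ?_
  have : ∀ i ∈ range (n + 1), |(P.coeff i : ℝ) * x ^ i| ≤ ht P * R ^ n := by
    intro i hi
    rw [abs_mul, abs_pow]
    have hi' : i ≤ n := by simpa [Nat.lt_succ_iff] using hi
    apply mul_le_mul (abs_coeff_le_ht P i) _ (by positivity) (by positivity)
    calc |x| ^ i ≤ R ^ i := pow_le_pow_left₀ (abs_nonneg _) hx _
      _ ≤ R ^ n := pow_le_pow_right₀ hR hi'
  refine (Finset.sum_le_sum this).trans ?_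
  rw [Finset.sum_const, Finset.card_range, nsmul_eq_mul]
  push_cast
  apply le_of_eq; ring

theorem abs_aeval_sub_le (P : ℤ[X]) {n : ℕ} (hn : P.natDegree ≤ n) {x y R : ℝ} (hR : 1 ≤ R)
    (hx : |x| ≤ R) (hy : |y| ≤ R) :
    |aeval x P - aeval y P| ≤ (n + 1) * n * R ^ n * ht P * |x - y| := by
  rw [aeval_eq_sum P hn, aeval_eq_sum P hn, ← Finset.sum_sub_distrib]
  refine (Finset.abs_sum_le_sum_abs _ _).trans ?_
  have : ∀ i ∈ range (n + 1), |(P.coeff i : ℝ) * x ^ i - (P.coeff i : ℝ) * y ^ i| ≤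
      ht P * (|x - y| * n * R ^ n) := by
    intro i hi
    rw [← mul_sub, abs_mul]
    have hi' : i ≤ n := by simpa [Nat.lt_succ_iff] using hi
    apply mul_le_mul (abs_coeff_le_ht P i) _ (by positivity) (by positivity)
    refine (abs_pow_sub_pow_le x y i).trans ?_
    have h1 : (i : ℝ) ≤ n := by exact_mod_cast hi'
    have h2 : max |x| |y| ^ (i - 1) ≤ R ^ n := by
      calc max |x| |y| ^ (i - 1) ≤ R ^ (i - 1) :=
            pow_le_pow_left₀ (le_max_of_le_left (abs_nonneg _)) (max_le hx hy) _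
        _ ≤ R ^ n := pow_le_pow_right₀ hR (by omega)
    have h3 : 0 ≤ |x - y| := abs_nonneg _
    gcongr
  refine (Finset.sum_le_sum this).trans ?_
  rw [Finset.sum_const, Finset.card_range, nsmul_eq_mul]
  push_cast
  apply le_of_eq; ring

/-- `V ^ n * P (X + k / V)` as an integer polynomial (when `natDegree P ≤ n`). -/
noncomputable def shiftPoly (n : ℕ) (V k : ℤ) (P : ℤ[X]) : ℤ[X] :=
  ∑ i ∈ range (n + 1), C (P.coeff i * V ^ (n - i)) * (C V * X + C k) ^ i

theorem coeff_lin_pow (V k : ℤ) (i j : ℕ) :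
    ((C V * X + C k : ℤ[X]) ^ i).coeff j = k ^ (i - j) * (i.choose j : ℤ) * V ^ j := by
  have : (C V * X + C k : ℤ[X]) ^ i = ((X + C k) ^ i).comp (C V * X) := by
    simp
  rw [this, comp_C_mul_X_coeff, coeff_X_add_C_pow]

theorem coeff_shiftPoly (n : ℕ) (V k : ℤ) (P : ℤ[X]) (j : ℕ) :
    (shiftPoly n V k P).coeff j =
      ∑ i ∈ range (n + 1), P.coeff i * V ^ (n - i) * (k ^ (i - j) * (i.choose j : ℤ) * V ^ j) := by
  rw [shiftPoly, finsetSum_coeff]
  apply Finset.sum_congr rfl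
  intro i _
  rw [coeff_C_mul, coeff_lin_pow]

theorem aeval_shiftPoly {n : ℕ} {V : ℤ} (hV : V ≠ 0) (k : ℤ) (P : ℤ[X]) (hn : P.natDegree ≤ n)
    (x : ℝ) : aeval x (shiftPoly n V k P) = (V : ℝ) ^ n * aeval (x + k / V) P := by
  have hV' : (V : ℝ) ≠ 0 := by exact_mod_cast hV
  rw [aeval_eq_sum P hn, shiftPoly, map_sum, Finset.mul_sum]
  apply Finset.sum_congr rfl
  intro i hi
  have hi' : i ≤ n := by simpa [Nat.lt_succ_iff] using hi
  simp only [map_mul, map_pow, map_add, aeval_C, aeval_X]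
  simp only [algebraMap_int_eq, eq_intCast]
  have h1 : (V : ℝ) * x + k = V * (x + k / V) := by field_simp
  rw [h1, mul_pow]
  have h2 : (V : ℝ) ^ n = V ^ (n - i) * V ^ i := by
    rw [← pow_add]; congr 1; omega
  rw [h2]; ring

theorem natDegree_shiftPoly_le (n : ℕ) (V k : ℤ) (P : ℤ[X]) :
    (shiftPoly n V k P).natDegree ≤ n := by
  rw [natDegree_le_iff_coeff_eq_zero]
  intro j hj
  rw [coeff_shiftPoly]
  apply Finset.sum_eq_zero
  intro i hi
  have hi' : i ≤ n := by simpa [Nat.lt_succ_iff] using hi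
  rw [Nat.choose_eq_zero_of_lt (by omega)]
  simp

theorem coeff_shiftPoly_top (n : ℕ) (V k : ℤ) (P : ℤ[X]) :
    (shiftPoly n V k P).coeff n = P.coeff n * V ^ n := by
  rw [coeff_shiftPoly, Finset.sum_eq_single n]
  · simp
  · intro i hi hne
    have hi' : i ≤ n := by simpa [Nat.lt_succ_iff] using hi
    rw [Nat.choose_eq_zero_of_lt (by omega)]
    simp
  · simp

theorem coeff_shiftPoly_sub_one {n : ℕ} (hn : 1 ≤ n) (V k : ℤ) (P : ℤ[X]) :
    (shiftPoly n V k P).coeff (n - 1) =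
      V ^ (n - 1) * (V * P.coeff (n - 1) + n * k * P.coeff n) := by
  obtain ⟨n, rfl⟩ : ∃ n', n = n' + 1 := ⟨n - 1, by omega⟩
  rw [coeff_shiftPoly, Finset.sum_range_succ, Finset.sum_range_succ]
  have h0 : ∑ i ∈ range n, P.coeff i * V ^ (n + 1 - i) *
      (k ^ (i - (n + 1 - 1)) * (i.choose (n + 1 - 1) : ℤ) * V ^ (n + 1 - 1)) = 0 := by
    apply Finset.sum_eq_zero
    intro i hi
    have hi' : i < n := by simpa using hi
    rw [Nat.choose_eq_zero_of_lt (by omega)]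
    simp
  rw [h0]
  simp [Nat.choose_succ_self_right]
  ring

theorem ht_shiftPoly_le (n : ℕ) {V k : ℤ} (P : ℤ[X]) {R : ℝ} (hR : 1 ≤ R) (hV : 0 < V)
    (hk : |(k : ℝ)| ≤ R * V) :
    (ht (shiftPoly n V k P) : ℝ) ≤ (n + 1) * (2 * R) ^ n * V ^ n * ht P := by
  have hV' : (0 : ℝ) < V := by exact_mod_cast hV
  apply ht_le_real (by positivity)
  intro j
  rw [coeff_shiftPoly]
  push_cast
  refine (Finset.abs_sum_le_sum_abs _ _).trans ?_
  have : ∀ i ∈ range (n + 1), |(P.coeff i : ℝ) * (V : ℝ) ^ (n - i) *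
      ((k : ℝ) ^ (i - j) * (i.choose j : ℝ) * (V : ℝ) ^ j)| ≤ (2 * R) ^ n * V ^ n * ht P := by
    intro i hi
    have hi' : i ≤ n := by simpa [Nat.lt_succ_iff] using hi
    rcases lt_or_ge i j with hij | hij
    · rw [Nat.choose_eq_zero_of_lt hij]
      simp only [Nat.cast_zero, mul_zero, zero_mul, abs_zero]
      positivity
    · rw [abs_mul, abs_mul, abs_mul, abs_mul, abs_pow, abs_pow, abs_pow, abs_of_pos hV', Nat.abs_cast]
      have h1 : |(k : ℝ)| ^ (i - j) ≤ R ^ n * (V : ℝ) ^ (i - j) := by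
        calc |(k : ℝ)| ^ (i - j) ≤ (R * V) ^ (i - j) := pow_le_pow_left₀ (abs_nonneg _) hk _
          _ = R ^ (i - j) * (V : ℝ) ^ (i - j) := mul_pow _ _ _
          _ ≤ R ^ n * (V : ℝ) ^ (i - j) := by
            apply mul_le_mul_of_nonneg_right _ (by positivity)
            exact pow_le_pow_right₀ hR (by omega)
      have h2 : (i.choose j : ℝ) ≤ 2 ^ n := by
        calc (i.choose j : ℝ) ≤ (2 : ℝ) ^ i := by exact_mod_cast Nat.choose_le_two_pow i j
          _ ≤ 2 ^ n := pow_le_pow_right₀ (by norm_num) hi'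
      have h3 := abs_coeff_le_ht P i
      calc |(P.coeff i : ℝ)| * (V : ℝ) ^ (n - i) * (|(k : ℝ)| ^ (i - j) * (i.choose j : ℝ) * (V : ℝ) ^ j)
          ≤ (ht P : ℝ) * (V : ℝ) ^ (n - i) * ((R ^ n * (V : ℝ) ^ (i - j)) * 2 ^ n * (V : ℝ) ^ j) := by
            gcongr
        _ = (2 * R) ^ n * ((V : ℝ) ^ (n - i) * (V : ℝ) ^ (i - j) * (V : ℝ) ^ j) * ht P := by
            rw [mul_pow]; ring
        _ = (2 * R) ^ n * V ^ n * ht P := by
            rw [← pow_add, ← pow_add]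
            congr 3; omega
  refine (Finset.sum_le_sum this).trans ?_
  rw [Finset.sum_const, Finset.card_range, nsmul_eq_mul]
  push_cast
  apply le_of_eq; ring

theorem shiftPoly_ne_zero {n : ℕ} {V : ℤ} (hV : V ≠ 0) (k : ℤ) {P : ℤ[X]} (hP : P ≠ 0)
    (hn : P.natDegree ≤ n) : shiftPoly n V k P ≠ 0 := by
  intro h
  have hV' : (V : ℝ) ≠ 0 := by exact_mod_cast hV
  have h1 : ∀ x : ℝ, aeval x P = 0 := by
    intro x
    have h2 := aeval_shiftPoly hV k P hn (x - k / V)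
    rw [h, map_zero, sub_add_cancel] at h2
    rcases mul_eq_zero.mp h2.symm with h3 | h3
    · exact absurd h3 (pow_ne_zero _ hV')
    · exact h3
  apply hP
  have h2 : P.map (Int.castRingHom ℝ) = 0 := by
    apply Polynomial.funext
    intro x
    have := h1 x
    rw [aeval_def, ← eval_map] at this
    simpa using this
  exact (Polynomial.map_eq_zero_iff (RingHom.injective_int _)).mp h2

end Pool.Agent.TNum
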