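import Mathlib

set_option autoImplicit false

namespace Pool.Agent.TNum

open Matrix Finset

/-- Determinant trick: an integer matrix with nonzero determinant cannot have all the
linear forms `∑ i, v i * M i j` too small. -/
theorem det_bound {ι : Type*} [Fintype ι] [DecidableEq ι] (M : Matrix ι ι ℤ) (hM : M.det ≠ 0)
    (v : ι → ℝ) (i₀ : ι) (hv : v i₀ = 1) (h ε : ι → ℝ) (hh : ∀ j, 0 ≤ h j) (hε : ∀ j, 0 ≤ ε j)
    (hMh : ∀ i j, |(M i j : ℝ)| ≤ h j) (hMε : ∀ j, |∑ i, v i * (M i j : ℝ)| ≤ ε j) :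
    1 ≤ ((Fintype.card ι).factorial : ℝ) * ∑ j, ε j * ∏ k ∈ univ.erase j, h k := by
  classical
  set A : Matrix ι ι ℝ := (M.map (Int.cast : ℤ → ℝ))ᵀ with hA
  have hAdet : A.det = (M.det : ℝ) := by
    rw [hA, Matrix.det_transpose]
    exact ((Int.castRingHom ℝ).map_det M).symm
  -- det of A with column i₀ replaced by A v
  have h1 : (A.updateCol i₀ (A *ᵥ v)).det = A.det := by
    have h2 : A.cramer (A *ᵥ v) = A.det • v := by
      rw [Matrix.cramer_eq_adjugate_mulVec, Matrix.mulVec_mulVec, Matrix.adjugate_mul,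
        Matrix.smul_mulVec, Matrix.one_mulVec]
    have h3 := congrFun h2 i₀
    rw [Matrix.cramer_apply] at h3
    rw [h3]
    simp [hv]
  have h4 : (1 : ℝ) ≤ |A.det| := by
    rw [hAdet, ← Int.cast_abs]
    exact_mod_cast Int.one_le_abs hM
  rw [← h1] at h4
  refine h4.trans ?_
  rw [Matrix.det_apply]
  refine (Finset.abs_sum_le_sum_abs _ _).trans ?_
  have hterm : ∀ σ : Equiv.Perm ι,
      |Equiv.Perm.sign σ • ∏ i, (A.updateCol i₀ (A *ᵥ v)) (σ i) i| ≤
        ∑ j, ε j * ∏ k ∈ univ.erase j, h k := by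
    intro σ
    have e1 : |Equiv.Perm.sign σ • ∏ i, (A.updateCol i₀ (A *ᵥ v)) (σ i) i| =
        |∏ i, (A.updateCol i₀ (A *ᵥ v)) (σ i) i| := by
      rcases Int.units_eq_one_or (Equiv.Perm.sign σ) with hs | hs <;> simp [hs]
    rw [e1, Finset.abs_prod, ← Finset.mul_prod_erase univ _ (Finset.mem_univ i₀)]
    have e2 : |(A.updateCol i₀ (A *ᵥ v)) (σ i₀) i₀| ≤ ε (σ i₀) := by
      rw [Matrix.updateCol_self]
      have : (A *ᵥ v) (σ i₀) = ∑ i, v i * (M i (σ i₀) : ℝ) := by
        simp [hA, Matrix.mulVec, dotProduct, mul_comm]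
      rw [this]
      exact hMε _
    have e3 : ∏ i ∈ univ.erase i₀, |(A.updateCol i₀ (A *ᵥ v)) (σ i) i| ≤
        ∏ i ∈ univ.erase i₀, h (σ i) := by
      apply Finset.prod_le_prod
      · intro i _; exact abs_nonneg _
      · intro i hi
        have hne : i ≠ i₀ := Finset.ne_of_mem_erase hi
        rw [Matrix.updateCol_ne hne]
        simpa [hA] using hMh i (σ i)
    have e4 : ∏ i ∈ univ.erase i₀, h (σ i) = ∏ k ∈ univ.erase (σ i₀), h k := by
      apply Finset.prod_bij (fun i _ => σ i)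
      · intro i hi
        simp only [Finset.mem_erase, Finset.mem_univ, and_true] at hi ⊢
        exact fun h => hi (σ.injective h)
      · intro a _ b _ hab; exact σ.injective hab
      · intro b hb
        refine ⟨σ.symm b, ?_, by simp⟩
        simp only [Finset.mem_erase, Finset.mem_univ, and_true] at hb ⊢
        intro h; apply hb; rw [← h]; simp
      · intro a _; rfl
    calc |(A.updateCol i₀ (A *ᵥ v)) (σ i₀) i₀| *
          ∏ i ∈ univ.erase i₀, |(A.updateCol i₀ (A *ᵥ v)) (σ i) i|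
        ≤ ε (σ i₀) * ∏ i ∈ univ.erase i₀, h (σ i) := by
          apply mul_le_mul e2 e3 (Finset.prod_nonneg fun i _ => abs_nonneg _) (hε _)
      _ = ε (σ i₀) * ∏ k ∈ univ.erase (σ i₀), h k := by rw [e4]
      _ ≤ ∑ j, ε j * ∏ k ∈ univ.erase j, h k := by
          apply Finset.single_le_sum (f := fun j => ε j * ∏ k ∈ univ.erase j, h k)
          · intro j _
            exact mul_nonneg (hε _) (Finset.prod_nonneg fun i _ => hh _)
          · exact Finset.mem_univ _
  calc ∑ σ : Equiv.Perm ι, |Equiv.Perm.sign σ • ∏ i, (A.updateCol i₀ (A *ᵥ v)) (σ i) i|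
      ≤ ∑ _σ : Equiv.Perm ι, ∑ j, ε j * ∏ k ∈ univ.erase j, h k :=
        Finset.sum_le_sum fun σ _ => hterm σ
    _ = _ := by
      rw [Finset.sum_const, Finset.card_univ, Fintype.card_perm, nsmul_eq_mul]

end Pool.Agent.TNum
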