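import Mathlib
import Pool.Agent.TNum.Basic
import Pool.Agent.TNum.Det

set_option autoImplicit false

namespace Pool.Agent.TNum

open Polynomial Finset

/-- coprimality over `ℚ` of two integer polynomials -/
def Cop (f g : ℤ[X]) : Prop :=
  IsCoprime (f.map (Int.castRingHom ℚ)) (g.map (Int.castRingHom ℚ))

theorem Cop.symm {f g : ℤ[X]} (h : Cop f g) : Cop g f := IsCoprime.symm h

theorem resultant_ne_zero_of_cop {f g : ℤ[X]} (h : Cop f g) :
    (sylvester f g f.natDegree g.natDegree).det ≠ 0 := by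
  change resultant f g ≠ 0
  intro h0
  have h1 : resultant (f.map (Int.castRingHom ℚ)) (g.map (Int.castRingHom ℚ)) = 0 := by
    rw [natDegree_map_eq_of_injective (RingHom.injective_int _),
      natDegree_map_eq_of_injective (RingHom.injective_int _), resultant_map_map, h0]
    simp
  rw [resultant_eq_zero_iff] at h1
  exact h1.2 h

theorem sum_pow_shift (x : ℝ) (g : ℤ[X]) (p q j : ℕ) (hg : g.natDegree = q) (hj : j < p) :
    ∑ i : Fin (p + q), x ^ (i : ℕ) *
      ((if (i : ℕ) ∈ Set.Icc j (j + q) then g.coeff (i - j) else 0 : ℤ) : ℝ) =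
      x ^ j * aeval x g := by
  rw [Fin.sum_univ_eq_sum_range (fun i => x ^ i *
      ((if i ∈ Set.Icc j (j + q) then g.coeff (i - j) else 0 : ℤ) : ℝ))]
  rw [aeval_eq_sum_range, hg, Finset.mul_sum]
  symm
  apply Finset.sum_of_injOn (fun t => t + j)
  · intro a _ b _ h; simpa using h
  · intro t ht
    simp only [Finset.coe_range, Set.mem_Iio] at ht ⊢
    omega
  · intro i hi hni
    have : i ∉ Set.Icc j (j + q) := by
      intro hmem
      apply hni
      refine ⟨i - j, ?_, ?_⟩
      · simp only [Finset.coe_range, Set.mem_Iio]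
        have := hmem.1; have := hmem.2; omega
      · have := hmem.1; simp; omega
    simp [this]
  · intro t ht
    have h1 : t + j ∈ Set.Icc j (j + q) := by
      simp only [Finset.mem_range] at ht
      constructor <;> omega
    simp only [h1, if_true, Nat.add_sub_cancel]
    simp [Algebra.smul_def]
    ring

theorem res_bound (f g : ℤ[X]) (hp : 0 < f.natDegree) (hq : 0 < g.natDegree) (hcop : Cop f g)
    (x R : ℝ) (hR : 1 ≤ R) (hx : |x| ≤ R) :
    1 ≤ ((f.natDegree + g.natDegree).factorial : ℝ) * (f.natDegree + g.natDegree) *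
      R ^ (f.natDegree + g.natDegree) *
      (|aeval x g| * (ht g : ℝ) ^ (f.natDegree - 1) * (ht f : ℝ) ^ g.natDegree +
       |aeval x f| * (ht f : ℝ) ^ (g.natDegree - 1) * (ht g : ℝ) ^ f.natDegree) := by
  set p := f.natDegree with hpdef
  set q := g.natDegree with hqdef
  have hf0 : f ≠ 0 := by rintro rfl; simp at hpdef; omega
  have hg0 : g ≠ 0 := by rintro rfl; simp at hqdef; omega
  have hhf : (1 : ℝ) ≤ ht f := by exact_mod_cast one_le_ht hf0
  have hhg : (1 : ℝ) ≤ ht g := by exact_mod_cast one_le_ht hg0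
  set h : Fin (p + q) → ℝ := fun j => Fin.addCases (fun _ => (ht g : ℝ)) (fun _ => (ht f : ℝ)) j
    with hh
  set ε : Fin (p + q) → ℝ := fun j => Fin.addCases (fun _ => R ^ (p + q) * |aeval x g|)
    (fun _ => R ^ (p + q) * |aeval x f|) j with hε
  have hR0 : 0 ≤ R := by linarith
  have key := det_bound (sylvester f g p q) (resultant_ne_zero_of_cop hcop)
    (fun i => x ^ (i : ℕ)) ⟨0, by omega⟩ (by simp) h ε
    (by
      intro j
      refine Fin.addCases (fun j => ?_) (fun j => ?_) j <;> simp [hh])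
    (by
      intro j
      refine Fin.addCases (fun j => ?_) (fun j => ?_) j <;> simp only [hε, Fin.addCases_left, Fin.addCases_right] <;> positivity)
    (by
      intro i j
      refine Fin.addCases (fun j => ?_) (fun j => ?_) j
      · simp only [hh, Fin.addCases_left, sylvester, Matrix.of_apply]
        split_ifs
        · exact abs_coeff_le_ht _ _
        · simp
      · simp only [hh, Fin.addCases_right, sylvester, Matrix.of_apply]
        split_ifs
        · exact abs_coeff_le_ht _ _
        · simp)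
    (by
      intro j
      refine Fin.addCases (fun j => ?_) (fun j => ?_) j
      · simp only [hε, Fin.addCases_left, sylvester, Matrix.of_apply]
        rw [sum_pow_shift x g p q j rfl j.2, abs_mul, abs_pow]
        apply mul_le_mul_of_nonneg_right _ (abs_nonneg _)
        calc |x| ^ (j : ℕ) ≤ R ^ (j : ℕ) := pow_le_pow_left₀ (abs_nonneg _) hx _
          _ ≤ R ^ (p + q) := pow_le_pow_right₀ hR (by omega)
      · simp only [hε, Fin.addCases_right, sylvester, Matrix.of_apply]
        have := sum_pow_shift x f q p j rfl j.2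
        have e : ∑ i : Fin (p + q), x ^ (i : ℕ) *
            ((if (i : ℕ) ∈ Set.Icc (j : ℕ) (j + p) then f.coeff (i - j) else 0 : ℤ) : ℝ) =
            ∑ i : Fin (q + p), x ^ (i : ℕ) *
            ((if (i : ℕ) ∈ Set.Icc (j : ℕ) (j + p) then f.coeff (i - j) else 0 : ℤ) : ℝ) := by
          rw [Fin.sum_univ_eq_sum_range (fun i => x ^ i *
            ((if i ∈ Set.Icc (j : ℕ) (j + p) then f.coeff (i - j) else 0 : ℤ) : ℝ)),
            Fin.sum_univ_eq_sum_range (fun i => x ^ i *
            ((if i ∈ Set.Icc (j : ℕ) (j + p) then f.coeff (i - j) else 0 : ℤ) : ℝ)), add_comm p q]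
        rw [e, this, abs_mul, abs_pow]
        apply mul_le_mul_of_nonneg_right _ (abs_nonneg _)
        calc |x| ^ (j : ℕ) ≤ R ^ (j : ℕ) := pow_le_pow_left₀ (abs_nonneg _) hx _
          _ ≤ R ^ (p + q) := pow_le_pow_right₀ hR (by omega))
  refine key.trans ?_
  rw [Fintype.card_fin, mul_assoc, mul_assoc]
  apply mul_le_mul_of_nonneg_left _ (by positivity)
  have hprod : ∏ k, h k = (ht g : ℝ) ^ p * (ht f : ℝ) ^ q := by
    rw [Fin.prod_univ_add]
    simp [hh]
  have hpos : ∀ j, 0 < h j := by
    intro j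
    refine Fin.addCases (fun j => ?_) (fun j => ?_) j
    · simp only [hh, Fin.addCases_left]; linarith
    · simp only [hh, Fin.addCases_right]; linarith
  have herase : ∀ j, ∏ k ∈ univ.erase j, h k = (ht g : ℝ) ^ p * (ht f : ℝ) ^ q / h j := by
    intro j
    rw [eq_div_iff (hpos j).ne', mul_comm, Finset.mul_prod_erase univ h (Finset.mem_univ j), hprod]
  rw [Fin.sum_univ_add]
  have e1 : ∀ j : Fin p, ε (Fin.castAdd q j) * ∏ k ∈ univ.erase (Fin.castAdd q j), h k =
      R ^ (p + q) * (|aeval x g| * (ht g : ℝ) ^ (p - 1) * (ht f : ℝ) ^ q) := by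
    intro j
    rw [herase]
    simp only [hε, hh, Fin.addCases_left]
    have : (ht g : ℝ) ^ p = (ht g : ℝ) ^ (p - 1) * ht g := by
      rw [← pow_succ]; congr 1; omega
    rw [this]
    field_simp
  have e2 : ∀ j : Fin q, ε (Fin.natAdd p j) * ∏ k ∈ univ.erase (Fin.natAdd p j), h k =
      R ^ (p + q) * (|aeval x f| * (ht f : ℝ) ^ (q - 1) * (ht g : ℝ) ^ p) := by
    intro j
    rw [herase]
    simp only [hε, hh, Fin.addCases_right]
    have : (ht f : ℝ) ^ q = (ht f : ℝ) ^ (q - 1) * ht f := by
      rw [← pow_succ]; congr 1; omega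
    rw [this]
    field_simp
  rw [Finset.sum_congr rfl fun j _ => e1 j, Finset.sum_congr rfl fun j _ => e2 j]
  simp only [Finset.sum_const, Finset.card_univ, Fintype.card_fin, nsmul_eq_mul]
  have a1 : 0 ≤ |aeval x g| * (ht g : ℝ) ^ (p - 1) * (ht f : ℝ) ^ q := by positivity
  have a2 : 0 ≤ |aeval x f| * (ht f : ℝ) ^ (q - 1) * (ht g : ℝ) ^ p := by positivity
  have a3 : 0 ≤ R ^ (p + q) := by positivity
  have a4 : (0 : ℝ) ≤ p := Nat.cast_nonneg _
  have a5 : (0 : ℝ) ≤ q := Nat.cast_nonneg _
  have b1 := mul_nonneg a3 a1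
  have b2 := mul_nonneg a3 a2
  nlinarith [mul_nonneg a5 b1, mul_nonneg a4 b2]

end Pool.Agent.TNum
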