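import Mathlib
import Pool.Agent.TNum.Res
import Pool.Agent.TNum.Eval

set_option autoImplicit false

namespace Pool.Agent.TNum

open Polynomial Finset

theorem irr_map {P : ℤ[X]} (hP : Irreducible P) (hn : P.natDegree ≠ 0) :
    Irreducible (P.map (Int.castRingHom ℚ)) :=
  (IsPrimitive.Int.irreducible_iff_irreducible_map_cast (hP.isPrimitive hn)).mp hP

theorem dvd_of_not_cop {P Q : ℤ[X]} (hP : Irreducible P) (hn : P.natDegree ≠ 0)
    (h : ¬ Cop P Q) : P.map (Int.castRingHom ℚ) ∣ Q.map (Int.castRingHom ℚ) := by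
  by_contra hcon
  exact h ((irr_map hP hn).coprime_iff_not_dvd.mpr hcon)

theorem prop_of_not_cop {P Q : ℤ[X]} (hP : Irreducible P) (hn : P.natDegree ≠ 0)
    (hQ : Q.natDegree ≤ P.natDegree) (h : ¬ Cop P Q) :
    ∃ r : ℚ, ∀ j, (Q.coeff j : ℚ) = r * P.coeff j := by
  obtain ⟨F, hF⟩ := dvd_of_not_cop hP hn h
  have hinj : Function.Injective (Int.castRingHom ℚ) := RingHom.injective_int _
  have hP0 : P ≠ 0 := hP.ne_zero
  have hPm : P.map (Int.castRingHom ℚ) ≠ 0 := (Polynomial.map_ne_zero_iff hinj).mpr hP0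
  by_cases hF0 : F = 0
  · refine ⟨0, fun j => ?_⟩
    have := congrArg (fun f => f.coeff j) hF
    simpa [hF0] using this
  · have hdeg : F.natDegree = 0 := by
      have h1 := congrArg natDegree hF
      rw [natDegree_mul hPm hF0, natDegree_map_eq_of_injective hinj,
        natDegree_map_eq_of_injective hinj] at h1
      omega
    obtain ⟨r, hr⟩ := natDegree_eq_zero.mp hdeg
    refine ⟨r, fun j => ?_⟩
    have := congrArg (fun f => f.coeff j) hF
    simp only [← hr, coeff_map, coeff_mul_C, eq_intCast] at this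
    rw [this]; ring

/-- value at a common zero -/
theorem eval_eq_zero_of_not_cop {P Q : ℤ[X]} (hP : Irreducible P) (hn : P.natDegree ≠ 0)
    (h : ¬ Cop P Q) {x : ℝ} (hx : aeval x P = 0) : aeval x Q = 0 := by
  obtain ⟨F, hF⟩ := dvd_of_not_cop hP hn h
  have key : ∀ P : ℤ[X], aeval x P = aeval x (P.map (Int.castRingHom ℚ)) := by
    intro P
    rw [aeval_def, aeval_def, eval₂_map]
    congr 1
  rw [key] at hx ⊢
  rw [hF, map_mul, hx, zero_mul]

theorem cop_of_eval {P Q : ℤ[X]} (hP : Irreducible P) (hn : P.natDegree ≠ 0)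
    {x : ℝ} (hx : aeval x P = 0) (hQ : aeval x Q ≠ 0) : Cop P Q := by
  by_contra h
  exact hQ (eval_eq_zero_of_not_cop hP hn h hx)

/-- If `P` is irreducible of degree at least that of `Q`, `Q x = 0`, `Q ≠ 0` and `P x ≠ 0` then
they are coprime. -/
theorem cop_of_natDegree_le {P Q : ℤ[X]} (hP : Irreducible P) (hn : P.natDegree ≠ 0)
    (hQ0 : Q ≠ 0) (hQ : Q.natDegree ≤ P.natDegree) {x : ℝ} (hx : aeval x Q = 0)
    (hPx : aeval x P ≠ 0) : Cop P Q := by
  by_contra h
  obtain ⟨r, hr⟩ := prop_of_not_cop hP hn hQ h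
  have hr0 : r ≠ 0 := by
    rintro rfl
    apply hQ0
    ext j
    have := hr j
    simpa using this
  have h1 : aeval x Q = (r : ℝ) * aeval x P := by
    rw [aeval_eq_sum Q hQ, aeval_eq_sum P le_rfl, Finset.mul_sum]
    apply Finset.sum_congr rfl
    intro i _
    have h2 : ((Q.coeff i : ℚ) : ℝ) = ((r * P.coeff i : ℚ) : ℝ) := by rw [hr i]
    push_cast at h2
    rw [h2]; ring
  rw [hx] at h1
  rcases mul_eq_zero.mp h1.symm with h2 | h2
  · exact hr0 (by exact_mod_cast h2)
  · exact hPx h2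

end Pool.Agent.TNum
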