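import Mathlib
import Pool.Agent.TNum.Basic
import Pool.Agent.TNum.Eval

set_option autoImplicit false

namespace Pool.Agent.TNum

open Polynomial Finset

theorem card_le_of_interval (S : Finset ℤ) (a b : ℝ) (hab : a ≤ b + 1)
    (h : ∀ c ∈ S, a ≤ (c : ℝ) ∧ (c : ℝ) ≤ b) : (S.card : ℝ) ≤ b - a + 1 := by
  have hsub : S ⊆ Finset.Icc ⌈a⌉ ⌊b⌋ := by
    intro c hc
    rw [Finset.mem_Icc]
    exact ⟨Int.ceil_le.mpr (h c hc).1, Int.le_floor.mpr (h c hc).2⟩
  have h1 := Finset.card_le_card hsub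
  rw [Int.card_Icc] at h1
  have h2 : ((⌊b⌋ + 1 - ⌈a⌉).toNat : ℝ) ≤ b - a + 1 := by
    have h3 : (((⌊b⌋ + 1 - ⌈a⌉).toNat : ℤ) : ℝ) = ((max (⌊b⌋ + 1 - ⌈a⌉) 0 : ℤ) : ℝ) := by
      rw [Int.toNat_eq_max]
    have h4 : ((⌊b⌋ + 1 - ⌈a⌉).toNat : ℝ) = ((max (⌊b⌋ + 1 - ⌈a⌉) 0 : ℤ) : ℝ) := by
      rw [← h3, Int.cast_natCast]
    rw [h4]
    push_cast
    apply max_le
    · have := Int.floor_le b
      have := Int.le_ceil a
      linarith
    · linarith
  calc (S.card : ℝ) ≤ ((⌊b⌋ + 1 - ⌈a⌉).toNat : ℝ) := by exact_mod_cast h1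
    _ ≤ _ := h2

theorem card_near (S : Finset ℤ) (β y ρ : ℝ) (d : ℕ) (hd : 0 < d) (hρ : 0 ≤ ρ)
    (h : ∀ c ∈ S, |β + (c : ℝ) / d - y| ≤ ρ) : (S.card : ℝ) ≤ 2 * ρ * d + 1 := by
  have hd' : (0 : ℝ) < d := by exact_mod_cast hd
  have h1 := card_le_of_interval S (d * (y - ρ - β)) (d * (y + ρ - β))
    (by nlinarith [mul_nonneg hd'.le hρ])
    (by
      intro c hc
      have h2 := abs_le.mp (h c hc)
      constructor
      · have h3 : y - ρ - β ≤ (c : ℝ) / d := by linarith [h2.1]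
        rw [le_div_iff₀ hd'] at h3
        linarith
      · have h3 : (c : ℝ) / d ≤ y + ρ - β := by linarith [h2.2]
        rw [div_le_iff₀ hd'] at h3
        linarith)
  linarith

theorem card_spaced (S : Finset ℤ) (a b s : ℝ) (hab : a ≤ b) (hs : 0 < s)
    (h : ∀ c ∈ S, a ≤ (c : ℝ) ∧ (c : ℝ) ≤ b)
    (hsp : ∀ c ∈ S, ∀ c' ∈ S, c ≠ c' → s ≤ |(c : ℝ) - c'|) : (S.card : ℝ) ≤ (b - a) / s + 1 := by
  classical
  set f : ℤ → ℤ := fun c => ⌊((c : ℝ) - a) / s⌋ with hf
  have hinj : Set.InjOn f (S : Set ℤ) := by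
    intro c hc c' hc' heq
    by_contra hne
    have h1 := hsp c hc c' hc' hne
    have h2 : |((c : ℝ) - a) / s - ((c' : ℝ) - a) / s| < 1 := by
      exact Int.abs_sub_lt_one_of_floor_eq_floor heq
    have h3 : ((c : ℝ) - a) / s - ((c' : ℝ) - a) / s = ((c : ℝ) - c') / s := by ring
    rw [h3, abs_div, abs_of_pos hs, div_lt_one hs] at h2
    linarith
  have hcard : (S.image f).card = S.card := Finset.card_image_of_injOn hinj
  rw [← hcard]
  have h1 := card_le_of_interval (S.image f) 0 ((b - a) / s)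
    (by have : 0 ≤ (b - a) / s := div_nonneg (by linarith) hs.le
        linarith)
    (by
      intro c hc
      obtain ⟨x, hx, rfl⟩ := Finset.mem_image.mp hc
      obtain ⟨h2, h3⟩ := h x hx
      constructor
      · have : (0 : ℤ) ≤ f x := Int.floor_nonneg.mpr (div_nonneg (by linarith) hs.le)
        exact_mod_cast this
      · have h4 : ((f x : ℤ) : ℝ) ≤ ((x : ℝ) - a) / s := Int.floor_le _
        refine h4.trans ?_
        apply div_le_div_of_nonneg_right _ hs.le
        linarith)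
  linarith

theorem card_classes (S : Finset ℤ) (q : ℕ) (hq : 0 < q) (t : ℝ)
    (h : ∀ r : ℤ, ((S.filter (fun c => c % q = r)).card : ℝ) ≤ t) : (S.card : ℝ) ≤ q * t := by
  classical
  have hmaps : (S : Set ℤ).MapsTo (fun c => c % (q : ℤ)) (Finset.Ico (0 : ℤ) q) := by
    intro c _
    simp only [Finset.coe_Ico, Set.mem_Ico]
    have hq' : (0 : ℤ) < q := by exact_mod_cast hq
    exact ⟨Int.emod_nonneg _ hq'.ne', Int.emod_lt_of_pos _ hq'⟩
  rw [Finset.card_eq_sum_card_fiberwise hmaps]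
  push_cast
  calc ∑ r ∈ Finset.Ico (0 : ℤ) q, ((S.filter (fun c => c % (q : ℤ) = r)).card : ℝ)
      ≤ ∑ _r ∈ Finset.Ico (0 : ℤ) q, t := Finset.sum_le_sum fun r _ => h r
    _ = q * t := by rw [Finset.sum_const, Int.card_Ico]; simp

theorem pow_card_lt_prod {s : Multiset ℂ} {f : ℂ → ℝ} {ρ : ℝ} (hρ : 0 ≤ ρ)
    (h : ∀ α ∈ s, ρ < f α) (hs : s ≠ 0) : ρ ^ (Multiset.card s) < (s.map f).prod := by
  induction s using Multiset.induction with
  | empty => exact absurd rfl hs
  | cons a t ih =>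
    rw [Multiset.card_cons, Multiset.map_cons, Multiset.prod_cons, pow_succ']
    have ha := h a (Multiset.mem_cons_self a t)
    by_cases ht : t = 0
    · subst ht; simpa using ha
    · have h2 := ih (fun α hα => h α (Multiset.mem_cons_of_mem hα)) ht
      exact mul_lt_mul'' ha h2 hρ (by positivity)

/-- If `|P x|` is small then some root has real part close to `x`. -/
theorem root_near (P : ℤ[X]) (hn : 1 ≤ P.natDegree) (x ρ : ℝ) (hρ : 0 ≤ ρ)
    (h : |aeval x P| ≤ ρ ^ P.natDegree) :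
    ∃ α ∈ (P.map (algebraMap ℤ ℂ)).roots, |x - α.re| ≤ ρ := by
  by_contra hcon
  push Not at hcon
  have hP0 : P ≠ 0 := by rintro rfl; simp at hn
  set Pc := P.map (algebraMap ℤ ℂ) with hPc
  have hinj : Function.Injective (algebraMap ℤ ℂ) := RingHom.injective_int _
  have hsplit : Pc.Splits := IsAlgClosed.splits Pc
  have hcard : Multiset.card Pc.roots = P.natDegree := by
    rw [← hsplit.natDegree_eq_card_roots, hPc, natDegree_map_eq_of_injective hinj]
  have hev : Pc.eval (x : ℂ) = ((aeval x P : ℝ) : ℂ) := by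
    rw [hPc, eval_map_algebraMap]
    have : (x : ℂ) = algebraMap ℝ ℂ x := rfl
    rw [this, aeval_algebraMap_apply]
    rfl
  have hprod := hsplit.eval_eq_prod_roots (x : ℂ)
  have hlead : (1 : ℝ) ≤ ‖Pc.leadingCoeff‖ := by
    rw [hPc, leadingCoeff_map_of_injective hinj]
    simp only [algebraMap_int_eq, eq_intCast, Complex.norm_intCast]
    rw [← Int.cast_abs]
    exact_mod_cast Int.one_le_abs (leadingCoeff_ne_zero.mpr hP0)
  have hnorm : |aeval x P| = ‖Pc.leadingCoeff‖ * (Pc.roots.map fun α => ‖(x : ℂ) - α‖).prod := by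
    have h1 : ‖Pc.eval (x : ℂ)‖ = |aeval x P| := by
      rw [hev, Complex.norm_real, Real.norm_eq_abs]
    rw [← h1, hprod, norm_mul]
    congr 1
    have h2 : ∀ s : Multiset ℂ, ‖s.prod‖ = (s.map norm).prod :=
      fun s => map_multiset_prod (normHom : ℂ →*₀ ℝ) s
    rw [h2, Multiset.map_map]
    rfl
  have hlt : ρ ^ P.natDegree < (Pc.roots.map fun α => ‖(x : ℂ) - α‖).prod := by
    rw [← hcard]
    apply pow_card_lt_prod hρ
    · intro α hα
      refine lt_of_lt_of_le (hcon α hα) ?_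
      have := Complex.abs_re_le_norm ((x : ℂ) - α)
      simpa using this
    · intro h0
      rw [h0] at hcard
      simp at hcard
      omega
  have : ρ ^ P.natDegree < |aeval x P| := by
    rw [hnorm]
    have h2 : 0 ≤ (Pc.roots.map fun α => ‖(x : ℂ) - α‖).prod := le_trans (by positivity) hlt.le
    nlinarith
  linarith

/-- finite set containing all integer polynomials of degree `≤ n` and height `≤ A` -/
noncomputable def polys (n A : ℕ) : Finset ℤ[X] :=
  (Fintype.piFinset fun _ : Fin (n + 1) => Finset.Icc (-(A : ℤ)) A).image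
    fun f => ∑ i : Fin (n + 1), C (f i) * X ^ (i : ℕ)

theorem card_polys_le (n A : ℕ) : (polys n A).card ≤ (2 * A + 1) ^ (n + 1) := by
  refine Finset.card_image_le.trans ?_
  rw [Fintype.card_piFinset_const, Int.card_Icc]
  apply le_of_eq
  congr 1
  omega

theorem mem_polys {n A : ℕ} {P : ℤ[X]} (hn : P.natDegree ≤ n) (hA : ht P ≤ A) :
    P ∈ polys n A := by
  rw [polys, Finset.mem_image]
  refine ⟨fun i => P.coeff i, ?_, ?_⟩
  · rw [Fintype.mem_piFinset]
    intro i
    rw [Finset.mem_Icc]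
    have := (natAbs_coeff_le_ht P i).trans hA
    omega
  · rw [Fin.sum_univ_eq_sum_range (fun i => C (P.coeff i) * X ^ i)]
    exact (P.as_sum_range_C_mul_X_pow' (Nat.lt_succ_of_le hn)).symm

end Pool.Agent.TNum
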