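import Mathlib
import Pool.Agent.TNum.Count
import Pool.Agent.TNum.Res
import Pool.Agent.TNum.Irr

set_option autoImplicit false

namespace Pool.Agent.TNum

open Polynomial Finset

/-- an interval avoiding finitely many points -/
theorem gap_lemma (Z : Finset ℝ) (M : ℕ) (hZ : Z.card ≤ M) (x₀ δ : ℝ) (hδ : 0 < δ) :
    ∃ a' : ℝ, x₀ + δ / 2 ≤ a' ∧ a' + δ / (8 * (M + 1)) ≤ x₀ + δ ∧
      ∀ z ∈ Z, ∀ x : ℝ, a' ≤ x → x ≤ a' + δ / (8 * (M + 1)) → δ / (8 * (M + 1)) ≤ |x - z| := by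
  classical
  set η : ℝ := δ / (8 * (M + 1)) with hη
  have hη0 : 0 < η := by positivity
  have hδη : δ = 8 * (M + 1) * η := by rw [hη]; field_simp
  set y : ℕ → ℝ := fun k => x₀ + δ / 2 + (4 * k + 2) * η with hy
  have hex : ∃ k ∈ Finset.range (M + 1), ∀ z ∈ Z, 2 * η ≤ |z - y k| := by
    by_contra hcon
    push Not at hcon
    choose! f hf1 hf2 using hcon
    have hmaps : ∀ k ∈ Finset.range (M + 1), f k ∈ Z := hf1
    obtain ⟨k, hk, l, hl, hne, heq⟩ := Finset.exists_ne_map_eq_of_card_lt_of_maps_to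
      (by rw [Finset.card_range]; omega) hmaps
    have h1 := hf2 k hk
    have h2 := hf2 l hl
    rw [← heq] at h2
    have h3 : |y k - y l| < 4 * η := by
      calc |y k - y l| = |(f k - y l) - (f k - y k)| := by congr 1; ring
        _ ≤ |f k - y l| + |f k - y k| := abs_sub _ _
        _ < 4 * η := by linarith
    have h4 : y k - y l = 4 * ((k : ℝ) - l) * η := by rw [hy]; ring
    rw [h4, abs_mul, abs_of_pos hη0, abs_mul, abs_of_pos (by norm_num : (0 : ℝ) < 4)] at h3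
    have h5 : |(k : ℝ) - l| < 1 := by
      have : 4 * |(k : ℝ) - l| < 4 := lt_of_mul_lt_mul_right h3 hη0.le
      linarith
    have h6 : |((k : ℤ) - l : ℤ)| < 1 := by
      have : ((|((k : ℤ) - l : ℤ)| : ℤ) : ℝ) < 1 := by push_cast; exact h5
      exact_mod_cast this
    have h7 : (k : ℤ) - l = 0 := Int.abs_lt_one_iff.mp h6
    exact hne (by omega)
  obtain ⟨k, hk, hkZ⟩ := hex
  have hkM : (k : ℝ) ≤ M := by
    have : k ≤ M := by simpa [Nat.lt_succ_iff] using hk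
    exact_mod_cast this
  have hk0 : (0 : ℝ) ≤ k := Nat.cast_nonneg _
  refine ⟨y k - η / 2, ?_, ?_, ?_⟩
  · rw [hy]; nlinarith
  · have : x₀ + δ = x₀ + δ / 2 + 4 * (M + 1) * η := by linarith
    rw [this, hy]
    nlinarith
  · intro z hz x hx1 hx2
    have h1 := hkZ z hz
    have h2 : |x - y k| ≤ η / 2 := by rw [abs_le]; constructor <;> linarith
    have h3 : |z - y k| ≤ |x - y k| + |x - z| := by
      calc |z - y k| = |(x - y k) - (x - z)| := by congr 1; ring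
        _ ≤ _ := abs_sub _ _
    linarith

theorem abs_aeval_eq_prod (P : ℤ[X]) (x : ℝ) :
    |aeval x P| = ‖(P.map (algebraMap ℤ ℂ)).leadingCoeff‖ *
      ((P.map (algebraMap ℤ ℂ)).roots.map fun α => ‖(x : ℂ) - α‖).prod := by
  set Pc := P.map (algebraMap ℤ ℂ) with hPc
  have hsplit : Pc.Splits := IsAlgClosed.splits Pc
  have hev : Pc.eval (x : ℂ) = ((aeval x P : ℝ) : ℂ) := by
    rw [hPc, eval_map_algebraMap]
    have : (x : ℂ) = algebraMap ℝ ℂ x := rfl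
    rw [this, aeval_algebraMap_apply]
    rfl
  have hprod := hsplit.eval_eq_prod_roots (x : ℂ)
  have h1 : ‖Pc.eval (x : ℂ)‖ = |aeval x P| := by
    rw [hev, Complex.norm_real, Real.norm_eq_abs]
  rw [← h1, hprod, norm_mul]
  congr 1
  have h2 : ∀ s : Multiset ℂ, ‖s.prod‖ = (s.map norm).prod :=
    fun s => map_multiset_prod (normHom : ℂ →*₀ ℝ) s
  rw [h2, Multiset.map_map]
  rfl

theorem multiset_prod_le (s : Multiset ℂ) (f g : ℂ → ℝ) (C : ℝ) (hC : 0 ≤ C)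
    (hf : ∀ α ∈ s, 0 ≤ f α) (hg : ∀ α ∈ s, 0 ≤ g α) (h : ∀ α ∈ s, f α ≤ C * g α) :
    (s.map f).prod ≤ C ^ (Multiset.card s) * (s.map g).prod ∧ 0 ≤ (s.map f).prod ∧
      0 ≤ (s.map g).prod := by
  induction s using Multiset.induction with
  | empty => simp
  | cons a t ih =>
    obtain ⟨ih1, ih2, ih3⟩ := ih (fun α hα => hf α (Multiset.mem_cons_of_mem hα))
      (fun α hα => hg α (Multiset.mem_cons_of_mem hα))
      (fun α hα => h α (Multiset.mem_cons_of_mem hα))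
    have fa := hf a (Multiset.mem_cons_self a t)
    have ga := hg a (Multiset.mem_cons_self a t)
    have ha := h a (Multiset.mem_cons_self a t)
    rw [Multiset.map_cons, Multiset.prod_cons, Multiset.map_cons, Multiset.prod_cons,
      Multiset.card_cons, pow_succ]
    refine ⟨?_, by positivity, by positivity⟩
    calc f a * (t.map f).prod ≤ (C * g a) * (C ^ (Multiset.card t) * (t.map g).prod) :=
          mul_le_mul ha ih1 ih2 (by positivity)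
      _ = _ := by ring

/-- Remez-type comparison -/
theorem remez (P : ℤ[X]) (x ξ δ ρ : ℝ) (hρ : 0 < ρ) (hδ : 0 ≤ δ) (hx : |ξ - x| ≤ δ)
    (h : ∀ α ∈ (P.map (algebraMap ℤ ℂ)).roots, ρ ≤ |x - α.re|) :
    |aeval ξ P| ≤ (1 + δ / ρ) ^ P.natDegree * |aeval x P| := by
  rw [abs_aeval_eq_prod P ξ, abs_aeval_eq_prod P x]
  set Pc := P.map (algebraMap ℤ ℂ) with hPc
  have hcard : Multiset.card Pc.roots = P.natDegree := by
    rw [← (IsAlgClosed.splits Pc).natDegree_eq_card_roots, hPc,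
      natDegree_map_eq_of_injective (RingHom.injective_int _)]
  have hC : 0 ≤ 1 + δ / ρ := by positivity
  have key := (multiset_prod_le Pc.roots (fun α => ‖(ξ : ℂ) - α‖) (fun α => ‖(x : ℂ) - α‖)
    (1 + δ / ρ) hC (fun _ _ => norm_nonneg _) (fun _ _ => norm_nonneg _) (by
      intro α hα
      have h1 : ρ ≤ ‖(x : ℂ) - α‖ := by
        refine (h α hα).trans ?_
        have := Complex.abs_re_le_norm ((x : ℂ) - α)
        simpa using this
      have h2 : ‖(ξ : ℂ) - α‖ ≤ |ξ - x| + ‖(x : ℂ) - α‖ := by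
        have h3 : (ξ : ℂ) - α = ((ξ - x : ℝ) : ℂ) + ((x : ℂ) - α) := by push_cast; ring
        rw [h3]
        refine (norm_add_le _ _).trans ?_
        rw [Complex.norm_real, Real.norm_eq_abs]
      have h4 : δ ≤ δ / ρ * ‖(x : ℂ) - α‖ := by
        calc δ = δ / ρ * ρ := by field_simp
          _ ≤ _ := mul_le_mul_of_nonneg_left h1 (by positivity)
      calc ‖(ξ : ℂ) - α‖ ≤ δ + ‖(x : ℂ) - α‖ := by linarith
        _ ≤ (1 + δ / ρ) * ‖(x : ℂ) - α‖ := by linarith)).1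
  rw [hcard] at key
  calc ‖Pc.leadingCoeff‖ * (Pc.roots.map fun α => ‖(ξ : ℂ) - α‖).prod
      ≤ ‖Pc.leadingCoeff‖ * ((1 + δ / ρ) ^ P.natDegree *
        (Pc.roots.map fun α => ‖(x : ℂ) - α‖).prod) :=
        mul_le_mul_of_nonneg_left key (norm_nonneg _)
    _ = _ := by ring

/-- two irreducible polynomials of the same degree are coprime unless equal up to sign -/
theorem cop_of_ne {P P' : ℤ[X]} (hP : Irreducible P) (hP' : Irreducible P') (hn : P.natDegree ≠ 0)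
    (hdeg : P'.natDegree = P.natDegree) (h1 : P' ≠ P) (h2 : P' ≠ -P) : Cop P P' := by
  by_contra hnc
  have hdvd := dvd_of_not_cop hP hn hnc
  rw [← IsPrimitive.Int.dvd_iff_map_cast_dvd_map_cast P P' (hP.isPrimitive hn)] at hdvd
  obtain ⟨G, hG⟩ := hdvd
  have hG0 : G ≠ 0 := by rintro rfl; rw [mul_zero] at hG; exact hP'.ne_zero hG
  have hGdeg : G.natDegree = 0 := by
    have := congrArg natDegree hG
    rw [natDegree_mul hP.ne_zero hG0, hdeg] at this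
    omega
  obtain ⟨z, hz⟩ := natDegree_eq_zero.mp hGdeg
  have hunit : IsUnit z := hP'.isPrimitive (by omega) z ⟨P, by rw [hG, ← hz, mul_comm]⟩
  rcases Int.isUnit_iff.mp hunit with h | h
  · exact h1 (by rw [hG, ← hz, h]; simp)
  · exact h2 (by rw [hG, ← hz, h]; simp)

/-- Case A: height small compared with `1/δ` -/
theorem caseA {n : ℕ} (hn : 1 ≤ n) {P : ℤ[X]} (hPn : P.natDegree = n) (hP3 : 3 ≤ ht P)
    {x ξ δ : ℝ} (hx : |x| ≤ 3) (hξ : |ξ| ≤ 3) (hxξ : |x - ξ| ≤ δ)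
    (hPξ : ((ht P : ℝ) ^ (12 * n ^ 2))⁻¹ ≤ |aeval ξ P|)
    (hA : 2 * ((n + 1) * n * 3 ^ n) * (ht P : ℝ) ^ (12 * n ^ 2 + 1) * δ ≤ 1) :
    ((ht P : ℝ) ^ (26 * n ^ 2))⁻¹ ≤ |aeval x P| := by
  set H : ℝ := (ht P : ℝ) with hH
  have hH3 : 3 ≤ H := by rw [hH]; exact_mod_cast hP3
  set K : ℝ := (n + 1) * n * 3 ^ n with hK
  have hK0 : 0 ≤ K := by positivity
  have h1 := abs_aeval_sub_le P hPn.le (by norm_num : (1 : ℝ) ≤ 3) hx hξ
  rw [← hK, ← hH] at h1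
  have h2 : |aeval ξ P| - |aeval x P| ≤ |aeval x P - aeval ξ P| := by
    rw [abs_sub_comm]; exact abs_sub_abs_le_abs_sub _ _
  have h3 : K * H * |x - ξ| ≤ K * H * δ := by gcongr
  set I : ℝ := (H ^ (12 * n ^ 2))⁻¹ with hI
  have hI0 : 0 < I := by positivity
  have h4 : K * H * δ ≤ I / 2 := by
    have h5 : 2 * K * H ^ (12 * n ^ 2 + 1) * δ = (2 * (K * H * δ)) * H ^ (12 * n ^ 2) := by
      rw [pow_succ]; ring
    rw [h5] at hA
    rw [hI, ← one_div]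
    rw [div_div, le_div_iff₀ (by positivity)]
    linarith
  have h6 : I / 2 ≤ |aeval x P| := by linarith
  refine le_trans ?_ h6
  have h7 : (H ^ (26 * n ^ 2))⁻¹ = I * (H ^ (14 * n ^ 2))⁻¹ := by
    rw [hI, ← mul_inv, ← pow_add]; congr 2; ring
  rw [h7, div_eq_mul_inv]
  apply mul_le_mul_of_nonneg_left _ hI0.le
  apply inv_anti₀ (by norm_num)
  calc (2 : ℝ) ≤ H := by linarith
    _ ≤ H ^ (14 * n ^ 2) := le_self_pow₀ (by linarith) (by positivity)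

/-- Case B: at most one bad polynomial up to sign -/
theorem caseB {n : ℕ} (hn : 1 ≤ n) : ∃ K : ℝ, 0 < K ∧ ∀ (e T τ : ℕ), K < e → 1 ≤ e →
    2 * n * τ + 1 ≤ T → ∀ (x x' : ℝ), |x| ≤ 3 → |x'| ≤ 3 → |x - x'| ≤ ((e : ℝ) ^ T)⁻¹ →
    ∀ P P' : ℤ[X], Irreducible P → Irreducible P' → P.natDegree = n → P'.natDegree = n →
    ht P ≤ e ^ τ → ht P' ≤ e ^ τ →
    (e : ℝ) ^ T < 2 * ((n + 1) * n * 3 ^ n) * (ht P : ℝ) ^ (12 * n ^ 2 + 1) →
    (e : ℝ) ^ T < 2 * ((n + 1) * n * 3 ^ n) * (ht P' : ℝ) ^ (12 * n ^ 2 + 1) →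
    |aeval x P| < ((ht P : ℝ) ^ (26 * n ^ 2))⁻¹ →
    |aeval x' P'| < ((ht P' : ℝ) ^ (26 * n ^ 2))⁻¹ → P' = P ∨ P' = -P := by
  set K : ℝ := (n + 1) * n * 3 ^ n with hK
  have hK0 : 0 < K := by positivity
  set C : ℝ := ((n + n).factorial : ℝ) * (n + n) * 3 ^ (n + n) with hC
  have hC0 : 0 < C := by positivity
  refine ⟨C * (8 * K ^ 2 + K), by positivity, ?_⟩
  intro e T τ hKe he hT x x' hx hx' hxx' P P' hP hP' hPn hPn' hPτ hPτ' hPT hPT' hPx hPx'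
  by_contra hcon
  push Not at hcon
  have hcop : Cop P P' := cop_of_ne hP hP' (by omega) (by omega) hcon.1 hcon.2
  have he' : (1 : ℝ) ≤ e := by exact_mod_cast he
  have hepos : (0 : ℝ) < e := by linarith
  set E : ℝ := (e : ℝ) ^ T with hE
  have hE1 : 1 ≤ E := one_le_pow₀ he'
  set X : ℝ := (e : ℝ) ^ τ with hX
  have hX1 : 1 ≤ X := one_le_pow₀ he'
  have key := res_bound P P' (by omega) (by omega) hcop x 3 (by norm_num) hx
  rw [hPn, hPn', ← hC] at key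
  have hHX : (ht P : ℝ) ≤ X := by rw [hX]; exact_mod_cast hPτ
  have hHX' : (ht P' : ℝ) ≤ X := by rw [hX]; exact_mod_cast hPτ'
  -- smallness
  have small : ∀ H : ℝ, 1 ≤ H → E < 2 * K * H ^ (12 * n ^ 2 + 1) →
      (H ^ (26 * n ^ 2))⁻¹ ≤ 4 * K ^ 2 * E⁻¹ := by
    intro H hH1 hEH
    have h1 : E ^ 2 ≤ (2 * K * H ^ (12 * n ^ 2 + 1)) ^ 2 := pow_le_pow_left₀ (by linarith) hEH.le _
    have h2 : (2 * K * H ^ (12 * n ^ 2 + 1)) ^ 2 ≤ 4 * K ^ 2 * H ^ (26 * n ^ 2) := by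
      rw [mul_pow, mul_pow, ← pow_mul]
      have h3 : H ^ ((12 * n ^ 2 + 1) * 2) ≤ H ^ (26 * n ^ 2) := by
        apply pow_le_pow_right₀ hH1
        have : 1 ≤ n ^ 2 := Nat.one_le_pow _ _ hn
        omega
      nlinarith [sq_nonneg K]
    have h3 : E ≤ 4 * K ^ 2 * H ^ (26 * n ^ 2) := by
      have : E ≤ E ^ 2 := le_self_pow₀ hE1 (by norm_num)
      linarith
    have hHp : 0 < H ^ (26 * n ^ 2) := by positivity
    rw [← div_eq_mul_inv, le_div_iff₀ (by linarith), inv_mul_le_iff₀ hHp]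
    linarith
  have hH1 : (1 : ℝ) ≤ ht P := by exact_mod_cast one_le_ht hP.ne_zero
  have hH1' : (1 : ℝ) ≤ ht P' := by exact_mod_cast one_le_ht hP'.ne_zero
  have s1 := small _ hH1 hPT
  have s2 := small _ hH1' hPT'
  have hd := abs_aeval_sub_le P' hPn'.le (by norm_num : (1 : ℝ) ≤ 3) hx hx'
  rw [← hK] at hd
  have hEi : 0 ≤ E⁻¹ := by positivity
  have hP'x : |aeval x P'| ≤ 4 * K ^ 2 * E⁻¹ + K * X * E⁻¹ := by
    have h1 : |aeval x P'| ≤ |aeval x P' - aeval x' P'| + |aeval x' P'| := by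
      have := abs_sub_abs_le_abs_sub (aeval x P') (aeval x' P')
      linarith
    have h2 : K * (ht P' : ℝ) * |x - x'| ≤ K * X * E⁻¹ := by gcongr
    linarith
  have hPx2 : |aeval x P| ≤ 4 * K ^ 2 * E⁻¹ := by linarith
  have hPht0 : (0 : ℝ) ≤ ht P := by linarith
  have hPht0' : (0 : ℝ) ≤ ht P' := by linarith
  have hXX : X ^ (n - 1) * X ^ n ≤ X ^ (2 * n - 1) := by
    rw [← pow_add]; exact pow_le_pow_right₀ hX1 (by omega)
  have t1 : |aeval x P'| * (ht P' : ℝ) ^ (n - 1) * (ht P : ℝ) ^ n ≤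
      (4 * K ^ 2 * E⁻¹ + K * X * E⁻¹) * X ^ (2 * n - 1) := by
    calc |aeval x P'| * (ht P' : ℝ) ^ (n - 1) * (ht P : ℝ) ^ n
        ≤ (4 * K ^ 2 * E⁻¹ + K * X * E⁻¹) * X ^ (n - 1) * X ^ n := by gcongr
      _ = (4 * K ^ 2 * E⁻¹ + K * X * E⁻¹) * (X ^ (n - 1) * X ^ n) := by ring
      _ ≤ _ := by gcongr
  have t2 : |aeval x P| * (ht P : ℝ) ^ (n - 1) * (ht P' : ℝ) ^ n ≤
      (4 * K ^ 2 * E⁻¹) * X ^ (2 * n - 1) := by
    calc |aeval x P| * (ht P : ℝ) ^ (n - 1) * (ht P' : ℝ) ^ n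
        ≤ (4 * K ^ 2 * E⁻¹) * X ^ (n - 1) * X ^ n := by gcongr
      _ = (4 * K ^ 2 * E⁻¹) * (X ^ (n - 1) * X ^ n) := by ring
      _ ≤ _ := by gcongr
  have hsum : |aeval x P'| * (ht P' : ℝ) ^ (n - 1) * (ht P : ℝ) ^ n +
      |aeval x P| * (ht P : ℝ) ^ (n - 1) * (ht P' : ℝ) ^ n ≤
      (8 * K ^ 2 + K) * (X ^ (2 * n) * E⁻¹) := by
    have h2n : X ^ (2 * n) = X * X ^ (2 * n - 1) := by rw [← pow_succ']; congr 1; omega
    have hX0 : 0 ≤ X ^ (2 * n - 1) := by positivity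
    have h3 : X ^ (2 * n - 1) * E⁻¹ ≤ X ^ (2 * n) * E⁻¹ := by
      apply mul_le_mul_of_nonneg_right _ hEi
      rw [h2n]
      exact le_mul_of_one_le_left hX0 hX1
    calc _ ≤ (4 * K ^ 2 * E⁻¹ + K * X * E⁻¹) * X ^ (2 * n - 1) +
          (4 * K ^ 2 * E⁻¹) * X ^ (2 * n - 1) := add_le_add t1 t2
      _ = 8 * K ^ 2 * (X ^ (2 * n - 1) * E⁻¹) + K * (X ^ (2 * n) * E⁻¹) := by rw [h2n]; ring
      _ ≤ 8 * K ^ 2 * (X ^ (2 * n) * E⁻¹) + K * (X ^ (2 * n) * E⁻¹) := by gcongr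
      _ = _ := by ring
  have hXE : X ^ (2 * n) * E⁻¹ ≤ (e : ℝ)⁻¹ := by
    rw [← div_eq_mul_inv, div_le_iff₀ (by linarith), inv_mul_eq_div, le_div_iff₀ hepos, hX, hE,
      ← pow_mul, ← pow_succ]
    apply pow_le_pow_right₀ he'
    calc τ * (2 * n) + 1 = 2 * n * τ + 1 := by ring
      _ ≤ T := hT
  have hfin : (1 : ℝ) ≤ C * ((8 * K ^ 2 + K) * (e : ℝ)⁻¹) := by
    refine key.trans ?_
    apply mul_le_mul_of_nonneg_left _ hC0.le
    refine hsum.trans ?_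
    gcongr
  rw [← mul_assoc, ← div_eq_mul_inv, le_div_iff₀ hepos] at hfin
  linarith

end Pool.Agent.TNum
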