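import Mathlib
import Pool.Agent.TNum.Basic
import Pool.Agent.TNum.Eval
import Pool.Agent.TNum.Count

set_option autoImplicit false

namespace Pool.Agent.TNum

open Polynomial Finset

/-- Mahler measure of an integer polynomial -/
noncomputable def MM (P : ℤ[X]) : ℝ := (P.map (Int.castRingHom ℂ)).mahlerMeasure

theorem MM_mul (P Q : ℤ[X]) : MM (P * Q) = MM P * MM Q := by
  rw [MM, Polynomial.map_mul, mahlerMeasure_mul]; rfl

theorem one_le_MM {P : ℤ[X]} (hP : P ≠ 0) : 1 ≤ MM P := one_le_mahlerMeasure_of_ne_zero hP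

theorem ht_le_MM (P : ℤ[X]) {n : ℕ} (hn : P.natDegree ≤ n) : (ht P : ℝ) ≤ 2 ^ n * MM P := by
  have hM0 : 0 ≤ MM P := mahlerMeasure_nonneg _
  apply ht_le_real (by positivity)
  intro i
  have h := norm_coeff_le_choose_mul_mahlerMeasure i (P.map (Int.castRingHom ℂ))
  rw [coeff_map] at h
  simp only [eq_intCast, Complex.norm_intCast] at h
  refine h.trans ?_
  apply mul_le_mul_of_nonneg_right _ hM0
  have h1 : (P.map (Int.castRingHom ℂ)).natDegree ≤ n := natDegree_map_le.trans hn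
  calc (((P.map (Int.castRingHom ℂ)).natDegree.choose i : ℕ) : ℝ) ≤
      (2 : ℝ) ^ (P.map (Int.castRingHom ℂ)).natDegree := by
        exact_mod_cast Nat.choose_le_two_pow _ _
    _ ≤ 2 ^ n := pow_le_pow_right₀ (by norm_num) h1

theorem MM_le_ht (P : ℤ[X]) {n : ℕ} (hn : P.natDegree ≤ n) : MM P ≤ (n + 1) * ht P := by
  refine (mahlerMeasure_le_sum_norm_coeff _).trans ?_
  rw [Polynomial.sum_def]
  have h1 : ∀ i ∈ (P.map (Int.castRingHom ℂ)).support,
      ‖(P.map (Int.castRingHom ℂ)).coeff i‖ ≤ ht P := by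
    intro i _
    rw [coeff_map]
    simp only [eq_intCast, Complex.norm_intCast]
    exact abs_coeff_le_ht P i
  refine (Finset.sum_le_sum h1).trans ?_
  rw [Finset.sum_const, nsmul_eq_mul]
  apply mul_le_mul_of_nonneg_right _ (Nat.cast_nonneg _)
  have h2 : (P.map (Int.castRingHom ℂ)).support.card ≤ n + 1 :=
    (card_supp_le_succ_natDegree _).trans (Nat.succ_le_succ (natDegree_map_le.trans hn))
  exact_mod_cast h2

/-- Extending a lower bound from irreducible polynomials to all polynomials. -/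
theorem all_of_irreducible (ξ : ℝ) (n w : ℕ) (κ : ℝ) (hκ0 : 0 < κ) (hκ1 : κ ≤ 1)
    (hirr : ∀ P : ℤ[X], Irreducible P → P.natDegree ≠ 0 → P.natDegree ≤ n →
      κ * ((ht P : ℝ) ^ w)⁻¹ ≤ |aeval ξ P|) :
    ∃ κ' : ℝ, 0 < κ' ∧ ∀ P : ℤ[X], P ≠ 0 → P.natDegree ≤ n →
      κ' * ((ht P : ℝ) ^ w)⁻¹ ≤ |aeval ξ P| := by
  set κ2 : ℝ := κ * ((2 ^ n) ^ w)⁻¹ with hκ2
  have hκ20 : 0 < κ2 := by positivity
  have hκ21 : κ2 ≤ 1 := by
    have h1 : ((2 : ℝ) ^ n) ^ w ≥ 1 := one_le_pow₀ (one_le_pow₀ (by norm_num))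
    have h2 : (((2 : ℝ) ^ n) ^ w)⁻¹ ≤ 1 := inv_le_one_of_one_le₀ h1
    rw [hκ2]
    calc κ * (((2 : ℝ) ^ n) ^ w)⁻¹ ≤ 1 * 1 := mul_le_mul hκ1 h2 (by positivity) (by norm_num)
      _ = 1 := one_mul 1
  -- irreducible in terms of Mahler measure
  have hirr2 : ∀ P : ℤ[X], Irreducible P → P.natDegree ≤ n →
      κ2 ^ P.natDegree * ((MM P) ^ w)⁻¹ ≤ |aeval ξ P| := by
    intro P hP hPn
    have hM1 : 1 ≤ MM P := one_le_MM hP.ne_zero
    by_cases h0 : P.natDegree = 0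
    · obtain ⟨z, hz⟩ := natDegree_eq_zero.mp h0
      have hz0 : z ≠ 0 := by rintro rfl; apply hP.ne_zero; rw [← hz]; simp
      rw [h0, pow_zero, one_mul]
      have h1 : (1 : ℝ) ≤ |aeval ξ P| := by
        rw [← hz, aeval_C]
        simp only [algebraMap_int_eq, eq_intCast]
        rw [← Int.cast_abs]
        exact_mod_cast Int.one_le_abs hz0
      exact (inv_le_one_of_one_le₀ (one_le_pow₀ hM1)).trans h1
    · have h1 := hirr P hP h0 hPn
      refine le_trans ?_ h1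
      have hH1 : (1 : ℝ) ≤ ht P := by exact_mod_cast one_le_ht hP.ne_zero
      have h2 : (ht P : ℝ) ^ w ≤ ((2 : ℝ) ^ n) ^ w * (MM P) ^ w := by
        rw [← mul_pow]
        exact pow_le_pow_left₀ (by linarith) (ht_le_MM P hPn) _
      have h3 : (((2 : ℝ) ^ n) ^ w * (MM P) ^ w)⁻¹ ≤ ((ht P : ℝ) ^ w)⁻¹ :=
        inv_anti₀ (by positivity) h2
      have h4 : κ2 ^ P.natDegree ≤ κ2 := by
        calc κ2 ^ P.natDegree ≤ κ2 ^ 1 := pow_le_pow_of_le_one hκ20.le hκ21 (by omega)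
          _ = κ2 := pow_one _
      calc κ2 ^ P.natDegree * ((MM P) ^ w)⁻¹ ≤ κ2 * ((MM P) ^ w)⁻¹ :=
            mul_le_mul_of_nonneg_right h4 (by positivity)
        _ = κ * (((2 : ℝ) ^ n) ^ w * (MM P) ^ w)⁻¹ := by rw [hκ2, mul_inv]; ring
        _ ≤ κ * ((ht P : ℝ) ^ w)⁻¹ := mul_le_mul_of_nonneg_left h3 hκ0.le
  have hall : ∀ P : ℤ[X], P ≠ 0 → P.natDegree ≤ n →
      κ2 ^ P.natDegree * ((MM P) ^ w)⁻¹ ≤ |aeval ξ P| := by
    intro P
    induction P using WfDvdMonoid.induction_on_irreducible with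
    | zero => intro h; exact absurd rfl h
    | unit u hu =>
      intro _ _
      obtain ⟨z, hz, hz2⟩ := Polynomial.isUnit_iff.mp hu
      have hM1 : 1 ≤ MM u := one_le_MM hu.ne_zero
      rw [← hz2] at hM1 ⊢
      rw [natDegree_C, pow_zero, one_mul, aeval_C]
      have h1 : (1 : ℝ) ≤ |(algebraMap ℤ ℝ) z| := by
        simp only [algebraMap_int_eq, eq_intCast]
        rw [← Int.cast_abs]
        exact_mod_cast Int.one_le_abs hz.ne_zero
      exact (inv_le_one_of_one_le₀ (one_le_pow₀ hM1)).trans h1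
    | mul a i ha hi ih =>
      intro _ hn
      have hdeg : (i * a).natDegree = i.natDegree + a.natDegree := natDegree_mul hi.ne_zero ha
      have h1 := ih ha (by omega)
      have h2 := hirr2 i hi (by omega)
      rw [hdeg, pow_add, MM_mul, map_mul, abs_mul, mul_pow (MM i) (MM a), mul_inv]
      have hMi : 1 ≤ MM i := one_le_MM hi.ne_zero
      have hMa : 1 ≤ MM a := one_le_MM ha
      calc κ2 ^ i.natDegree * κ2 ^ a.natDegree * ((MM i ^ w)⁻¹ * (MM a ^ w)⁻¹) =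
          (κ2 ^ i.natDegree * (MM i ^ w)⁻¹) * (κ2 ^ a.natDegree * (MM a ^ w)⁻¹) := by ring
        _ ≤ |aeval ξ i| * |aeval ξ a| := by
          apply mul_le_mul h2 h1 (by positivity) (abs_nonneg _)
  refine ⟨κ2 ^ n * (((n + 1 : ℝ)) ^ w)⁻¹, by positivity, ?_⟩
  intro P hP hPn
  have h1 := hall P hP hPn
  refine le_trans ?_ h1
  have hM1 : 1 ≤ MM P := one_le_MM hP
  have hH1 : (1 : ℝ) ≤ ht P := by exact_mod_cast one_le_ht hP
  have h2 : (MM P) ^ w ≤ ((n : ℝ) + 1) ^ w * (ht P : ℝ) ^ w := by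
    rw [← mul_pow]
    exact pow_le_pow_left₀ (by linarith) (MM_le_ht P hPn) _
  have h3 : (((n : ℝ) + 1) ^ w * (ht P : ℝ) ^ w)⁻¹ ≤ ((MM P) ^ w)⁻¹ :=
    inv_anti₀ (by positivity) h2
  have h4 : κ2 ^ n ≤ κ2 ^ P.natDegree := pow_le_pow_of_le_one hκ20.le hκ21 hPn
  calc κ2 ^ n * (((n + 1 : ℝ)) ^ w)⁻¹ * ((ht P : ℝ) ^ w)⁻¹ =
      κ2 ^ n * (((n : ℝ) + 1) ^ w * (ht P : ℝ) ^ w)⁻¹ := by rw [mul_inv]; ring
    _ ≤ κ2 ^ P.natDegree * ((MM P) ^ w)⁻¹ := by
      apply mul_le_mul h4 h3 (by positivity) (by positivity)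

/-- a vanishing polynomial has a vanishing irreducible factor of positive degree -/
theorem exists_irreducible_factor_root {ξ : ℝ} {p : ℤ[X]} (hp : p ≠ 0) (h0 : aeval ξ p = 0) :
    ∃ q : ℤ[X], Irreducible q ∧ q.natDegree ≠ 0 ∧ aeval ξ q = 0 := by
  induction p using WfDvdMonoid.induction_on_irreducible with
  | zero => exact absurd rfl hp
  | unit u hu =>
    exfalso
    obtain ⟨z, hz, hz2⟩ := Polynomial.isUnit_iff.mp hu
    rw [← hz2, aeval_C] at h0
    simp only [algebraMap_int_eq, eq_intCast, Int.cast_eq_zero] at h0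
    exact hz.ne_zero h0
  | mul a i ha hi ih =>
    rw [map_mul] at h0
    rcases mul_eq_zero.mp h0 with h | h
    · refine ⟨i, hi, ?_, h⟩
      intro hdeg
      obtain ⟨z, hz⟩ := natDegree_eq_zero.mp hdeg
      rw [← hz, aeval_C] at h
      simp only [algebraMap_int_eq, eq_intCast, Int.cast_eq_zero] at h
      apply hi.ne_zero
      rw [← hz, h]; simp
    · exact ih ha h

/-- A positive lower bound over a finite set -/
theorem exists_pos_lower (s : Finset ℤ[X]) (ξ : ℝ) (h : ∀ P ∈ s, P ≠ 0 → aeval ξ P ≠ 0) :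
    ∃ κ : ℝ, 0 < κ ∧ κ ≤ 1 ∧ ∀ P ∈ s, P ≠ 0 → κ ≤ |aeval ξ P| := by
  classical
  induction s using Finset.induction with
  | empty => exact ⟨1, one_pos, le_rfl, by simp⟩
  | insert a s ha ih =>
    obtain ⟨κ, h1, h2, h3⟩ := ih (fun P hP => h P (Finset.mem_insert_of_mem hP))
    by_cases ha0 : a = 0
    · refine ⟨κ, h1, h2, ?_⟩
      intro P hP hP0
      rcases Finset.mem_insert.mp hP with rfl | hP'
      · exact absurd ha0 hP0
      · exact h3 P hP' hP0
    · have hpos : 0 < |aeval ξ a| := abs_pos.mpr (h a (Finset.mem_insert_self _ _) ha0)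
      refine ⟨min κ |aeval ξ a|, lt_min h1 hpos, (min_le_left _ _).trans h2, ?_⟩
      intro P hP hP0
      rcases Finset.mem_insert.mp hP with rfl | hP'
      · exact min_le_right _ _
      · exact (min_le_left _ _).trans (h3 P hP' hP0)

end Pool.Agent.TNum
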