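import Mathlib
import Pool.Agent.TNum.Count

set_option autoImplicit false

namespace Pool.Agent.TNum

open Polynomial Finset

theorem bad1_single (P : ℤ[X]) (hn : 1 ≤ P.natDegree) (β : ℝ) (d : ℕ) (hd : 0 < d)
    (S : Finset ℤ)
    (hS : ∀ c ∈ S, |aeval (β + (c : ℝ) / d) P| ≤ ((ht P : ℝ) ^ (12 * P.natDegree ^ 2))⁻¹) :
    (S.card : ℝ) ≤ P.natDegree * (2 * ((ht P : ℝ) ^ (12 * P.natDegree))⁻¹ * d + 1) := by
  classical
  set n := P.natDegree with hndef
  set ρ : ℝ := ((ht P : ℝ) ^ (12 * n))⁻¹ with hρdef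
  have hρ : 0 ≤ ρ := by positivity
  set Pc := P.map (algebraMap ℤ ℂ) with hPc
  have hcard : Pc.roots.toFinset.card ≤ n := by
    refine (Multiset.toFinset_card_le _).trans ?_
    refine (Polynomial.card_roots' _).trans ?_
    exact natDegree_map_le
  have hsub : S ⊆ Pc.roots.toFinset.biUnion fun α =>
      S.filter (fun c : ℤ => |β + (c : ℝ) / d - α.re| ≤ ρ) := by
    intro c hc
    have h1 := hS c hc
    have h2 : ((ht P : ℝ) ^ (12 * n ^ 2))⁻¹ = ρ ^ n := by
      rw [hρdef, inv_pow, ← pow_mul]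
      congr 2; ring
    rw [h2] at h1
    obtain ⟨α, hα, hα2⟩ := root_near P hn _ ρ hρ h1
    rw [Finset.mem_biUnion]
    exact ⟨α, Multiset.mem_toFinset.mpr hα, Finset.mem_filter.mpr ⟨hc, hα2⟩⟩
  have h1 := (Finset.card_le_card hsub).trans Finset.card_biUnion_le
  have h2 : (S.card : ℝ) ≤ ∑ α ∈ Pc.roots.toFinset,
      ((S.filter (fun c : ℤ => |β + (c : ℝ) / d - α.re| ≤ ρ)).card : ℝ) := by
    rw [← Nat.cast_sum]; exact Nat.cast_le.mpr h1
  refine h2.trans ?_
  calc ∑ α ∈ Pc.roots.toFinset, ((S.filter (fun c : ℤ => |β + (c : ℝ) / d - α.re| ≤ ρ)).card : ℝ)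
      ≤ ∑ _α ∈ Pc.roots.toFinset, (2 * ρ * d + 1) := by
        apply Finset.sum_le_sum
        intro α _
        exact card_near _ β α.re ρ d hd hρ (fun c hc => (Finset.mem_filter.mp hc).2)
    _ = Pc.roots.toFinset.card * (2 * ρ * d + 1) := by
        rw [Finset.sum_const, nsmul_eq_mul]
    _ ≤ n * (2 * ρ * d + 1) := by
        apply mul_le_mul_of_nonneg_right _ (by positivity)
        exact_mod_cast hcard

theorem sum_sq_inv_le (B E : ℕ) (hB : 2 ≤ B) :
    ∑ A ∈ Finset.Icc B E, (((A : ℝ)) ^ 2)⁻¹ ≤ 1 := by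
  rcases lt_or_ge E B with h | h
  · rw [Finset.Icc_eq_empty (by omega)]; simp
  · have e : Finset.Icc B E = Finset.Ioc (B - 1) E := by
      ext x; simp; omega
    rw [e]
    refine (sum_Ioc_inv_sq_le_sub (by omega) (by omega)).trans ?_
    have h1 : (1 : ℝ) ≤ ((B - 1 : ℕ) : ℝ) := by exact_mod_cast (by omega : 1 ≤ B - 1)
    have h2 : (((B - 1 : ℕ) : ℝ))⁻¹ ≤ 1 := inv_le_one_of_one_le₀ h1
    have h3 : (0 : ℝ) ≤ (E : ℝ)⁻¹ := by positivity
    linarith

theorem bad1_card (n : ℕ) (hn : 1 ≤ n) (β : ℝ) (d : ℕ) (hd : 0 < d) (B E : ℕ) (hB : 3 ≤ B)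
    (S : Finset ℤ)
    (hS : ∀ c ∈ S, ∃ P : ℤ[X], P.natDegree = n ∧ B ≤ ht P ∧ ht P ≤ E ∧
      |aeval (β + (c : ℝ) / d) P| ≤ ((ht P : ℝ) ^ (12 * n ^ 2))⁻¹) :
    (S.card : ℝ) ≤ 2 * n * d * ((B : ℝ) ^ (4 * n))⁻¹ + n * (E + 1) * (2 * E + 1) ^ (n + 1) := by
  classical
  have hsub : S ⊆ (Finset.Icc B E).biUnion fun A =>
      ((polys n A).filter (fun P => P.natDegree = n ∧ ht P = A)).biUnion fun P =>
        S.filter (fun c : ℤ => |aeval (β + (c : ℝ) / d) P| ≤ ((ht P : ℝ) ^ (12 * n ^ 2))⁻¹) := by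
    intro c hc
    obtain ⟨P, hP1, hP2, hP3, hP4⟩ := hS c hc
    rw [Finset.mem_biUnion]
    refine ⟨ht P, Finset.mem_Icc.mpr ⟨hP2, hP3⟩, ?_⟩
    rw [Finset.mem_biUnion]
    exact ⟨P, Finset.mem_filter.mpr ⟨mem_polys hP1.le le_rfl, hP1, rfl⟩,
      Finset.mem_filter.mpr ⟨hc, hP4⟩⟩
  have h1 := (Finset.card_le_card hsub).trans Finset.card_biUnion_le
  have h2 : (S.card : ℝ) ≤ ∑ A ∈ Finset.Icc B E,
      ((((polys n A).filter (fun P => P.natDegree = n ∧ ht P = A)).biUnion fun P =>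
        S.filter (fun c : ℤ => |aeval (β + (c : ℝ) / d) P| ≤
          ((ht P : ℝ) ^ (12 * n ^ 2))⁻¹)).card : ℝ) := by
    rw [← Nat.cast_sum]; exact Nat.cast_le.mpr h1
  refine h2.trans ?_
  have hA : ∀ A ∈ Finset.Icc B E,
      ((((polys n A).filter (fun P => P.natDegree = n ∧ ht P = A)).biUnion fun P =>
        S.filter (fun c : ℤ => |aeval (β + (c : ℝ) / d) P| ≤
          ((ht P : ℝ) ^ (12 * n ^ 2))⁻¹)).card : ℝ) ≤
      2 * n * d * ((B : ℝ) ^ (4 * n))⁻¹ * ((A : ℝ) ^ 2)⁻¹ + n * (2 * E + 1) ^ (n + 1) := by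
    intro A hA
    obtain ⟨hBA, hAE⟩ := Finset.mem_Icc.mp hA
    have hA3 : (3 : ℝ) ≤ A := by exact_mod_cast hB.trans hBA
    have hAE' : (A : ℝ) ≤ E := by exact_mod_cast hAE
    have hBA' : (B : ℝ) ≤ A := by exact_mod_cast hBA
    have hB3 : (3 : ℝ) ≤ B := by exact_mod_cast hB
    have hd' : (0 : ℝ) < d := by exact_mod_cast hd
    have hn' : (1 : ℝ) ≤ n := by exact_mod_cast hn
    have step1 : ((((polys n A).filter (fun P => P.natDegree = n ∧ ht P = A)).biUnion fun P =>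
        S.filter (fun c : ℤ => |aeval (β + (c : ℝ) / d) P| ≤
          ((ht P : ℝ) ^ (12 * n ^ 2))⁻¹)).card : ℝ) ≤
        ((polys n A).filter (fun P => P.natDegree = n ∧ ht P = A)).card *
          (n * (2 * ((A : ℝ) ^ (12 * n))⁻¹ * d + 1)) := by
      have h3 : ((((polys n A).filter (fun P => P.natDegree = n ∧ ht P = A)).biUnion fun P =>
          S.filter (fun c : ℤ => |aeval (β + (c : ℝ) / d) P| ≤
            ((ht P : ℝ) ^ (12 * n ^ 2))⁻¹)).card : ℝ) ≤
          ∑ P ∈ (polys n A).filter (fun P => P.natDegree = n ∧ ht P = A),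
          ((S.filter (fun c : ℤ => |aeval (β + (c : ℝ) / d) P| ≤
            ((ht P : ℝ) ^ (12 * n ^ 2))⁻¹)).card : ℝ) := by
        rw [← Nat.cast_sum]; exact Nat.cast_le.mpr Finset.card_biUnion_le
      refine h3.trans ?_
      rw [← nsmul_eq_mul, ← Finset.sum_const]
      apply Finset.sum_le_sum
      intro P hP
      obtain ⟨_, hP1, hP2⟩ := Finset.mem_filter.mp hP
      have := bad1_single P (by omega) β d hd
        (S.filter (fun c : ℤ => |aeval (β + (c : ℝ) / d) P| ≤ ((ht P : ℝ) ^ (12 * n ^ 2))⁻¹))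
        (fun c hc => by rw [hP1]; exact (Finset.mem_filter.mp hc).2)
      rw [hP1, hP2] at this
      rw [hP2]
      exact this
    refine step1.trans ?_
    have hcardle : (((polys n A).filter (fun P => P.natDegree = n ∧ ht P = A)).card : ℝ) ≤
        (2 * A + 1) ^ (n + 1) := by
      have := (Finset.card_filter_le (polys n A) (fun P => P.natDegree = n ∧ ht P = A)).trans
        (card_polys_le n A)
      exact_mod_cast this
    have hfac : 0 ≤ (n * (2 * ((A : ℝ) ^ (12 * n))⁻¹ * d + 1) : ℝ) := by positivity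
    refine (mul_le_mul_of_nonneg_right hcardle hfac).trans ?_
    have e1 : ((2 * A + 1 : ℝ)) ^ (n + 1) * (n * (2 * ((A : ℝ) ^ (12 * n))⁻¹ * d + 1)) =
        2 * n * d * ((2 * A + 1 : ℝ) ^ (n + 1) * ((A : ℝ) ^ (12 * n))⁻¹) +
          n * (2 * A + 1) ^ (n + 1) := by ring
    rw [e1]
    apply add_le_add
    · rw [mul_assoc (2 * (n : ℝ) * d)]
      apply mul_le_mul_of_nonneg_left _ (by positivity)
      have h4 : (2 * A + 1 : ℝ) ^ (n + 1) ≤ (A : ℝ) ^ (4 * n) := by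
        calc (2 * A + 1 : ℝ) ^ (n + 1) ≤ ((A : ℝ) ^ 2) ^ (n + 1) := by
              apply pow_le_pow_left₀ (by positivity)
              nlinarith
          _ = (A : ℝ) ^ (2 * (n + 1)) := by rw [← pow_mul]
          _ ≤ (A : ℝ) ^ (4 * n) := pow_le_pow_right₀ (by linarith) (by omega)
      have hApos : (0 : ℝ) < A := by linarith
      calc (2 * A + 1 : ℝ) ^ (n + 1) * ((A : ℝ) ^ (12 * n))⁻¹
          ≤ (A : ℝ) ^ (4 * n) * ((A : ℝ) ^ (12 * n))⁻¹ := by
            apply mul_le_mul_of_nonneg_right h4 (by positivity)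
        _ = ((A : ℝ) ^ (4 * n))⁻¹ * ((A : ℝ) ^ (4 * n))⁻¹ := by
            have : (A : ℝ) ^ (12 * n) = (A : ℝ) ^ (4 * n) * ((A : ℝ) ^ (4 * n) * (A : ℝ) ^ (4 * n)) := by
              rw [← pow_add, ← pow_add]; congr 1; ring
            rw [this]
            have h5 : (A : ℝ) ^ (4 * n) ≠ 0 := by positivity
            field_simp
        _ ≤ ((B : ℝ) ^ (4 * n))⁻¹ * ((A : ℝ) ^ 2)⁻¹ := by
            apply mul_le_mul
            · apply inv_anti₀ (by positivity)
              exact pow_le_pow_left₀ (by positivity) hBA' _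
            · apply inv_anti₀ (by positivity)
              exact pow_le_pow_right₀ (by linarith) (by omega)
            · positivity
            · positivity
    · apply mul_le_mul_of_nonneg_left _ (by positivity)
      apply pow_le_pow_left₀ (by positivity)
      linarith
  refine (Finset.sum_le_sum hA).trans ?_
  rw [Finset.sum_add_distrib, ← Finset.mul_sum, Finset.sum_const, nsmul_eq_mul, Nat.card_Icc]
  apply add_le_add
  · have h5 := sum_sq_inv_le B E (by omega)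
    have h6 : (0 : ℝ) ≤ 2 * n * d * ((B : ℝ) ^ (4 * n))⁻¹ := by positivity
    nlinarith
  · have h7 : ((E + 1 - B : ℕ) : ℝ) ≤ E + 1 := by
      exact_mod_cast (by omega : E + 1 - B ≤ E + 1)
    calc ((E + 1 - B : ℕ) : ℝ) * (n * (2 * E + 1) ^ (n + 1))
        ≤ (E + 1) * (n * (2 * E + 1) ^ (n + 1)) := by
          apply mul_le_mul_of_nonneg_right h7 (by positivity)
      _ = _ := by ring

end Pool.Agent.TNum
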