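import Mathlib
import Pool.Agent.TNum.Res
import Pool.Agent.TNum.Irr
import Pool.Agent.TNum.Count

set_option autoImplicit false

namespace Pool.Agent.TNum

open Polynomial Finset

/-- the coprime case is impossible -/
theorem pair_cop (n : ℕ) (hn : 1 ≤ n) : ∃ K : ℝ, 0 < K ∧ ∀ (e i : ℕ), 1 ≤ e → 1 ≤ i →
    ∀ (x y : ℝ) (k : ℤ), |x| ≤ 3 → x = y + (k : ℝ) / ((e : ℝ) ^ (2 * i + 3)) →
      |(k : ℝ) / ((e : ℝ) ^ (2 * i + 3))| ≤ 3 →
    ∀ P P' : ℤ[X], P.natDegree = n → P'.natDegree = n → ht P ≤ e ^ (i + 1) → ht P' ≤ e ^ (i + 1) →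
      |aeval x P| ≤ ((e : ℝ) ^ (12 * i * n ^ 2))⁻¹ →
      |aeval y P'| ≤ ((e : ℝ) ^ (12 * i * n ^ 2))⁻¹ →
      Cop P (shiftPoly n ((e : ℤ) ^ (2 * i + 3)) (-k) P') → (e : ℝ) ≤ K := by
  set K1 : ℝ := (n + 1) * (2 * 3) ^ n with hK1
  have hK1pos : 1 ≤ K1 := by
    have : (1 : ℝ) ≤ (2 * 3) ^ n := one_le_pow₀ (by norm_num)
    have hn0 : (0 : ℝ) ≤ n := Nat.cast_nonneg _
    nlinarith
  refine ⟨((n + n).factorial : ℝ) * (n + n) * 3 ^ (n + n) * (2 * K1 ^ n), by positivity, ?_⟩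
  intro e i he hi x y k hx hxy hk P P' hPn hPn' hPe hPe' hPx hPy hcop
  set V : ℤ := (e : ℤ) ^ (2 * i + 3) with hV
  set Q := shiftPoly n V (-k) P' with hQ
  have he' : (1 : ℝ) ≤ e := by exact_mod_cast he
  have hepos : (0 : ℝ) < e := by linarith
  have heZ : (0 : ℤ) < e := by exact_mod_cast he
  have hVpos : 0 < V := by positivity
  have hVr : (V : ℝ) = (e : ℝ) ^ (2 * i + 3) := by rw [hV]; push_cast; rfl
  have hVrpos : (0 : ℝ) < V := by rw [hVr]; positivity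
  have hVr1 : (1 : ℝ) ≤ V := by rw [hVr]; exact one_le_pow₀ he'
  have hP0 : P ≠ 0 := by rintro rfl; simp at hPn; omega
  have hP0' : P' ≠ 0 := by rintro rfl; simp at hPn'; omega
  -- degree of Q
  have hQn : Q.natDegree = n := by
    apply le_antisymm (natDegree_shiftPoly_le _ _ _ _)
    apply le_natDegree_of_ne_zero
    rw [coeff_shiftPoly_top]
    apply mul_ne_zero
    · have : P'.coeff n = P'.leadingCoeff := by rw [← hPn']; rfl
      rw [this]; exact leadingCoeff_ne_zero.mpr hP0'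
    · exact pow_ne_zero _ hVpos.ne'
  have hQ0 : Q ≠ 0 := by rintro h; rw [h] at hQn; simp at hQn; omega
  -- value of Q
  have hQx : aeval x Q = (V : ℝ) ^ n * aeval y P' := by
    rw [hQ, aeval_shiftPoly hVpos.ne' _ _ hPn'.le]
    congr 2
    rw [hxy]
    push_cast
    rw [← hVr]
    ring
  have hQht : (ht Q : ℝ) ≤ K1 * V ^ n * e ^ (i + 1) := by
    have h1 := ht_shiftPoly_le n (k := -k) P' (R := 3) (by norm_num) hVpos (by
      have h2 : |(k : ℝ)| / (e : ℝ) ^ (2 * i + 3) ≤ 3 := by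
        have := hk
        rw [abs_div, abs_of_pos (show (0 : ℝ) < (e : ℝ) ^ (2 * i + 3) by positivity)] at this
        exact this
      rw [div_le_iff₀ (by positivity)] at h2
      push_cast
      rw [abs_neg, ← hVr] at *
      exact h2)
    refine h1.trans ?_
    have h3 : (ht P' : ℝ) ≤ (e : ℝ) ^ (i + 1) := by exact_mod_cast hPe'
    rw [hK1]
    gcongr
  have hPht : (ht P : ℝ) ≤ (e : ℝ) ^ (i + 1) := by exact_mod_cast hPe
  have hPht0 : (0 : ℝ) ≤ ht P := Nat.cast_nonneg _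
  have hQht0 : (0 : ℝ) ≤ ht Q := Nat.cast_nonneg _
  have key := res_bound P Q (by omega) (by omega) hcop x 3 (by norm_num) hx
  rw [hPn, hQn] at key
  set ε : ℝ := ((e : ℝ) ^ (12 * i * n ^ 2))⁻¹ with hε
  have hεpos : 0 < ε := by positivity
  set T : ℝ := (e : ℝ) ^ (i + 1) with hT
  have hTpos : 1 ≤ T := one_le_pow₀ he'
  have hn1 : n = (n - 1) + 1 := by omega
  -- bound both terms
  have t1 : |aeval x Q| * (ht Q : ℝ) ^ (n - 1) * (ht P : ℝ) ^ n ≤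
      K1 ^ n * (V : ℝ) ^ (n * n) * T ^ (2 * n) * ε := by
    rw [hQx, abs_mul, abs_of_nonneg (show (0 : ℝ) ≤ (V : ℝ) ^ n by positivity)]
    calc (V : ℝ) ^ n * |aeval y P'| * (ht Q : ℝ) ^ (n - 1) * (ht P : ℝ) ^ n
        ≤ (V : ℝ) ^ n * ε * (K1 * V ^ n * T) ^ (n - 1) * T ^ n := by gcongr
      _ = K1 ^ (n - 1) * ((V : ℝ) ^ n * (V ^ n) ^ (n - 1)) * (T ^ (n - 1) * T ^ n) * ε := by
          rw [mul_pow, mul_pow]; ring
      _ ≤ K1 ^ n * (V : ℝ) ^ (n * n) * T ^ (2 * n) * ε := by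
          have a1 : K1 ^ (n - 1) ≤ K1 ^ n := pow_le_pow_right₀ hK1pos (by omega)
          have a2 : (V : ℝ) ^ n * (V ^ n) ^ (n - 1) = (V : ℝ) ^ (n * n) := by
            rw [← pow_succ', ← pow_mul]; congr 2; omega
          have a3 : T ^ (n - 1) * T ^ n ≤ T ^ (2 * n) := by
            rw [← pow_add]; exact pow_le_pow_right₀ hTpos (by omega)
          rw [a2]
          gcongr
  have t2 : |aeval x P| * (ht P : ℝ) ^ (n - 1) * (ht Q : ℝ) ^ n ≤
      K1 ^ n * (V : ℝ) ^ (n * n) * T ^ (2 * n) * ε := by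
    calc |aeval x P| * (ht P : ℝ) ^ (n - 1) * (ht Q : ℝ) ^ n
        ≤ ε * T ^ (n - 1) * (K1 * V ^ n * T) ^ n := by gcongr
      _ = K1 ^ n * ((V : ℝ) ^ n) ^ n * (T ^ (n - 1) * T ^ n) * ε := by
          rw [mul_pow, mul_pow]; ring
      _ ≤ K1 ^ n * (V : ℝ) ^ (n * n) * T ^ (2 * n) * ε := by
          have a3 : T ^ (n - 1) * T ^ n ≤ T ^ (2 * n) := by
            rw [← pow_add]; exact pow_le_pow_right₀ hTpos (by omega)
          rw [← pow_mul]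
          gcongr
  -- the power of e
  have hexp : (V : ℝ) ^ (n * n) * T ^ (2 * n) * ε ≤ (e : ℝ)⁻¹ := by
    rw [hVr, hT, hε, ← pow_mul, ← pow_mul, ← pow_add, ← div_eq_mul_inv,
      div_le_iff₀ (by positivity)]
    have h1 : (2 * i + 3) * (n * n) + (i + 1) * (2 * n) + 1 ≤ 12 * i * n ^ 2 := by
      obtain ⟨i', rfl⟩ : ∃ i', i = i' + 1 := ⟨i - 1, by omega⟩
      obtain ⟨n', rfl⟩ : ∃ n', n = n' + 1 := ⟨n - 1, by omega⟩
      ring_nf
      nlinarith [Nat.zero_le (i' * n'), Nat.zero_le (i' * n' ^ 2), Nat.zero_le (n' ^ 2),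
        Nat.zero_le n', Nat.zero_le i']
    have h2 : (e : ℝ) ^ ((2 * i + 3) * (n * n) + (i + 1) * (2 * n)) * e ≤
        (e : ℝ) ^ (12 * i * n ^ 2) := by
      rw [← pow_succ]
      exact pow_le_pow_right₀ he' h1
    rw [inv_mul_eq_div, le_div_iff₀ hepos]
    exact h2
  have hsum : |aeval x Q| * (ht Q : ℝ) ^ (n - 1) * (ht P : ℝ) ^ n +
      |aeval x P| * (ht P : ℝ) ^ (n - 1) * (ht Q : ℝ) ^ n ≤ 2 * K1 ^ n * (e : ℝ)⁻¹ := by
    have h5 : K1 ^ n * (V : ℝ) ^ (n * n) * T ^ (2 * n) * ε ≤ K1 ^ n * (e : ℝ)⁻¹ := by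
      calc K1 ^ n * (V : ℝ) ^ (n * n) * T ^ (2 * n) * ε =
          K1 ^ n * ((V : ℝ) ^ (n * n) * T ^ (2 * n) * ε) := by ring
        _ ≤ K1 ^ n * (e : ℝ)⁻¹ := by gcongr
    linarith
  have hfin : 1 ≤ ((n + n).factorial : ℝ) * (n + n) * 3 ^ (n + n) * (2 * K1 ^ n * (e : ℝ)⁻¹) := by
    refine key.trans ?_
    apply mul_le_mul_of_nonneg_left _ (by positivity)
    exact hsum
  rw [show ((n + n).factorial : ℝ) * (n + n) * 3 ^ (n + n) * (2 * K1 ^ n * (e : ℝ)⁻¹) =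
    (((n + n).factorial : ℝ) * (n + n) * 3 ^ (n + n) * (2 * K1 ^ n)) * (e : ℝ)⁻¹ by ring,
    ← div_eq_mul_inv, le_div_iff₀ hepos, one_mul] at hfin
  exact hfin

/-- the non-coprime case -/
theorem pair_not_cop (n : ℕ) (hn : 1 ≤ n) (V : ℤ) (hV : 0 < V) (k : ℤ) (hk : k ≠ 0)
    (P P' : ℤ[X]) (hPn : P.natDegree = n) (hPn' : P'.natDegree = n) (hP : Irreducible P)
    (h : ¬ Cop P (shiftPoly n V (-k) P')) :
    (V : ℝ) ≤ n * |(k : ℝ)| * ht P * ht P' := by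
  have hP0 : P ≠ 0 := hP.ne_zero
  have hP0' : P' ≠ 0 := by rintro rfl; simp at hPn'; omega
  obtain ⟨r, hr⟩ := prop_of_not_cop hP (by omega)
    (by rw [hPn]; exact natDegree_shiftPoly_le _ _ _ _) h
  have h1 := hr n
  have h2 := hr (n - 1)
  rw [coeff_shiftPoly_top] at h1
  rw [coeff_shiftPoly_sub_one hn] at h2
  push_cast at h1 h2
  set a := P.coeff n with ha
  set b := P.coeff (n - 1) with hb
  set a' := P'.coeff n with ha'
  set b' := P'.coeff (n - 1) with hb'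
  have ha0 : a ≠ 0 := by
    have : a = P.leadingCoeff := by rw [ha, ← hPn]; rfl
    rw [this]; exact leadingCoeff_ne_zero.mpr hP0
  have ha0' : a' ≠ 0 := by
    have : a' = P'.leadingCoeff := by rw [ha', ← hPn']; rfl
    rw [this]; exact leadingCoeff_ne_zero.mpr hP0'
  have hVq : (V : ℚ) ≠ 0 := by exact_mod_cast hV.ne'
  have hVn : (V : ℚ) ^ n = (V : ℚ) ^ (n - 1) * V := by
    rw [← pow_succ]; congr 1; omega
  -- cross multiplication
  have h3 : (V : ℚ) ^ (n - 1) * (a' * V * b) =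
      (V : ℚ) ^ (n - 1) * ((V * b' + n * -k * a') * a) := by
    calc (V : ℚ) ^ (n - 1) * (a' * V * b) = (a' * (V : ℚ) ^ n) * b := by rw [hVn]; ring
      _ = (r * a) * b := by rw [h1]
      _ = (r * b) * a := by ring
      _ = ((V : ℚ) ^ (n - 1) * (V * b' + n * -k * a')) * a := by rw [h2]
      _ = _ := by ring
  have h4 : (a' : ℚ) * V * b = (V * b' + n * -k * a') * a :=
    mul_left_cancel₀ (pow_ne_zero _ hVq) h3
  have h5 : a' * V * b = (V * b' + n * -k * a') * a := by exact_mod_cast h4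
  have h6 : V ∣ n * k * a' * a := ⟨b' * a - a' * b, by linear_combination h5⟩
  have h7 : (n : ℤ) * k * a' * a ≠ 0 := by
    have : (n : ℤ) ≠ 0 := by exact_mod_cast (by omega : n ≠ 0)
    exact mul_ne_zero (mul_ne_zero (mul_ne_zero this hk) ha0') ha0
  have h8 : V ≤ |(n : ℤ) * k * a' * a| := Int.le_of_dvd (abs_pos.mpr h7) ((dvd_abs _ _).mpr h6)
  have h9 : (V : ℝ) ≤ |((n : ℝ) * k * a' * a)| := by
    have : ((V : ℤ) : ℝ) ≤ ((|(n : ℤ) * k * a' * a| : ℤ) : ℝ) := by exact_mod_cast h8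
    push_cast at this
    exact this
  refine h9.trans ?_
  rw [abs_mul, abs_mul, abs_mul, Nat.abs_cast]
  have h10 : |(a' : ℝ)| ≤ ht P' := abs_coeff_le_ht P' n
  have h11 : |(a : ℝ)| ≤ ht P := abs_coeff_le_ht P n
  calc (n : ℝ) * |(k : ℝ)| * |(a' : ℝ)| * |(a : ℝ)| ≤ (n : ℝ) * |(k : ℝ)| * ht P' * ht P := by
        gcongr
    _ = _ := by ring

/-- The pair lemma -/
theorem pair_lemma (n : ℕ) (hn : 1 ≤ n) : ∃ K : ℝ, 0 < K ∧ ∀ (e i : ℕ), K < e → 1 ≤ e → 1 ≤ i →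
    ∀ (x y : ℝ) (k : ℤ), k ≠ 0 → |x| ≤ 3 → x = y + (k : ℝ) / ((e : ℝ) ^ (2 * i + 3)) →
      |(k : ℝ) / ((e : ℝ) ^ (2 * i + 3))| ≤ 3 →
    ∀ P P' : ℤ[X], Irreducible P → P.natDegree = n → P'.natDegree = n → e ^ i ≤ ht P →
      e ^ i ≤ ht P' → ht P ≤ e ^ (i + 1) → ht P' ≤ e ^ (i + 1) →
      |aeval x P| ≤ ((ht P : ℝ) ^ (12 * n ^ 2))⁻¹ →
      |aeval y P'| ≤ ((ht P' : ℝ) ^ (12 * n ^ 2))⁻¹ →
      (e : ℝ) ≤ n * |(k : ℝ)| := by
  obtain ⟨K, hK, hcop⟩ := pair_cop n hn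
  refine ⟨K, hK, ?_⟩
  intro e i hKe he hi x y k hk0 hx hxy hk P P' hP hPn hPn' hPl hPl' hPe hPe' hPx hPy
  have he' : (1 : ℝ) ≤ e := by exact_mod_cast he
  have hepos : (0 : ℝ) < e := by linarith
  have hmono : ∀ H : ℕ, e ^ i ≤ H → ((H : ℝ) ^ (12 * n ^ 2))⁻¹ ≤
      ((e : ℝ) ^ (12 * i * n ^ 2))⁻¹ := by
    intro H hH
    apply inv_anti₀ (by positivity)
    have h1 : (e : ℝ) ^ i ≤ H := by exact_mod_cast hH
    calc (e : ℝ) ^ (12 * i * n ^ 2) = ((e : ℝ) ^ i) ^ (12 * n ^ 2) := by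
          rw [← pow_mul]; congr 1; ring
      _ ≤ (H : ℝ) ^ (12 * n ^ 2) := pow_le_pow_left₀ (by positivity) h1 _
  have hncop : ¬ Cop P (shiftPoly n ((e : ℤ) ^ (2 * i + 3)) (-k) P') := by
    intro h
    have := hcop e i he hi x y k hx hxy hk P P' hPn hPn' hPe hPe' (hPx.trans (hmono _ hPl))
      (hPy.trans (hmono _ hPl')) h
    linarith
  have heZ : (0 : ℤ) < e := by exact_mod_cast he
  have h1 := pair_not_cop n hn ((e : ℤ) ^ (2 * i + 3)) (by positivity) k hk0 P P' hPn hPn' hP hncop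
  push_cast at h1
  have h2 : (ht P : ℝ) ≤ (e : ℝ) ^ (i + 1) := by exact_mod_cast hPe
  have h3 : (ht P' : ℝ) ≤ (e : ℝ) ^ (i + 1) := by exact_mod_cast hPe'
  have h4 : (n : ℝ) * |(k : ℝ)| * ht P * ht P' ≤
      n * |(k : ℝ)| * (e : ℝ) ^ (i + 1) * (e : ℝ) ^ (i + 1) := by gcongr
  have h5 : (e : ℝ) ^ (2 * i + 3) = e * ((e : ℝ) ^ (i + 1) * (e : ℝ) ^ (i + 1)) := by
    rw [← pow_add, ← pow_succ']; congr 1; ring
  have h6 : (0 : ℝ) < (e : ℝ) ^ (i + 1) * (e : ℝ) ^ (i + 1) := by positivity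
  have h7 : e * ((e : ℝ) ^ (i + 1) * (e : ℝ) ^ (i + 1)) ≤
      (n * |(k : ℝ)|) * ((e : ℝ) ^ (i + 1) * (e : ℝ) ^ (i + 1)) := by
    rw [← h5]
    calc (e : ℝ) ^ (2 * i + 3) ≤ _ := h1.trans h4
      _ = _ := by ring
  exact le_of_mul_le_mul_right h7 h6

theorem bad2_card (n : ℕ) (hn : 1 ≤ n) : ∃ K : ℝ, 0 < K ∧ ∀ (e i L : ℕ), K < e → 1 ≤ e → 1 ≤ i →
    2 * i + 3 ≤ L → ∀ (β a b : ℝ), 1 ≤ a → a ≤ b → b ≤ 3 → ∀ S : Finset ℤ,
    (∀ c ∈ S, a ≤ β + (c : ℝ) / (e : ℝ) ^ L ∧ β + (c : ℝ) / (e : ℝ) ^ L ≤ b ∧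
      ∃ P : ℤ[X], Irreducible P ∧ P.natDegree = n ∧ e ^ i ≤ ht P ∧ ht P ≤ e ^ (i + 1) ∧
        |aeval (β + (c : ℝ) / (e : ℝ) ^ L) P| ≤ ((ht P : ℝ) ^ (12 * n ^ 2))⁻¹) →
    (S.card : ℝ) ≤ (b - a) * (e : ℝ) ^ L * n / e + (e : ℝ) ^ (L - (2 * i + 3)) := by
  classical
  obtain ⟨K, hK, hpair⟩ := pair_lemma n hn
  refine ⟨K, hK, ?_⟩
  intro e i L hKe he hi hL β a b ha hab hb S hS
  have he' : (1 : ℝ) ≤ e := by exact_mod_cast he
  have hepos : (0 : ℝ) < e := by linarith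
  have hn' : (1 : ℝ) ≤ n := by exact_mod_cast hn
  set V : ℝ := (e : ℝ) ^ (2 * i + 3) with hV
  set q : ℕ := e ^ (L - (2 * i + 3)) with hq
  have hqpos : 0 < q := by positivity
  have hqr : (q : ℝ) = (e : ℝ) ^ (L - (2 * i + 3)) := by rw [hq]; push_cast; rfl
  have hqr0 : (0 : ℝ) < q := by exact_mod_cast hqpos
  have hVpos : 0 < V := by positivity
  have hLV : (e : ℝ) ^ L = q * V := by
    rw [hqr, hV, ← pow_add]; congr 1; omega
  have hLpos : (0 : ℝ) < (e : ℝ) ^ L := by positivity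
  set s : ℝ := (e : ℝ) / n * q with hs
  have hspos : 0 < s := by positivity
  have hclass : ∀ r : ℤ, ((S.filter (fun c => c % q = r)).card : ℝ) ≤
      ((e : ℝ) ^ L * (b - β) - (e : ℝ) ^ L * (a - β)) / s + 1 := by
    intro r
    apply card_spaced
    · nlinarith
    · exact hspos
    · intro c hc
      obtain ⟨h1, h2, _⟩ := hS c (Finset.mem_filter.mp hc).1
      constructor
      · have h3 : a - β ≤ (c : ℝ) / (e : ℝ) ^ L := by linarith
        rw [le_div_iff₀ hLpos] at h3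
        linarith
      · have h3 : (c : ℝ) / (e : ℝ) ^ L ≤ b - β := by linarith
        rw [div_le_iff₀ hLpos] at h3
        linarith
    · intro c hc c' hc' hne
      obtain ⟨hcS, hcr⟩ := Finset.mem_filter.mp hc
      obtain ⟨hcS', hcr'⟩ := Finset.mem_filter.mp hc'
      obtain ⟨h1, h2, P, hP, hPn, hPl, hPu, hPx⟩ := hS c hcS
      obtain ⟨h1', h2', P', hP', hPn', hPl', hPu', hPx'⟩ := hS c' hcS'
      have hdvd : (q : ℤ) ∣ c - c' := by
        apply Int.dvd_of_emod_eq_zero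
        rw [Int.sub_emod, hcr, hcr', sub_self, Int.zero_emod]
      obtain ⟨k, hk⟩ := hdvd
      have hk0 : k ≠ 0 := by
        rintro rfl
        apply hne
        linarith
      have hkr : (c : ℝ) - c' = q * k := by exact_mod_cast hk
      have hdiff : β + (c : ℝ) / (e : ℝ) ^ L = (β + (c' : ℝ) / (e : ℝ) ^ L) + (k : ℝ) / V := by
        have : (c : ℝ) / (e : ℝ) ^ L - (c' : ℝ) / (e : ℝ) ^ L = (k : ℝ) / V := by
          rw [← sub_div, hkr, hLV]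
          field_simp
        linarith
      have hx3 : |β + (c : ℝ) / (e : ℝ) ^ L| ≤ 3 := by
        rw [abs_of_nonneg (by linarith)]; linarith
      have hk3 : |(k : ℝ) / V| ≤ 3 := by
        have : (k : ℝ) / V = (β + (c : ℝ) / (e : ℝ) ^ L) - (β + (c' : ℝ) / (e : ℝ) ^ L) := by
          linarith
        rw [this, abs_le]
        constructor <;> linarith
      have h5 := hpair e i hKe he hi _ _ k hk0 hx3 hdiff hk3 P P' hP hPn hPn' hPl hPl' hPu hPu'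
        hPx hPx'
      rw [hkr, abs_mul, abs_of_pos hqr0, hs]
      have h6 : (e : ℝ) / n ≤ |(k : ℝ)| := by
        rw [div_le_iff₀ (by linarith)]
        linarith
      nlinarith
  have h1 := card_classes S q hqpos _ hclass
  refine h1.trans ?_
  apply le_of_eq
  rw [← hqr, hs]
  field_simp
  ring

end Pool.Agent.TNum
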