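import Mathlib
import Pool.Agent.TNum.Bad1
import Pool.Agent.TNum.Bad2

set_option autoImplicit false

namespace Pool.Agent.TNum

open Polynomial Finset

theorem exists_scale (e M H : ℕ) (h1 : e ≤ H) (h2 : H ≤ e ^ (M + 2)) :
    ∃ i ∈ Finset.Icc 1 (M + 1), e ^ i ≤ H ∧ H ≤ e ^ (i + 1) := by
  induction M with
  | zero => exact ⟨1, by simp, by simpa using h1, by simpa using h2⟩
  | succ M ih =>
    rcases Nat.lt_or_ge (e ^ (M + 2)) H with hlt | hge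
    · refine ⟨M + 2, ?_, hlt.le, h2⟩
      simp
    · obtain ⟨i, hi, h3⟩ := ih hge
      refine ⟨i, ?_, h3⟩
      simp only [Finset.mem_Icc] at hi ⊢
      omega

/-- number of candidates -/
theorem card_candidates (x y : ℝ) : y - x - 1 ≤ ((Finset.Icc ⌈x⌉ ⌊y⌋).card : ℝ) := by
  rw [Int.card_Icc]
  have h1 := Int.ceil_lt_add_one x
  have h2 := Int.lt_floor_add_one y
  have h3 : ((⌊y⌋ + 1 - ⌈x⌉ : ℤ) : ℝ) ≤ ((⌊y⌋ + 1 - ⌈x⌉).toNat : ℝ) := by
    exact_mod_cast Int.self_le_toNat _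
  push_cast at h3
  linarith

theorem exists_good (N : ℕ) (hN : 1 ≤ N) (a b : ℝ) (ha : 1 ≤ a) (hab : a < b) (hb : b ≤ 3)
    (B : ℕ → ℕ) (hB3 : ∀ n ∈ Finset.Icc 1 N, 3 ≤ B n)
    (hBM : ∀ n ∈ Finset.Icc 1 N, 16 * n * N * ((B n : ℝ) ^ (4 * n))⁻¹ ≤ b - a) :
    ∃ K : ℝ, ∀ e : ℕ, K < e → ∀ β : ℝ, ∃ c : ℤ,
      a ≤ β + (c : ℝ) / (e : ℝ) ^ (2 * N + 5) ∧
      β + (c : ℝ) / (e : ℝ) ^ (2 * N + 5) ≤ (a + b) / 2 ∧
      ∀ n ∈ Finset.Icc 1 N, ∀ P : ℤ[X], Irreducible P → P.natDegree = n → B n ≤ ht P →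
        ht P ≤ e ^ (N + 2) →
        ((ht P : ℝ) ^ (12 * n ^ 2))⁻¹ < |aeval (β + (c : ℝ) / (e : ℝ) ^ (2 * N + 5)) P| := by
  classical
  choose! K2 hK2pos hK2 using fun n (hn : 1 ≤ n) => bad2_card n hn
  set ℓ : ℝ := (b - a) / 2 with hℓ
  have hℓ0 : 0 < ℓ := by rw [hℓ]; linarith
  have hN' : (1 : ℝ) ≤ N := by exact_mod_cast hN
  -- constants
  set K : ℝ := 1 + ∑ n ∈ Finset.Icc 1 N, K2 n + 8 * (N ^ 2 * 2 * 3 ^ (N + 1)) / ℓ +
    16 * (N * (N + 1) * N) + 16 * (N * (N + 1)) / ℓ + 8 / ℓ with hK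
  refine ⟨K, ?_⟩
  intro e he β
  have hsumK : 0 ≤ ∑ n ∈ Finset.Icc 1 N, K2 n := by
    apply Finset.sum_nonneg
    intro n hn
    exact (hK2pos n (Finset.mem_Icc.mp hn).1).le
  have p1 : 0 ≤ 8 * ((N : ℝ) ^ 2 * 2 * 3 ^ (N + 1)) / ℓ := by positivity
  have p2 : (0 : ℝ) ≤ 16 * (N * (N + 1) * N) := by positivity
  have p3 : (0 : ℝ) ≤ 16 * (N * (N + 1)) / ℓ := by positivity
  have p4 : 0 ≤ 8 / ℓ := by positivity
  have he1r : (1 : ℝ) < e := by linarith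
  have he1 : 1 ≤ e := by exact_mod_cast he1r.le
  have heK2 : ∀ n ∈ Finset.Icc 1 N, K2 n < e := by
    intro n hn
    have : K2 n ≤ ∑ n ∈ Finset.Icc 1 N, K2 n :=
      Finset.single_le_sum (f := K2) (fun i hi => (hK2pos i (Finset.mem_Icc.mp hi).1).le) hn
    linarith
  have hc1 : 8 * ((N : ℝ) ^ 2 * 2 * 3 ^ (N + 1)) ≤ ℓ * e := by
    have : 8 * ((N : ℝ) ^ 2 * 2 * 3 ^ (N + 1)) / ℓ ≤ e := by linarith
    rw [div_le_iff₀ hℓ0] at this; linarith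
  have hc2 : (16 : ℝ) * (N * (N + 1) * N) ≤ e := by linarith
  have hc3 : (16 : ℝ) * (N * (N + 1)) ≤ ℓ * e := by
    have : 16 * ((N : ℝ) * (N + 1)) / ℓ ≤ e := by linarith
    rw [div_le_iff₀ hℓ0] at this; linarith
  have hc4 : 8 < ℓ * e := by
    have : 8 / ℓ < e := by linarith
    rw [div_lt_iff₀ hℓ0] at this; linarith
  set L : ℕ := 2 * N + 5 with hL
  set d : ℝ := (e : ℝ) ^ L with hd
  have hdpos : 0 < d := by positivity
  set 𝒞 : Finset ℤ := Finset.Icc ⌈d * (a - β)⌉ ⌊d * ((a + b) / 2 - β)⌋ with h𝒞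
  have hmem𝒞 : ∀ c ∈ 𝒞, a ≤ β + (c : ℝ) / d ∧ β + (c : ℝ) / d ≤ (a + b) / 2 := by
    intro c hc
    rw [h𝒞, Finset.mem_Icc, Int.ceil_le, Int.le_floor] at hc
    obtain ⟨h1, h2⟩ := hc
    constructor
    · have : a - β ≤ (c : ℝ) / d := by rw [le_div_iff₀ hdpos]; linarith
      linarith
    · have : (c : ℝ) / d ≤ (a + b) / 2 - β := by rw [div_le_iff₀ hdpos]; linarith
      linarith
  have hcard𝒞 : ℓ * d - 1 ≤ (𝒞.card : ℝ) := by
    have := card_candidates (d * (a - β)) (d * ((a + b) / 2 - β))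
    refine le_trans (le_of_eq ?_) this
    rw [hℓ]; ring
  by_contra hcon
  push Not at hcon
  -- every candidate is bad
  set Bad1 : ℕ → Finset ℤ := fun n => 𝒞.filter (fun c : ℤ => ∃ P : ℤ[X], P.natDegree = n ∧
    B n ≤ ht P ∧ ht P ≤ e ∧ |aeval (β + (c : ℝ) / d) P| ≤ ((ht P : ℝ) ^ (12 * n ^ 2))⁻¹) with hBad1
  set Bad2 : ℕ → ℕ → Finset ℤ := fun n i => 𝒞.filter (fun c : ℤ => ∃ P : ℤ[X], Irreducible P ∧
    P.natDegree = n ∧ e ^ i ≤ ht P ∧ ht P ≤ e ^ (i + 1) ∧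
      |aeval (β + (c : ℝ) / d) P| ≤ ((ht P : ℝ) ^ (12 * n ^ 2))⁻¹) with hBad2
  have hsub : 𝒞 ⊆ (Finset.Icc 1 N).biUnion fun n =>
      (Bad1 n ∪ (Finset.Icc 1 (N + 1)).biUnion fun i => Bad2 n i) := by
    intro c hc
    obtain ⟨h1, h2⟩ := hmem𝒞 c hc
    obtain ⟨n, hn, P, hP, hPn, hPB, hPe, hPx⟩ := hcon c h1 h2
    rw [Finset.mem_biUnion]
    refine ⟨n, hn, ?_⟩
    rw [Finset.mem_union]
    rcases Nat.le_or_ge (ht P) e with hle | hge
    · left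
      rw [hBad1, Finset.mem_filter]
      exact ⟨hc, P, hPn, hPB, hle, hPx⟩
    · right
      obtain ⟨i, hi, h3, h4⟩ := exists_scale e N (ht P) hge hPe
      rw [Finset.mem_biUnion]
      refine ⟨i, hi, ?_⟩
      rw [hBad2, Finset.mem_filter]
      exact ⟨hc, P, hP, hPn, h3, h4, hPx⟩
  have hcard : (𝒞.card : ℝ) ≤ ∑ n ∈ Finset.Icc 1 N, (((Bad1 n).card : ℝ) +
      ∑ i ∈ Finset.Icc 1 (N + 1), ((Bad2 n i).card : ℝ)) := by
    have h1 := (Finset.card_le_card hsub).trans Finset.card_biUnion_le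
    have h2 : ∑ n ∈ Finset.Icc 1 N,
        (Bad1 n ∪ (Finset.Icc 1 (N + 1)).biUnion fun i => Bad2 n i).card ≤
        ∑ n ∈ Finset.Icc 1 N, ((Bad1 n).card + ∑ i ∈ Finset.Icc 1 (N + 1), (Bad2 n i).card) := by
      apply Finset.sum_le_sum
      intro n _
      refine (Finset.card_union_le _ _).trans ?_
      exact Nat.add_le_add_left Finset.card_biUnion_le _
    have h3 := h1.trans h2
    have h4 : (𝒞.card : ℝ) ≤ ((∑ n ∈ Finset.Icc 1 N,
        ((Bad1 n).card + ∑ i ∈ Finset.Icc 1 (N + 1), (Bad2 n i).card) : ℕ) : ℝ) :=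
      Nat.cast_le.mpr h3
    push_cast at h4
    exact h4
  -- bounds for Bad1
  have hb1 : ∀ n ∈ Finset.Icc 1 N, ((Bad1 n).card : ℝ) ≤ ℓ * d / (4 * N) + ℓ * d / (8 * N) := by
    intro n hn
    obtain ⟨hn1, hnN⟩ := Finset.mem_Icc.mp hn
    have hn1' : (1 : ℝ) ≤ n := by exact_mod_cast hn1
    have hnN' : (n : ℝ) ≤ N := by exact_mod_cast hnN
    have := bad1_card n hn1 β (e ^ L) (by positivity) (B n) e (hB3 n hn) (Bad1 n) (by
      intro c hc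
      rw [hBad1, Finset.mem_filter] at hc
      obtain ⟨_, P, h1, h2, h3, h4⟩ := hc
      refine ⟨P, h1, h2, h3, ?_⟩
      push_cast
      exact h4)
    refine this.trans ?_
    apply add_le_add
    · have h1 := hBM n hn
      have h2 : b - a = 2 * ℓ := by rw [hℓ]; ring
      rw [h2] at h1
      push_cast
      rw [← hd, le_div_iff₀ (by positivity)]
      have h3 : 8 * n * N * ((B n : ℝ) ^ (4 * n))⁻¹ ≤ ℓ := by linarith
      calc 2 * (n : ℝ) * d * ((B n : ℝ) ^ (4 * n))⁻¹ * (4 * N) =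
          (8 * n * N * ((B n : ℝ) ^ (4 * n))⁻¹) * d := by ring
        _ ≤ ℓ * d := mul_le_mul_of_nonneg_right h3 hdpos.le
    · rw [le_div_iff₀ (by positivity)]
      have h5 : (2 * (e : ℝ) + 1) ^ (n + 1) ≤ 3 ^ (N + 1) * (e : ℝ) ^ (N + 1) := by
        rw [← mul_pow]
        calc (2 * (e : ℝ) + 1) ^ (n + 1) ≤ (3 * e) ^ (n + 1) :=
              pow_le_pow_left₀ (by positivity) (by linarith) _
          _ ≤ (3 * e) ^ (N + 1) := pow_le_pow_right₀ (by linarith) (by omega)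
      have h6 : d = (e : ℝ) ^ (N + 1) * e * (e * (e : ℝ) ^ (N + 2)) := by
        rw [hd, hL, ← pow_succ, ← pow_succ', ← pow_add]; congr 1; ring
      calc (n : ℝ) * (e + 1) * (2 * e + 1) ^ (n + 1) * (8 * N)
          ≤ N * (2 * e) * (3 ^ (N + 1) * (e : ℝ) ^ (N + 1)) * (8 * N) := by
            gcongr
            linarith
        _ = (8 * (N ^ 2 * 2 * 3 ^ (N + 1))) * ((e : ℝ) ^ (N + 1) * e) := by ring
        _ ≤ (ℓ * e) * ((e : ℝ) ^ (N + 1) * e) := by gcongr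
        _ ≤ (ℓ * e) * ((e : ℝ) ^ (N + 1) * e) * (e : ℝ) ^ (N + 2) := by
            apply le_mul_of_one_le_right (by positivity)
            exact one_le_pow₀ he1r.le
        _ = ℓ * d := by rw [h6]; ring
  have hb2 : ∀ n ∈ Finset.Icc 1 N, ∀ i ∈ Finset.Icc 1 (N + 1), ((Bad2 n i).card : ℝ) ≤
      ℓ * d / (8 * (N * (N + 1))) := by
    intro n hn i hi
    obtain ⟨hn1, hnN⟩ := Finset.mem_Icc.mp hn
    obtain ⟨hi1, hiN⟩ := Finset.mem_Icc.mp hi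
    have hnN' : (n : ℝ) ≤ N := by exact_mod_cast hnN
    have := hK2 n hn1 e i L (heK2 n hn) he1 hi1 (by omega) β a ((a + b) / 2) ha (by linarith)
      (by linarith) (Bad2 n i) (by
        intro c hc
        rw [hBad2, Finset.mem_filter] at hc
        obtain ⟨hc, P, h1⟩ := hc
        obtain ⟨h2, h3⟩ := hmem𝒞 c hc
        exact ⟨h2, h3, P, h1⟩)
    refine this.trans ?_
    have h2 : (a + b) / 2 - a = ℓ := by rw [hℓ]; ring
    rw [h2, ← hd]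
    have h3 : ℓ * d / (8 * (N * (N + 1))) = ℓ * d / (16 * (N * (N + 1))) +
        ℓ * d / (16 * (N * (N + 1))) := by
      field_simp; ring
    rw [h3]
    apply add_le_add
    · rw [div_le_div_iff₀ (by linarith) (by positivity)]
      calc ℓ * d * n * (16 * (N * (N + 1))) ≤ ℓ * d * N * (16 * (N * (N + 1))) := by gcongr
        _ = ℓ * d * (16 * (N * (N + 1) * N)) := by ring
        _ ≤ ℓ * d * e := by gcongr
    · rw [le_div_iff₀ (by positivity)]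
      have h7 : d = (e : ℝ) ^ (L - (2 * i + 3)) * (e : ℝ) ^ (2 * i + 3) := by
        rw [hd, ← pow_add]; congr 1; omega
      calc (e : ℝ) ^ (L - (2 * i + 3)) * (16 * (N * (N + 1)))
          ≤ (e : ℝ) ^ (L - (2 * i + 3)) * (ℓ * e) := by gcongr
        _ ≤ (e : ℝ) ^ (L - (2 * i + 3)) * (ℓ * (e : ℝ) ^ (2 * i + 3)) := by
            gcongr
            exact le_self_pow₀ he1r.le (by omega)
        _ = ℓ * d := by rw [h7]; ring
  have hd1 : 8 < ℓ * d := by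
    have : (e : ℝ) ≤ d := by rw [hd]; exact le_self_pow₀ he1r.le (by omega)
    calc 8 < ℓ * e := hc4
      _ ≤ ℓ * d := by gcongr
  have hsum : ∑ n ∈ Finset.Icc 1 N, (((Bad1 n).card : ℝ) +
      ∑ i ∈ Finset.Icc 1 (N + 1), ((Bad2 n i).card : ℝ)) ≤ ℓ * d / 2 := by
    have h1 : ∀ n ∈ Finset.Icc 1 N, (((Bad1 n).card : ℝ) +
        ∑ i ∈ Finset.Icc 1 (N + 1), ((Bad2 n i).card : ℝ)) ≤ ℓ * d / (2 * N) := by
      intro n hn
      have h2 : ∑ i ∈ Finset.Icc 1 (N + 1), ((Bad2 n i).card : ℝ) ≤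
          ∑ _i ∈ Finset.Icc 1 (N + 1), ℓ * d / (8 * (N * (N + 1))) :=
        Finset.sum_le_sum (hb2 n hn)
      rw [Finset.sum_const, Nat.card_Icc, nsmul_eq_mul] at h2
      have h3 : ((N + 1 + 1 - 1 : ℕ) : ℝ) * (ℓ * d / (8 * (N * (N + 1)))) = ℓ * d / (8 * N) := by
        rw [Nat.add_sub_cancel]; push_cast; field_simp
      rw [h3] at h2
      have h4 := hb1 n hn
      have h5 : ℓ * d / (4 * N) + ℓ * d / (8 * N) + ℓ * d / (8 * N) = ℓ * d / (2 * N) := by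
        field_simp; ring
      linarith
    refine (Finset.sum_le_sum h1).trans ?_
    rw [Finset.sum_const, Nat.card_Icc, nsmul_eq_mul, Nat.add_sub_cancel]
    apply le_of_eq
    field_simp
  linarith

end Pool.Agent.TNum
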