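import Mathlib
import Pool.Agent.TNum.Basic
import Pool.Agent.TNum.Det
import Pool.Agent.TNum.Eval

set_option autoImplicit false

namespace Pool.Agent.TNum

open Polynomial Finset

/-- node values `i / m + h` -/
noncomputable def nv (m : ℕ) (p : ℕ × ℕ) : ℚ := (p.1 : ℚ) / m + p.2

/-- node set attached to the index `l` -/
def nodes (n k l : ℕ) : Finset (ℕ × ℕ) := insert (l, k + 1) (range (n + 1) ×ˢ range (k + 1))

theorem mem_nodes {n k l : ℕ} {p : ℕ × ℕ} :
    p ∈ nodes n k l ↔ p = (l, k + 1) ∨ (p.1 ≤ n ∧ p.2 ≤ k) := by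
  simp [nodes]

theorem card_nodes (n k l : ℕ) : (nodes n k l).card = (n + 1) * (k + 1) + 1 := by
  rw [nodes, card_insert_of_notMem (by simp), card_product, card_range, card_range]

theorem nv_inj {m : ℕ} {p q : ℕ × ℕ} (hp : p.1 < m) (hq : q.1 < m) (h : nv m p = nv m q) :
    p = q := by
  have hm : (0 : ℚ) < m := by exact_mod_cast (by omega : 0 < m)
  unfold nv at h
  have h1 : (p.1 : ℚ) + m * p.2 = q.1 + m * q.2 := by
    field_simp at h
    linarith
  have h2 : p.1 + m * p.2 = q.1 + m * q.2 := by exact_mod_cast h1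
  have h3 : p.1 = q.1 := by
    have := congrArg (· % m) h2
    simpa [Nat.add_mul_mod_self_left, Nat.mod_eq_of_lt hp, Nat.mod_eq_of_lt hq] using this
  have h4 : p.2 = q.2 := by
    rw [h3] at h2
    have h5 : m * p.2 = m * q.2 := by omega
    exact Nat.eq_of_mul_eq_mul_left (by omega) h5
  exact Prod.ext h3 h4

theorem injOn_nodes {m n k l : ℕ} (hn : n < m) (hl : l ≤ n) :
    Set.InjOn (nv m) (nodes n k l : Set (ℕ × ℕ)) := by
  have key : ∀ p ∈ nodes n k l, p.1 < m := by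
    intro p hp
    rcases mem_nodes.mp hp with rfl | h
    · exact lt_of_le_of_lt hl hn
    · exact lt_of_le_of_lt h.1 hn
  intro p hp q hq h
  exact nv_inj (key p hp) (key q hq) h

/-- Lagrange weights -/
noncomputable def wt (m n k l : ℕ) (p : ℕ × ℕ) : ℚ :=
  (∏ j ∈ (nodes n k l).erase p, (nv m p - nv m j))⁻¹

theorem wt_ne_zero {m n k l : ℕ} (hn : n < m) (hl : l ≤ n) {p : ℕ × ℕ} (hp : p ∈ nodes n k l) :
    wt m n k l p ≠ 0 := by
  unfold wt
  apply inv_ne_zero
  rw [Finset.prod_ne_zero_iff]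
  intro j hj
  rw [sub_ne_zero]
  intro h
  exact (Finset.ne_of_mem_erase hj) (injOn_nodes hn hl hp (Finset.mem_of_mem_erase hj) h).symm

theorem sum_wt_pow {m n k l : ℕ} (hn : n < m) (hl : l ≤ n) {j : ℕ}
    (hj : j < (n + 1) * (k + 1)) :
    ∑ p ∈ nodes n k l, wt m n k l p * nv m p ^ j = 0 := by
  have hdeg : ((X : ℚ[X]) ^ j).degree < (nodes n k l).card := by
    rw [degree_X_pow, card_nodes]
    exact_mod_cast (by omega : j < (n + 1) * (k + 1) + 1)
  have h := Lagrange.coeff_eq_sum (injOn_nodes (k := k) hn hl) hdeg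
  rw [card_nodes, Nat.add_sub_cancel, coeff_X_pow, if_neg (by omega)] at h
  rw [h]
  apply Finset.sum_congr rfl
  intro p _
  rw [wt, eval_pow, eval_X]
  ring

/-- The remainder function is small. -/
theorem remainder_bound (m n k : ℕ) (hn : n < m) : ∃ C : ℝ, 0 < C ∧ ∀ t : ℝ, 0 ≤ t →
    t * (k + 2) ≤ 1 → ∀ l ≤ n,
    |∑ p ∈ nodes n k l, (wt m n k l p : ℝ) * Real.exp ((nv m p : ℝ) * t)| ≤
      C * t ^ ((n + 1) * (k + 1)) := by
  classical
  set M := (n + 1) * (k + 1) with hM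
  have hMpos : 0 < M := by positivity
  set K : ℝ := (M.succ / (M.factorial * M) : ℝ) with hK
  have hK0 : 0 ≤ K := by positivity
  refine ⟨1 + ∑ l ∈ range (n + 1), ∑ p ∈ nodes n k l, |(wt m n k l p : ℝ)| * ((k + 2) ^ M * K),
    by positivity, ?_⟩
  intro t ht0 ht1 l hl
  have hnv : ∀ p ∈ nodes n k l, (0 : ℝ) ≤ nv m p ∧ (nv m p : ℝ) ≤ k + 2 := by
    intro p hp
    have hm : (0 : ℝ) < m := by exact_mod_cast (by omega : 0 < m)
    unfold nv
    push_cast
    have hp1 : p.1 < m := by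
      rcases mem_nodes.mp hp with rfl | h
      · exact lt_of_le_of_lt hl hn
      · exact lt_of_le_of_lt h.1 hn
    have hp2 : p.2 ≤ k + 1 := by
      rcases mem_nodes.mp hp with rfl | h
      · simp
      · omega
    constructor
    · positivity
    · have h1 : (p.1 : ℝ) / m ≤ 1 := by
        rw [div_le_one hm]; exact_mod_cast hp1.le
      have h2 : (p.2 : ℝ) ≤ k + 1 := by exact_mod_cast hp2
      linarith
  -- subtract the Taylor polynomial, which contributes zero
  have hzero : ∑ p ∈ nodes n k l, (wt m n k l p : ℝ) *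
      (∑ j ∈ range M, ((nv m p : ℝ) * t) ^ j / j.factorial) = 0 := by
    simp_rw [Finset.mul_sum]
    rw [Finset.sum_comm]
    apply Finset.sum_eq_zero
    intro j hj
    have h1 : ∑ p ∈ nodes n k l, (wt m n k l p : ℝ) * (nv m p : ℝ) ^ j = 0 := by
      have := sum_wt_pow (k := k) hn hl (Finset.mem_range.mp hj)
      have h2 : ((∑ p ∈ nodes n k l, wt m n k l p * nv m p ^ j : ℚ) : ℝ) = 0 := by
        rw [this]; simp
      push_cast at h2
      exact h2
    calc ∑ p ∈ nodes n k l, (wt m n k l p : ℝ) * (((nv m p : ℝ) * t) ^ j / j.factorial)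
        = (∑ p ∈ nodes n k l, (wt m n k l p : ℝ) * (nv m p : ℝ) ^ j) * (t ^ j / j.factorial) := by
          rw [Finset.sum_mul]
          apply Finset.sum_congr rfl
          intro p _
          rw [mul_pow]; ring
      _ = 0 := by rw [h1, zero_mul]
  have heq : ∑ p ∈ nodes n k l, (wt m n k l p : ℝ) * Real.exp ((nv m p : ℝ) * t) =
      ∑ p ∈ nodes n k l, (wt m n k l p : ℝ) * (Real.exp ((nv m p : ℝ) * t) -
        ∑ j ∈ range M, ((nv m p : ℝ) * t) ^ j / j.factorial) := by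
    simp_rw [mul_sub]
    rw [Finset.sum_sub_distrib, hzero, sub_zero]
  rw [heq]
  refine (Finset.abs_sum_le_sum_abs _ _).trans ?_
  have hterm : ∀ p ∈ nodes n k l, |(wt m n k l p : ℝ) * (Real.exp ((nv m p : ℝ) * t) -
        ∑ j ∈ range M, ((nv m p : ℝ) * t) ^ j / j.factorial)| ≤
        (|(wt m n k l p : ℝ)| * ((k + 2) ^ M * K)) * t ^ M := by
    intro p hp
    obtain ⟨h0, h2⟩ := hnv p hp
    have hy0 : 0 ≤ (nv m p : ℝ) * t := mul_nonneg h0 ht0
    have hy1 : (nv m p : ℝ) * t ≤ (k + 2) * t := mul_le_mul_of_nonneg_right h2 ht0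
    have habs : |(nv m p : ℝ) * t| ≤ 1 := by
      rw [abs_of_nonneg hy0]; linarith
    have hb := Real.exp_bound habs hMpos
    rw [abs_mul]
    have : |(nv m p : ℝ) * t| ^ M ≤ ((k + 2) * t) ^ M := by
      rw [abs_of_nonneg hy0]
      exact pow_le_pow_left₀ hy0 hy1 _
    calc |(wt m n k l p : ℝ)| * |Real.exp ((nv m p : ℝ) * t) -
          ∑ j ∈ range M, ((nv m p : ℝ) * t) ^ j / j.factorial|
        ≤ |(wt m n k l p : ℝ)| * (((k + 2) * t) ^ M * K) := by
          apply mul_le_mul_of_nonneg_left _ (abs_nonneg _)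
          refine hb.trans ?_
          apply mul_le_mul_of_nonneg_right this hK0
      _ = _ := by rw [mul_pow]; ring
  refine (Finset.sum_le_sum hterm).trans ?_
  rw [← Finset.sum_mul]
  apply mul_le_mul_of_nonneg_right _ (by positivity)
  have hsingle : ∑ p ∈ nodes n k l, |(wt m n k l p : ℝ)| * ((k + 2) ^ M * K) ≤
      ∑ l ∈ range (n + 1), ∑ p ∈ nodes n k l, |(wt m n k l p : ℝ)| * ((k + 2) ^ M * K) := by
    apply Finset.single_le_sum (f := fun l => ∑ p ∈ nodes n k l,
      |(wt m n k l p : ℝ)| * ((k + 2) ^ M * K))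
    · intro i _; positivity
    · simpa [Nat.lt_succ_iff] using hl
  linarith

/-- A common denominator for all the weights. -/
theorem exists_int_weights (m n k : ℕ) : ∃ q : ℕ, 0 < q ∧ ∃ W : ℕ → ℕ × ℕ → ℤ,
    ∀ l ≤ n, ∀ p ∈ nodes n k l, (W l p : ℚ) = q * wt m n k l p := by
  classical
  set q : ℕ := ∏ l ∈ range (n + 1), ∏ p ∈ nodes n k l, (wt m n k l p).den with hq
  have hqpos : 0 < q := Finset.prod_pos fun l _ => Finset.prod_pos fun p _ => (wt m n k l p).den_pos
  refine ⟨q, hqpos, fun l p => ((q : ℚ) * wt m n k l p).num, ?_⟩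
  intro l hl p hp
  have hdvd : (wt m n k l p).den ∣ q := by
    have h1 : (wt m n k l p).den ∣ ∏ p ∈ nodes n k l, (wt m n k l p).den :=
      Finset.dvd_prod_of_mem (fun p => (wt m n k l p).den) hp
    exact h1.trans (Finset.dvd_prod_of_mem (fun l => ∏ p ∈ nodes n k l, (wt m n k l p).den)
      (by simpa [Nat.lt_succ_iff] using hl))
  obtain ⟨r, hr⟩ := hdvd
  have h2 : (q : ℚ) * wt m n k l p = (r * (wt m n k l p).num : ℤ) := by
    have h3 : (wt m n k l p) * (wt m n k l p).den = (wt m n k l p).num := Rat.mul_den_eq_num _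
    rw [hr]
    push_cast
    rw [← h3]
    ring
  change ((((q : ℚ) * wt m n k l p).num : ℤ) : ℚ) = _
  rw [h2, Rat.num_intCast]

/-- base point -/
noncomputable def gam (m D : ℕ) : ℝ := Real.exp (Real.log (1 + 1 / (D : ℝ)) / m)

theorem gam_pow {m D : ℕ} (hm : 0 < m) (i : ℕ) :
    gam m D ^ i = Real.exp ((i : ℝ) / m * Real.log (1 + 1 / (D : ℝ))) := by
  have hm' : (m : ℝ) ≠ 0 := by exact_mod_cast hm.ne'
  rw [gam, ← Real.exp_nat_mul]
  congr 1
  field_simp

theorem gam_pow_self {m D : ℕ} (hm : 0 < m) : gam m D ^ m = 1 + 1 / (D : ℝ) := by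
  have hm' : (m : ℝ) ≠ 0 := by exact_mod_cast hm.ne'
  rw [gam_pow hm, div_self hm', one_mul, Real.exp_log (by positivity)]

theorem one_le_gam (m D : ℕ) : 1 ≤ gam m D := by
  rw [gam]
  apply Real.one_le_exp
  apply div_nonneg _ (Nat.cast_nonneg _)
  apply Real.log_nonneg
  have : (0 : ℝ) ≤ 1 / D := by positivity
  linarith

theorem gam_le_two {m D : ℕ} (hm : 0 < m) (hD : 1 ≤ D) : gam m D ≤ 2 := by
  have h1 : gam m D ≤ gam m D ^ m := le_self_pow₀ (one_le_gam m D) hm.ne'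
  rw [gam_pow_self hm] at h1
  have : (1 : ℝ) / D ≤ 1 := by
    rw [div_le_one (by exact_mod_cast hD)]
    exact_mod_cast hD
  linarith

/-- polynomial matrix of the approximants -/
noncomputable def pm (n k : ℕ) (W : ℕ → ℕ × ℕ → ℤ) : Matrix (Fin (n + 1)) (Fin (n + 1)) ℤ[X] :=
  Matrix.of fun i l => ∑ h ∈ range (k + 2),
    C (if ((i : ℕ), h) ∈ nodes n k l then W l (i, h) else 0) * (X + 1) ^ h * X ^ (k + 1 - h)

theorem pm_eval_zero (n k : ℕ) (W : ℕ → ℕ × ℕ → ℤ) (i l : Fin (n + 1)) :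
    ((pm n k W) i l).eval 0 = if i = l then W l (i, k + 1) else 0 := by
  simp only [pm, Matrix.of_apply, eval_finsetSum, eval_mul, eval_C, eval_pow, eval_add, eval_X,
    eval_one]
  rw [Finset.sum_eq_single (k + 1)]
  · simp only [mem_nodes, Prod.mk.injEq, and_true]
    by_cases h : i = l
    · subst h; simp
    · have h1 : ¬ ((i : ℕ) = (l : ℕ)) := fun h' => h (Fin.ext h')
      simp [h, h1]
  · intro h hh hne
    have : h < k + 2 := by simpa using hh
    rw [zero_pow (by omega), mul_zero]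
  · simp

theorem pm_det_ne_zero {m n k : ℕ} (hn : n < m) {q : ℕ} (hq : 0 < q) {W : ℕ → ℕ × ℕ → ℤ}
    (hW : ∀ l ≤ n, ∀ p ∈ nodes n k l, (W l p : ℚ) = q * wt m n k l p) :
    (pm n k W).det ≠ 0 := by
  intro h0
  have h1 : ((pm n k W).map (evalRingHom (0 : ℤ))).det = 0 := by
    have := RingHom.map_det (evalRingHom (0 : ℤ)) (pm n k W)
    rw [h0, map_zero, RingHom.mapMatrix_apply] at this
    exact this.symm
  have h2 : (pm n k W).map (evalRingHom (0 : ℤ)) =
      Matrix.diagonal fun l : Fin (n + 1) => W l (l, k + 1) := by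
    ext i l
    rw [Matrix.map_apply, coe_evalRingHom, pm_eval_zero, Matrix.diagonal_apply]
    split_ifs with h
    · subst h; rfl
    · rfl
  rw [h2, Matrix.det_diagonal, Finset.prod_eq_zero_iff] at h1
  obtain ⟨l, _, hl⟩ := h1
  have hl' : (l : ℕ) ≤ n := by omega
  have hmem : ((l : ℕ), k + 1) ∈ nodes n k l := by simp [mem_nodes]
  have h3 := hW l hl' _ hmem
  rw [hl] at h3
  have h4 := wt_ne_zero hn hl' hmem
  have h5 : (q : ℚ) ≠ 0 := by exact_mod_cast hq.ne'
  simp [h4, h5] at h3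

theorem eventually_eval_ne_zero {F : ℤ[X]} (hF : F ≠ 0) :
    ∃ D₀ : ℕ, ∀ D : ℕ, D₀ ≤ D → F.eval (D : ℤ) ≠ 0 := by
  refine ⟨(F.roots.toFinset.sup Int.natAbs) + 1, ?_⟩
  intro D hD h
  have h1 : (D : ℤ) ∈ F.roots.toFinset := by
    rw [Multiset.mem_toFinset, mem_roots hF]; exact h
  have h2 := Finset.le_sup (f := Int.natAbs) h1
  simp at h2
  omega

/-- entries of the evaluated integer matrix -/
noncomputable def imf (n k : ℕ) (W : ℕ → ℕ × ℕ → ℤ) (D i l : ℕ) : ℤ :=
  ∑ h ∈ range (k + 2),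
    (if (i, h) ∈ nodes n k l then W l (i, h) else 0) * ((D : ℤ) + 1) ^ h * (D : ℤ) ^ (k + 1 - h)

/-- the evaluated integer matrix -/
noncomputable def im (n k : ℕ) (W : ℕ → ℕ × ℕ → ℤ) (D : ℕ) :
    Matrix (Fin (n + 1)) (Fin (n + 1)) ℤ :=
  Matrix.of fun i l => imf n k W D i l

theorem im_det (n k : ℕ) (W : ℕ → ℕ × ℕ → ℤ) (D : ℕ) :
    (im n k W D).det = (pm n k W).det.eval (D : ℤ) := by
  have h := RingHom.map_det (evalRingHom (D : ℤ)) (pm n k W)
  rw [coe_evalRingHom] at h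
  rw [h]
  congr 1
  ext i l
  simp only [pm, im, imf, RingHom.mapMatrix_apply, Matrix.map_apply, Matrix.of_apply,
    coe_evalRingHom, eval_finsetSum, eval_mul, eval_C, eval_pow, eval_add, eval_X, eval_one]

/-- The linear forms at the point `gam m D` -/
theorem im_form {m n k : ℕ} (hn : n < m) {q : ℕ} {W : ℕ → ℕ × ℕ → ℤ}
    (hW : ∀ l ≤ n, ∀ p ∈ nodes n k l, (W l p : ℚ) = q * wt m n k l p) {D : ℕ} (hD : 1 ≤ D)
    (l : Fin (n + 1)) :
    ∑ i : Fin (n + 1), gam m D ^ (i : ℕ) * ((im n k W D i l : ℤ) : ℝ) =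
      (D : ℝ) ^ (k + 1) * q * ∑ p ∈ nodes n k l, (wt m n k l p : ℝ) *
        Real.exp ((nv m p : ℝ) * Real.log (1 + 1 / (D : ℝ))) := by
  have hD' : (D : ℝ) ≠ 0 := by exact_mod_cast (by omega : D ≠ 0)
  have hm : 0 < m := by omega
  have hm' : (m : ℝ) ≠ 0 := by exact_mod_cast hm.ne'
  have hl : (l : ℕ) ≤ n := by omega
  set L := Real.log (1 + 1 / (D : ℝ)) with hL
  -- rewrite the left side as a sum over `range (n+1) ×ˢ range (k+2)`
  have hsub : nodes n k l ⊆ range (n + 1) ×ˢ range (k + 2) := by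
    intro p hp
    rw [mem_product, mem_range, mem_range]
    rcases mem_nodes.mp hp with rfl | h
    · exact ⟨by simp only; omega, by simp only; omega⟩
    · omega
  have hterm : ∀ p ∈ nodes n k l, (D : ℝ) ^ (k + 1) * q * ((wt m n k l p : ℝ) *
        Real.exp ((nv m p : ℝ) * L)) =
      gam m D ^ p.1 * ((W l p : ℝ) * ((D : ℝ) + 1) ^ p.2 * (D : ℝ) ^ (k + 1 - p.2)) := by
    intro p hp
    have h1 : (W l p : ℝ) = q * wt m n k l p := by
      have := hW l hl p hp
      exact_mod_cast congrArg (Rat.cast : ℚ → ℝ) this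
    have h2 : Real.exp ((nv m p : ℝ) * L) = gam m D ^ p.1 * (1 + 1 / (D : ℝ)) ^ p.2 := by
      rw [gam_pow hm]
      have h3 : (1 + 1 / (D : ℝ)) ^ p.2 = Real.exp ((p.2 : ℝ) * L) := by
        rw [Real.exp_nat_mul, Real.exp_log (by positivity)]
      rw [h3, ← Real.exp_add]
      congr 1
      unfold nv
      push_cast
      ring
    have hp2 : p.2 ≤ k + 1 := by
      rcases mem_nodes.mp hp with rfl | h
      · simp
      · omega
    have h4 : (D : ℝ) ^ (k + 1) * (1 + 1 / (D : ℝ)) ^ p.2 =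
        ((D : ℝ) + 1) ^ p.2 * (D : ℝ) ^ (k + 1 - p.2) := by
      have h5 : (1 + 1 / (D : ℝ)) = ((D : ℝ) + 1) / D := by field_simp
      rw [h5, div_pow]
      have h6 : (D : ℝ) ^ (k + 1) = (D : ℝ) ^ (k + 1 - p.2) * (D : ℝ) ^ p.2 := by
        rw [← pow_add]; congr 1; omega
      rw [h6]
      field_simp
    rw [h1, h2, mul_assoc ((q : ℝ) * _), ← h4]
    ring
  rw [Finset.mul_sum, Finset.sum_congr rfl hterm]
  have e1 : ∑ p ∈ nodes n k l, gam m D ^ p.1 *
      ((W l p : ℝ) * ((D : ℝ) + 1) ^ p.2 * (D : ℝ) ^ (k + 1 - p.2)) =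
      ∑ p ∈ range (n + 1) ×ˢ range (k + 2), gam m D ^ p.1 *
        (((if p ∈ nodes n k l then W l p else 0 : ℤ) : ℝ) * ((D : ℝ) + 1) ^ p.2 *
          (D : ℝ) ^ (k + 1 - p.2)) := by
    rw [← Finset.sum_subset hsub (by intro p _ hp; simp [hp])]
    apply Finset.sum_congr rfl
    intro p hp
    simp [hp]
  rw [e1, Finset.sum_product]
  simp only [im, Matrix.of_apply]
  rw [Fin.sum_univ_eq_sum_range (fun i => gam m D ^ i * ((imf n k W D i l : ℤ) : ℝ))]
  apply Finset.sum_congr rfl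
  intro i _
  rw [imf, ← Finset.mul_sum]
  congr 1
  push_cast
  rfl

theorem imf_le (n k : ℕ) (W : ℕ → ℕ × ℕ → ℤ) : ∃ C : ℝ, 0 < C ∧ ∀ D : ℕ, 1 ≤ D →
    ∀ i l : ℕ, l ≤ n → |((imf n k W D i l : ℤ) : ℝ)| ≤ C * (D : ℝ) ^ (k + 1) := by
  classical
  refine ⟨1 + (k + 2) * ((∑ l ∈ range (n + 1), ∑ p ∈ nodes n k l, |(W l p : ℝ)|) * 2 ^ (k + 1)),
    by positivity, ?_⟩
  intro D hD i l hl
  have hD' : (1 : ℝ) ≤ D := by exact_mod_cast hD
  set S : ℝ := ∑ l ∈ range (n + 1), ∑ p ∈ nodes n k l, |(W l p : ℝ)| with hS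
  have hS0 : 0 ≤ S := by positivity
  have hw : ∀ h, |((if (i, h) ∈ nodes n k l then W l (i, h) else 0 : ℤ) : ℝ)| ≤ S := by
    intro h
    split_ifs with hmem
    · calc |(W l (i, h) : ℝ)| ≤ ∑ p ∈ nodes n k l, |(W l p : ℝ)| :=
            Finset.single_le_sum (f := fun p => |(W l p : ℝ)|) (fun _ _ => abs_nonneg _) hmem
        _ ≤ S := Finset.single_le_sum (f := fun l => ∑ p ∈ nodes n k l, |(W l p : ℝ)|)
            (fun _ _ => by positivity) (by simpa [Nat.lt_succ_iff] using hl)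
    · simpa using hS0
  rw [imf]
  push_cast
  refine (Finset.abs_sum_le_sum_abs _ _).trans ?_
  have hterm : ∀ h ∈ range (k + 2),
      |((if (i, h) ∈ nodes n k l then (W l (i, h) : ℝ) else 0)) * ((D : ℝ) + 1) ^ h *
        (D : ℝ) ^ (k + 1 - h)| ≤ S * 2 ^ (k + 1) * (D : ℝ) ^ (k + 1) := by
    intro h hh
    have hh' : h ≤ k + 1 := by simp at hh; omega
    rw [abs_mul, abs_mul]
    have h1 : |((if (i, h) ∈ nodes n k l then (W l (i, h) : ℝ) else 0))| ≤ S := by
      have := hw h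
      push_cast at this
      exact this
    have h2 : |((D : ℝ) + 1) ^ h| ≤ 2 ^ (k + 1) * (D : ℝ) ^ h := by
      rw [abs_of_nonneg (by positivity)]
      calc ((D : ℝ) + 1) ^ h ≤ (2 * D) ^ h := pow_le_pow_left₀ (by positivity) (by linarith) _
        _ = 2 ^ h * (D : ℝ) ^ h := mul_pow _ _ _
        _ ≤ 2 ^ (k + 1) * (D : ℝ) ^ h := by
          apply mul_le_mul_of_nonneg_right _ (by positivity)
          exact pow_le_pow_right₀ (by norm_num) hh'
    have h3 : |(D : ℝ) ^ (k + 1 - h)| = (D : ℝ) ^ (k + 1 - h) := abs_of_nonneg (by positivity)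
    rw [h3]
    calc _ ≤ S * (2 ^ (k + 1) * (D : ℝ) ^ h) * (D : ℝ) ^ (k + 1 - h) := by gcongr
      _ = S * 2 ^ (k + 1) * ((D : ℝ) ^ h * (D : ℝ) ^ (k + 1 - h)) := by ring
      _ = _ := by rw [← pow_add]; congr 2; omega
  refine (Finset.sum_le_sum hterm).trans ?_
  rw [Finset.sum_const, Finset.card_range, nsmul_eq_mul]
  push_cast
  have : 0 ≤ (D : ℝ) ^ (k + 1) := by positivity
  nlinarith

/-- replacing one column by a nonzero vector keeps the determinant nonzero for some column -/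
theorem exists_updateCol_det_ne_zero {ι : Type*} [Fintype ι] [DecidableEq ι] (A : Matrix ι ι ℤ)
    (hA : A.det ≠ 0) (b : ι → ℤ) (hb : b ≠ 0) : ∃ l, (A.updateCol l b).det ≠ 0 := by
  by_contra hcon
  push Not at hcon
  have h1 : A.cramer b = 0 := by
    ext l
    rw [Matrix.cramer_apply, hcon l]; rfl
  have h2 := Matrix.mulVec_cramer A b
  rw [h1, Matrix.mulVec_zero] at h2
  apply hb
  ext i
  have h3 := congrFun h2 i
  simp only [Pi.zero_apply, Pi.smul_apply, smul_eq_mul] at h3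
  rcases mul_eq_zero.mp h3.symm with h4 | h4
  · exact absurd h4 hA
  · exact h4

theorem pade (m n k : ℕ) (hn : n < m) : ∃ c : ℝ, 0 < c ∧ ∃ D₀ : ℕ, ∀ D : ℕ, D₀ ≤ D →
    ∀ Q : ℤ[X], Q ≠ 0 → Q.natDegree ≤ n → (ht Q : ℝ) ≤ c * (D : ℝ) ^ (k + 1) →
      c ≤ |aeval (gam m D) Q| * ((D : ℝ) ^ (k + 1)) ^ n := by
  classical
  obtain ⟨q, hq, W, hW⟩ := exists_int_weights m n k
  obtain ⟨C0, hC0, hrem⟩ := remainder_bound m n k hn
  obtain ⟨C2, hC2, him⟩ := imf_le n k W
  obtain ⟨D1, hD1⟩ := eventually_eval_ne_zero (pm_det_ne_zero hn hq hW)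
  set C1 : ℝ := q * C0 with hC1
  have hq' : (0 : ℝ) < q := by exact_mod_cast hq
  have hC1pos : 0 < C1 := by positivity
  set F : ℝ := ((n + 1).factorial : ℝ) with hF
  have hFpos : 0 < F := by positivity
  -- constants
  set c : ℝ := 1 / (2 * F * (C2 ^ n + (n + 1) * C1 * (C2 ^ (n - 1) + 1)) ) with hc
  have hden : 0 < 2 * F * (C2 ^ n + (n + 1) * C1 * (C2 ^ (n - 1) + 1)) := by positivity
  have hcpos : 0 < c := by positivity
  refine ⟨c, hcpos, max D1 (k + 2), ?_⟩
  intro D hD Q hQ hQn hQht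
  have hDD1 : D1 ≤ D := le_trans (le_max_left _ _) hD
  have hDk : k + 2 ≤ D := le_trans (le_max_right _ _) hD
  have hD1' : 1 ≤ D := by omega
  have hDr : (1 : ℝ) ≤ D := by exact_mod_cast hD1'
  have hdet : (im n k W D).det ≠ 0 := by rw [im_det]; exact hD1 D hDD1
  -- the coefficient vector of Q
  set b : Fin (n + 1) → ℤ := fun i => Q.coeff i with hb
  have hb0 : b ≠ 0 := by
    intro h
    apply hQ
    ext i
    rcases lt_or_ge i (n + 1) with hi | hi
    · exact congrFun h ⟨i, hi⟩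
    · rw [coeff_eq_zero_of_natDegree_lt (by omega), coeff_zero]
  obtain ⟨l₀, hl₀⟩ := exists_updateCol_det_ne_zero _ hdet b hb0
  set Z : ℝ := (D : ℝ) ^ (k + 1) with hZ
  have hZpos : 1 ≤ Z := one_le_pow₀ hDr
  set γ := gam m D with hγ
  set L := Real.log (1 + 1 / (D : ℝ)) with hL
  have hL0 : 0 ≤ L := by
    apply Real.log_nonneg
    have : (0 : ℝ) ≤ 1 / D := by positivity
    linarith
  have hL1 : L ≤ 1 / D := by
    have := Real.log_le_sub_one_of_pos (show (0 : ℝ) < 1 + 1 / D by positivity)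
    linarith
  have hLk : L * (k + 2) ≤ 1 := by
    have h1 : (k + 2 : ℝ) ≤ D := by exact_mod_cast hDk
    calc L * (k + 2) ≤ 1 / D * D := mul_le_mul hL1 h1 (by positivity) (by positivity)
      _ = 1 := by field_simp
  -- forms
  have hform : ∀ l : Fin (n + 1), |∑ i : Fin (n + 1), γ ^ (i : ℕ) * ((im n k W D i l : ℤ) : ℝ)| ≤
      C1 / Z ^ n := by
    intro l
    rw [im_form hn hW hD1' l, abs_mul, abs_of_nonneg (by positivity)]
    have h1 := hrem L hL0 hLk l (by omega)
    have h2 : L ^ ((n + 1) * (k + 1)) ≤ (1 / D) ^ ((n + 1) * (k + 1)) :=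
      pow_le_pow_left₀ hL0 hL1 _
    calc (D : ℝ) ^ (k + 1) * q * |∑ p ∈ nodes n k l, (wt m n k l p : ℝ) *
        Real.exp ((nv m p : ℝ) * L)|
        ≤ (D : ℝ) ^ (k + 1) * q * (C0 * (1 / D) ^ ((n + 1) * (k + 1))) := by
          apply mul_le_mul_of_nonneg_left _ (by positivity)
          refine h1.trans ?_
          exact mul_le_mul_of_nonneg_left h2 hC0.le
      _ = C1 / Z ^ n := by
          rw [hC1, hZ, ← pow_mul, one_div, inv_pow]
          have : (D : ℝ) ^ ((n + 1) * (k + 1)) = (D : ℝ) ^ (k + 1) * (D : ℝ) ^ ((k + 1) * n) := by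
            rw [← pow_add]; congr 1; ring
          rw [this]
          field_simp
  set M := (im n k W D).updateCol l₀ b with hM
  have key := det_bound M hl₀ (fun i => γ ^ (i : ℕ)) 0 (by simp)
    (fun j => if j = l₀ then (ht Q : ℝ) else C2 * Z)
    (fun j => if j = l₀ then |aeval γ Q| else C1 / Z ^ n)
    (by intro j; split_ifs <;> positivity)
    (by intro j; split_ifs <;> positivity)
    (by
      intro i j
      split_ifs with hj
      · subst hj
        rw [hM, Matrix.updateCol_self]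
        exact abs_coeff_le_ht Q i
      · rw [hM, Matrix.updateCol_ne hj]
        exact him D hD1' i j (by omega))
    (by
      intro j
      split_ifs with hj
      · subst hj
        apply le_of_eq
        congr 1
        rw [aeval_eq_sum Q hQn, ← Fin.sum_univ_eq_sum_range (fun i => (Q.coeff i : ℝ) * γ ^ i)]
        apply Finset.sum_congr rfl
        intro i _
        rw [hM, Matrix.updateCol_self]
        simp [hb, mul_comm]
      · refine le_trans (le_of_eq ?_) (hform j)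
        congr 1
        apply Finset.sum_congr rfl
        intro i _
        rw [hM, Matrix.updateCol_ne hj])
  rw [Fintype.card_fin, ← hF] at key
  -- compute the sum
  have hsum : ∑ j : Fin (n + 1), (if j = l₀ then |aeval γ Q| else C1 / Z ^ n) *
      ∏ k ∈ univ.erase j, (if k = l₀ then (ht Q : ℝ) else C2 * Z) ≤
      |aeval γ Q| * (C2 * Z) ^ n + n * (C1 / Z ^ n * (ht Q * (C2 * Z) ^ (n - 1))) := by
    rw [← Finset.add_sum_erase univ _ (Finset.mem_univ l₀)]
    apply add_le_add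
    · rw [if_pos rfl]
      apply le_of_eq
      congr 1
      rw [Finset.prod_congr rfl (g := fun _ => C2 * Z)]
      · rw [Finset.prod_const, Finset.card_erase_of_mem (Finset.mem_univ _), Finset.card_univ,
          Fintype.card_fin, Nat.add_sub_cancel]
      · intro k hk
        rw [if_neg (Finset.ne_of_mem_erase hk)]
    · have hterm : ∀ j ∈ univ.erase l₀, (if j = l₀ then |aeval γ Q| else C1 / Z ^ n) *
          ∏ k ∈ univ.erase j, (if k = l₀ then (ht Q : ℝ) else C2 * Z) =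
          C1 / Z ^ n * (ht Q * (C2 * Z) ^ (n - 1)) := by
        intro j hj
        have hj' : j ≠ l₀ := Finset.ne_of_mem_erase hj
        rw [if_neg hj']
        congr 1
        have hmem : l₀ ∈ univ.erase j := Finset.mem_erase.mpr ⟨hj'.symm, Finset.mem_univ _⟩
        rw [← Finset.mul_prod_erase _ _ hmem, if_pos rfl]
        congr 1
        rw [Finset.prod_congr rfl (g := fun _ => C2 * Z)]
        · rw [Finset.prod_const, Finset.card_erase_of_mem hmem,
            Finset.card_erase_of_mem (Finset.mem_univ _), Finset.card_univ,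
            Fintype.card_fin]
          rfl
        · intro k hk
          rw [if_neg (Finset.ne_of_mem_erase hk)]
      rw [Finset.sum_congr rfl hterm, Finset.sum_const,
        Finset.card_erase_of_mem (Finset.mem_univ _), Finset.card_univ, Fintype.card_fin,
        nsmul_eq_mul, Nat.add_sub_cancel]
  have key2 : 1 ≤ F * (|aeval γ Q| * (C2 * Z) ^ n +
      n * (C1 / Z ^ n * (ht Q * (C2 * Z) ^ (n - 1)))) :=
    key.trans (mul_le_mul_of_nonneg_left hsum hFpos.le)
  -- second term is at most 1/2 / F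
  have hsecond : F * (n * (C1 / Z ^ n * (ht Q * (C2 * Z) ^ (n - 1)))) ≤ 1 / 2 := by
    rcases Nat.eq_zero_or_pos n with h0 | hpos
    · have : (n : ℝ) = 0 := by exact_mod_cast h0
      rw [this]; norm_num
    · have hZn : Z ^ n = Z * Z ^ (n - 1) := by rw [← pow_succ']; congr 1; omega
      have e1 : C1 / Z ^ n * (ht Q * (C2 * Z) ^ (n - 1)) = C1 * C2 ^ (n - 1) * (ht Q / Z) := by
        rw [hZn, mul_pow]
        have : Z ^ (n - 1) ≠ 0 := by positivity
        field_simp
      rw [e1]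
      have e2 : (ht Q : ℝ) / Z ≤ c := by
        rw [div_le_iff₀ (by linarith)]; exact hQht
      have e3 : F * (n * (C1 * C2 ^ (n - 1) * (ht Q / Z))) ≤
          F * (n * (C1 * C2 ^ (n - 1) * c)) := by gcongr
      refine e3.trans ?_
      rw [hc]
      rw [show F * (n * (C1 * C2 ^ (n - 1) * (1 / (2 * F * (C2 ^ n + (n + 1) * C1 *
        (C2 ^ (n - 1) + 1)))))) = (F * (n * (C1 * C2 ^ (n - 1)))) /
        (2 * F * (C2 ^ n + (n + 1) * C1 * (C2 ^ (n - 1) + 1))) by ring]
      rw [div_le_div_iff₀ hden (by norm_num)]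
      have p1 : 0 ≤ C2 ^ n := by positivity
      have p2 : 0 ≤ C1 * C2 ^ (n - 1) := by positivity
      have p3 : 0 ≤ (n + 1) * C1 := by positivity
      nlinarith [mul_nonneg hFpos.le p1, mul_nonneg hFpos.le p2, mul_nonneg hFpos.le p3]
  have hfirst : 1 / 2 ≤ F * C2 ^ n * (|aeval γ Q| * Z ^ n) := by
    have : F * (|aeval γ Q| * (C2 * Z) ^ n) = F * C2 ^ n * (|aeval γ Q| * Z ^ n) := by
      rw [mul_pow]; ring
    rw [mul_add, this] at key2
    linarith
  have hc_le : c * (F * C2 ^ n) ≤ 1 / 2 := by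
    rw [hc, div_mul_eq_mul_div, one_mul, div_le_div_iff₀ hden (by norm_num)]
    have p3 : 0 ≤ (n + 1) * C1 * (C2 ^ (n - 1) + 1) := by positivity
    nlinarith [mul_nonneg hFpos.le p3]
  have hpos2 : 0 < F * C2 ^ n := by positivity
  by_contra hcon
  push Not at hcon
  have : F * C2 ^ n * (|aeval γ Q| * Z ^ n) < F * C2 ^ n * c :=
    mul_lt_mul_of_pos_left hcon hpos2
  linarith

end Pool.Agent.TNum
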