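import Mathlib
import Pool.Agent.TNum.Pade
import Pool.Agent.TNum.Irr

set_option autoImplicit false

namespace Pool.Agent.TNum

open Polynomial Finset

/-- The polynomial `(D X - u)^m - (D+1) D^(m-1)` -/
noncomputable def Pxi (m : ℕ) (D u : ℤ) : ℤ[X] :=
  (C D * X + C (-u)) ^ m - C ((D + 1) * D ^ (m - 1))

theorem aeval_Pxi (m : ℕ) (D u : ℤ) (x : ℝ) :
    aeval x (Pxi m D u) = ((D : ℝ) * x - u) ^ m - (D + 1) * (D : ℝ) ^ (m - 1) := by
  simp only [Pxi, map_sub, map_pow, map_add, map_mul, aeval_C, aeval_X]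
  simp only [algebraMap_int_eq, eq_intCast]
  push_cast
  ring

theorem coeff_Pxi (m : ℕ) (D u : ℤ) (j : ℕ) :
    (Pxi m D u).coeff j = (-u) ^ (m - j) * (m.choose j : ℤ) * D ^ j -
      (if j = 0 then (D + 1) * D ^ (m - 1) else 0) := by
  rw [Pxi, coeff_sub, coeff_lin_pow, coeff_C]

theorem natDegree_Pxi {m : ℕ} (hm : 1 ≤ m) {D : ℤ} (hD : 0 < D) (u : ℤ) :
    (Pxi m D u).natDegree = m := by
  apply le_antisymm
  · rw [natDegree_le_iff_coeff_eq_zero]
    intro j hj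
    rw [coeff_Pxi, if_neg (by omega), Nat.choose_eq_zero_of_lt hj]
    simp
  · apply le_natDegree_of_ne_zero
    rw [coeff_Pxi, if_neg (by omega)]
    simp [hD.ne']

theorem coeff_Pxi_top {m : ℕ} (hm : 1 ≤ m) (D u : ℤ) : (Pxi m D u).coeff m = D ^ m := by
  rw [coeff_Pxi, if_neg (by omega)]
  simp

theorem pow_le_ht_Pxi {m : ℕ} (hm : 1 ≤ m) (D : ℕ) (u : ℤ) : D ^ m ≤ ht (Pxi m D u) := by
  have h := natAbs_coeff_le_ht (Pxi m D u) m
  rw [coeff_Pxi_top hm] at h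
  simpa [Int.natAbs_pow] using h

theorem ht_Pxi_le {m : ℕ} (hm : 1 ≤ m) {D : ℕ} (hD : 1 ≤ D) {u : ℤ} (hu : |(u : ℝ)| ≤ 3 * D) :
    (ht (Pxi m D u) : ℝ) ≤ (6 ^ m + 2) * (D : ℝ) ^ m := by
  have hD' : (1 : ℝ) ≤ D := by exact_mod_cast hD
  apply ht_le_real (by positivity)
  intro j
  rw [coeff_Pxi]
  have h1 : |(((-u) ^ (m - j) * (m.choose j : ℤ) * (D : ℤ) ^ j : ℤ) : ℝ)| ≤ 6 ^ m * (D : ℝ) ^ m := by
    rcases lt_or_ge m j with hj | hj
    · rw [Nat.choose_eq_zero_of_lt hj]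
      simp
    · push_cast
      rw [abs_mul, abs_mul, abs_pow, abs_neg, Nat.abs_cast,
        abs_of_nonneg (show (0 : ℝ) ≤ (D : ℝ) ^ j by positivity)]
      have h2 : |(u : ℝ)| ^ (m - j) ≤ 3 ^ m * (D : ℝ) ^ (m - j) := by
        calc |(u : ℝ)| ^ (m - j) ≤ (3 * D) ^ (m - j) := pow_le_pow_left₀ (abs_nonneg _) hu _
          _ = 3 ^ (m - j) * (D : ℝ) ^ (m - j) := mul_pow _ _ _
          _ ≤ 3 ^ m * (D : ℝ) ^ (m - j) := by
            apply mul_le_mul_of_nonneg_right _ (by positivity)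
            exact pow_le_pow_right₀ (by norm_num) (by omega)
      have h3 : (m.choose j : ℝ) ≤ 2 ^ m := by exact_mod_cast Nat.choose_le_two_pow m j
      calc |(u : ℝ)| ^ (m - j) * (m.choose j : ℝ) * (D : ℝ) ^ j
          ≤ (3 ^ m * (D : ℝ) ^ (m - j)) * 2 ^ m * (D : ℝ) ^ j := by gcongr
        _ = (3 ^ m * 2 ^ m) * ((D : ℝ) ^ (m - j) * (D : ℝ) ^ j) := by ring
        _ = 6 ^ m * (D : ℝ) ^ m := by
            rw [← mul_pow, ← pow_add]
            congr 2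
            · norm_num
            · omega
  have h4 : |(((if j = 0 then ((D : ℤ) + 1) * (D : ℤ) ^ (m - 1) else 0 : ℤ)) : ℝ)| ≤
      2 * (D : ℝ) ^ m := by
    split_ifs
    · push_cast
      rw [abs_of_nonneg (by positivity)]
      have : (D : ℝ) ^ m = D * (D : ℝ) ^ (m - 1) := by rw [← pow_succ']; congr 1; omega
      rw [this]
      have : (0 : ℝ) ≤ (D : ℝ) ^ (m - 1) := by positivity
      nlinarith
    · simp
  rw [Int.cast_sub]
  refine (abs_sub _ _).trans ?_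
  calc _ ≤ 6 ^ m * (D : ℝ) ^ m + 2 * (D : ℝ) ^ m := add_le_add h1 h4
    _ = _ := by ring

/-- the point `ξ` -/
noncomputable def xi (m D : ℕ) (u : ℤ) : ℝ := gam m D + (u : ℝ) / D

theorem aeval_xi_Pxi {m : ℕ} (hm : 1 ≤ m) {D : ℕ} (hD : 1 ≤ D) (u : ℤ) :
    aeval (xi m D u) (Pxi m D u) = 0 := by
  have hD' : (D : ℝ) ≠ 0 := by exact_mod_cast (by omega : D ≠ 0)
  rw [aeval_Pxi, xi]
  have h1 : ((D : ℤ) : ℝ) * (gam m D + (u : ℝ) / D) - u = D * gam m D := by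
    push_cast
    field_simp
    ring
  rw [h1, mul_pow, gam_pow_self (by omega)]
  have : (D : ℝ) ^ m = D * (D : ℝ) ^ (m - 1) := by rw [← pow_succ']; congr 1; omega
  rw [this]
  push_cast
  field_simp
  ring

/-- growth to the right of `ξ` -/
theorem Pxi_lower {m : ℕ} (hm : 1 ≤ m) {D : ℕ} (hD : 1 ≤ D) (u : ℤ) {x : ℝ}
    (hx : xi m D u ≤ x) : (D : ℝ) * (x - xi m D u) ≤ aeval x (Pxi m D u) := by
  have hD' : (1 : ℝ) ≤ D := by exact_mod_cast hD
  have h0 := aeval_xi_Pxi hm hD u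
  rw [aeval_Pxi] at h0
  rw [aeval_Pxi]
  set z : ℝ := ((D : ℤ) : ℝ) * xi m D u - u with hz
  set y : ℝ := ((D : ℤ) : ℝ) * x - u with hy
  have hz1 : 1 ≤ z := by
    have h1 : z = D * gam m D := by
      rw [hz, xi]; push_cast; field_simp; ring
    rw [h1]
    have := one_le_gam m D
    nlinarith
  have hyz : y - z = D * (x - xi m D u) := by rw [hy, hz]; push_cast; ring
  have hyz0 : z ≤ y := by
    have : 0 ≤ y - z := by rw [hyz]; exact mul_nonneg (by linarith) (by linarith)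
    linarith
  have hym : y ^ m = y * y ^ (m - 1) := by rw [← pow_succ']; congr 1; omega
  have hzm : z ^ m = z * z ^ (m - 1) := by rw [← pow_succ']; congr 1; omega
  have h2 : z ^ (m - 1) ≤ y ^ (m - 1) := pow_le_pow_left₀ (by linarith) hyz0 _
  have h3 : 1 ≤ z ^ (m - 1) := one_le_pow₀ hz1
  have h4 : y - z ≤ y ^ m - z ^ m := by
    rw [hym, hzm]
    nlinarith [mul_nonneg (sub_nonneg.mpr h2) (by linarith : (0:ℝ) ≤ y),
      mul_nonneg (sub_nonneg.mpr hyz0) (sub_nonneg.mpr h3)]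
  rw [← hyz]
  linarith

theorem isPrimitive_Pxi {m : ℕ} (hm : 2 ≤ m) {e c : ℤ} {L : ℕ} :
    (Pxi m (e ^ (L + 1)) (1 + e * c)).IsPrimitive := by
  intro z hz
  rw [C_dvd_iff_dvd_coeff] at hz
  have h1 := hz m
  rw [coeff_Pxi_top (by omega)] at h1
  have h2 := hz 0
  rw [coeff_Pxi, if_pos rfl] at h2
  simp only [Nat.sub_zero, Nat.choose_zero_right, Nat.cast_one, mul_one, pow_zero] at h2
  have hue : IsCoprime (1 + e * c) e := ⟨1, -c, by ring⟩
  have huD : IsCoprime (1 + e * c) (e ^ (L + 1)) := hue.pow_right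
  have hum : IsCoprime ((-(1 + e * c)) ^ m) (e ^ (L + 1)) := huD.neg_left.pow_left
  have hdiff : (e ^ (L + 1) : ℤ) ∣ (e ^ (L + 1) + 1) * (e ^ (L + 1)) ^ (m - 1) := by
    apply Dvd.dvd.mul_left
    exact dvd_pow_self _ (by omega)
  obtain ⟨t, ht⟩ := hdiff
  have hco : IsCoprime ((-(1 + e * c)) ^ m - (e ^ (L + 1) + 1) * (e ^ (L + 1)) ^ (m - 1))
      (e ^ (L + 1)) := by
    rw [ht]
    rw [sub_eq_add_neg, ← mul_neg]
    exact hum.add_mul_left_left (-t)
  have hco2 : IsCoprime ((-(1 + e * c)) ^ m - (e ^ (L + 1) + 1) * (e ^ (L + 1)) ^ (m - 1))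
      ((e ^ (L + 1)) ^ m) := hco.pow_right
  exact hco2.isUnit_of_dvd' h2 h1

/-- irreducible polynomials of large degree vanishing at `ξ` -/
theorem eq_Pxi_of_aeval_eq_zero {m : ℕ} (hm : 2 ≤ m) {e : ℕ} (he : 1 ≤ e) {c : ℤ} {L : ℕ}
    {P : ℤ[X]} (hP : Irreducible P) (hn : m ≤ P.natDegree)
    (h0 : aeval (xi m (e ^ (L + 1)) (1 + e * c)) P = 0) :
    (Pxi m ((e : ℤ) ^ (L + 1)) (1 + e * c) = P ∨ Pxi m ((e : ℤ) ^ (L + 1)) (1 + e * c) = -P) := by
  have hD : 1 ≤ e ^ (L + 1) := Nat.one_le_pow _ _ he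
  set F := Pxi m ((e : ℤ) ^ (L + 1)) (1 + e * c) with hF
  have hFdeg : F.natDegree = m := by
    apply natDegree_Pxi (by omega)
    have : (0 : ℤ) < e := by exact_mod_cast he
    positivity
  have hF0 : aeval (xi m (e ^ (L + 1)) (1 + e * c)) F = 0 := by
    have := aeval_xi_Pxi (by omega : 1 ≤ m) hD (1 + e * c)
    push_cast at this
    exact this
  have hFne : F ≠ 0 := by rintro h; rw [h] at hFdeg; simp at hFdeg; omega
  have hnc : ¬ Cop P F := by
    rintro ⟨u, v, huv⟩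
    have key : ∀ P : ℤ[X], aeval (xi m (e ^ (L + 1)) (1 + e * c)) P =
        aeval (xi m (e ^ (L + 1)) (1 + e * c)) (P.map (Int.castRingHom ℚ)) := by
      intro P
      rw [aeval_def, aeval_def, eval₂_map]
      congr 1
    have := congrArg (aeval (xi m (e ^ (L + 1)) (1 + e * c))) huv
    rw [map_add, map_mul, map_mul, ← key, ← key, h0, hF0] at this
    simp at this
  have hdvd := dvd_of_not_cop hP (by omega) hnc
  have hprimF : F.IsPrimitive := isPrimitive_Pxi hm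
  have hprimP : P.IsPrimitive := hP.isPrimitive (by omega)
  rw [← IsPrimitive.Int.dvd_iff_map_cast_dvd_map_cast P F hprimP] at hdvd
  obtain ⟨G, hG⟩ := hdvd
  have hG0 : G ≠ 0 := by rintro rfl; rw [mul_zero] at hG; exact hFne hG
  have hGdeg : G.natDegree = 0 := by
    have := congrArg natDegree hG
    rw [natDegree_mul hP.ne_zero hG0, hFdeg] at this
    omega
  obtain ⟨z, hz⟩ := natDegree_eq_zero.mp hGdeg
  have hunit : IsUnit z := hprimF z ⟨P, by rw [hG, ← hz, mul_comm]⟩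
  rcases Int.isUnit_iff.mp hunit with h | h
  · left
    rw [hG, ← hz, h]; simp
  · right
    rw [hG, ← hz, h]; simp

end Pool.Agent.TNum
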