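import Mathlib
import Pool.Agent.TNum.Pxi
import Pool.Agent.TNum.Res

set_option autoImplicit false

namespace Pool.Agent.TNum

open Polynomial Finset

theorem abs_u_le {m : ℕ} (hm : 1 ≤ m) {D : ℕ} (hD : 1 ≤ D) {u : ℤ} (h1 : 1 ≤ xi m D u)
    (h3 : xi m D u ≤ 3) : |(u : ℝ)| ≤ 3 * D := by
  have hD' : (1 : ℝ) ≤ D := by exact_mod_cast hD
  have hg1 := one_le_gam m D
  have hg2 := gam_le_two (by omega : 0 < m) hD
  rw [xi] at h1 h3
  have h4 : |(u : ℝ) / D| ≤ 3 := by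
    rw [abs_le]; constructor <;> linarith
  rw [abs_div, abs_of_pos (by linarith : (0 : ℝ) < D), div_le_iff₀ (by linarith)] at h4
  exact h4

theorem liouville_part (m n : ℕ) (hm : 2 ≤ m) (hmn : m ≤ n) : ∃ K : ℝ, 0 < K ∧
    ∀ (e L s : ℕ), 1 ≤ s → L + 1 ≤ 3 * s → K < e → 1 ≤ e → ∀ c : ℤ,
      1 ≤ xi m (e ^ (L + 1)) (1 + e * c) → xi m (e ^ (L + 1)) (1 + e * c) ≤ 3 →
      ∀ P : ℤ[X], Irreducible P → P.natDegree = n → e ^ s ≤ ht P →
        aeval (xi m (e ^ (L + 1)) (1 + e * c)) P ≠ 0 →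
        ((ht P : ℝ) ^ (12 * n ^ 2))⁻¹ ≤ |aeval (xi m (e ^ (L + 1)) (1 + e * c)) P| := by
  refine ⟨((n + m).factorial : ℝ) * (n + m) * 3 ^ (n + m) * (6 ^ m + 2) ^ n, by positivity, ?_⟩
  intro e L s hs hL hKe he c hξ1 hξ3 P hP hPn hPe hPξ
  set D : ℕ := e ^ (L + 1) with hDdef
  set u : ℤ := 1 + e * c with hu
  set ξ := xi m D u with hξ
  have hD : 1 ≤ D := Nat.one_le_pow _ _ he
  have he' : (1 : ℝ) ≤ e := by exact_mod_cast he
  set F := Pxi m D u with hF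
  have hFdeg : F.natDegree = m := natDegree_Pxi (by omega) (by exact_mod_cast hD) u
  have hF0 : aeval ξ F = 0 := aeval_xi_Pxi (by omega) hD u
  have hFne : F ≠ 0 := by rintro h; rw [h] at hFdeg; simp at hFdeg; omega
  have hcop : Cop P F := cop_of_natDegree_le hP (by omega) hFne (by omega) hF0 hPξ
  have key := res_bound P F (by omega) (by omega) hcop ξ 3 (by norm_num)
    (by rw [abs_of_nonneg (by linarith)]; exact hξ3)
  rw [hPn, hFdeg, hF0] at key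
  simp only [abs_zero, zero_mul, zero_add] at key
  have hFht := ht_Pxi_le (by omega : 1 ≤ m) hD (abs_u_le (by omega) hD hξ1 hξ3)
  rw [← hF] at hFht
  set H : ℝ := (ht P : ℝ) with hH
  have hH1 : 1 ≤ H := by rw [hH]; exact_mod_cast one_le_ht hP.ne_zero
  have heH : (e : ℝ) ^ s ≤ H := by rw [hH]; exact_mod_cast hPe
  have heH1 : (e : ℝ) ≤ H := by
    calc (e : ℝ) = (e : ℝ) ^ 1 := (pow_one _).symm
      _ ≤ (e : ℝ) ^ s := pow_le_pow_right₀ he' hs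
      _ ≤ H := heH
  have hDH : (D : ℝ) ≤ H ^ 3 := by
    calc (D : ℝ) = (e : ℝ) ^ (L + 1) := by rw [hDdef]; push_cast; rfl
      _ ≤ (e : ℝ) ^ (3 * s) := pow_le_pow_right₀ he' hL
      _ = ((e : ℝ) ^ s) ^ 3 := by rw [← pow_mul]; congr 1; ring
      _ ≤ H ^ 3 := pow_le_pow_left₀ (by positivity) heH _
  have hFht0 : (0 : ℝ) ≤ ht F := Nat.cast_nonneg _
  have hb1 : (ht F : ℝ) ^ n ≤ (6 ^ m + 2) ^ n * H ^ (3 * m * n) := by
    calc (ht F : ℝ) ^ n ≤ ((6 ^ m + 2) * (D : ℝ) ^ m) ^ n := pow_le_pow_left₀ hFht0 hFht _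
      _ = (6 ^ m + 2) ^ n * ((D : ℝ) ^ m) ^ n := mul_pow _ _ _
      _ ≤ (6 ^ m + 2) ^ n * ((H ^ 3) ^ m) ^ n := by gcongr
      _ = _ := by rw [← pow_mul, ← pow_mul]; congr 2; ring
  have hA0 : 0 ≤ |aeval ξ P| := abs_nonneg _
  have hb2 : |aeval ξ P| * H ^ (m - 1) * (ht F : ℝ) ^ n ≤
      (6 ^ m + 2) ^ n * (|aeval ξ P| * H ^ (m - 1) * H ^ (3 * m * n)) := by
    calc |aeval ξ P| * H ^ (m - 1) * (ht F : ℝ) ^ n ≤
        |aeval ξ P| * H ^ (m - 1) * ((6 ^ m + 2) ^ n * H ^ (3 * m * n)) := by gcongr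
      _ = _ := by ring
  have hb3 : 1 ≤ H * (|aeval ξ P| * H ^ (m - 1) * H ^ (3 * m * n)) := by
    refine key.trans ?_
    calc ((n + m).factorial : ℝ) * (n + m) * 3 ^ (n + m) *
        (|aeval ξ P| * H ^ (m - 1) * (ht F : ℝ) ^ n)
        ≤ ((n + m).factorial : ℝ) * (n + m) * 3 ^ (n + m) *
          ((6 ^ m + 2) ^ n * (|aeval ξ P| * H ^ (m - 1) * H ^ (3 * m * n))) := by gcongr
      _ = (((n + m).factorial : ℝ) * (n + m) * 3 ^ (n + m) * (6 ^ m + 2) ^ n) *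
          (|aeval ξ P| * H ^ (m - 1) * H ^ (3 * m * n)) := by ring
      _ ≤ H * (|aeval ξ P| * H ^ (m - 1) * H ^ (3 * m * n)) := by
          apply mul_le_mul_of_nonneg_right _ (by positivity)
          linarith
  have hb4 : H * (|aeval ξ P| * H ^ (m - 1) * H ^ (3 * m * n)) ≤ |aeval ξ P| * H ^ (12 * n ^ 2) := by
    have e1 : H * (|aeval ξ P| * H ^ (m - 1) * H ^ (3 * m * n)) =
        |aeval ξ P| * (H ^ 1 * H ^ (m - 1) * H ^ (3 * m * n)) := by ring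
    rw [e1, ← pow_add, ← pow_add]
    apply mul_le_mul_of_nonneg_left _ hA0
    apply pow_le_pow_right₀ hH1
    have h1 : 3 * m * n ≤ 3 * n * n := by gcongr
    have h2 : n ≤ n * n := Nat.le_mul_self n
    have h3 : 1 + (m - 1) = m := by omega
    rw [h3]
    calc m + 3 * m * n ≤ n * n + 3 * n * n := by linarith
      _ ≤ 12 * n ^ 2 := by nlinarith
  rw [inv_le_iff_one_le_mul₀ (by positivity)]
  linarith

theorem pade_unif (m n K0 : ℕ) (hn : n < m) : ∃ c : ℝ, 0 < c ∧ ∃ D₀ : ℕ, ∀ D : ℕ, D₀ ≤ D →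
    ∀ k ≤ K0, ∀ Q : ℤ[X], Q ≠ 0 → Q.natDegree ≤ n → (ht Q : ℝ) ≤ c * (D : ℝ) ^ (k + 1) →
      c ≤ |aeval (gam m D) Q| * ((D : ℝ) ^ (k + 1)) ^ n := by
  induction K0 with
  | zero =>
    obtain ⟨c, hc, D₀, h⟩ := pade m n 0 hn
    refine ⟨c, hc, D₀, fun D hD k hk => ?_⟩
    obtain rfl : k = 0 := by omega
    exact h D hD
  | succ K0 ih =>
    obtain ⟨c1, hc1, D1, h1⟩ := ih
    obtain ⟨c2, hc2, D2, h2⟩ := pade m n (K0 + 1) hn
    refine ⟨min c1 c2, lt_min hc1 hc2, max D1 D2, fun D hD k hk Q hQ hQn hQh => ?_⟩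
    have hDpos : (0 : ℝ) ≤ (D : ℝ) ^ (k + 1) := by positivity
    rcases Nat.lt_or_ge k (K0 + 1) with hlt | hge
    · have := h1 D (le_trans (le_max_left _ _) hD) k (by omega) Q hQ hQn
        (hQh.trans (mul_le_mul_of_nonneg_right (min_le_left _ _) hDpos))
      exact (min_le_left _ _).trans this
    · obtain rfl : k = K0 + 1 := by omega
      have := h2 D (le_trans (le_max_right _ _) hD) Q hQ hQn
        (hQh.trans (mul_le_mul_of_nonneg_right (min_le_right _ _) hDpos))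
      exact (min_le_right _ _).trans this

theorem pade_part (m n T : ℕ) (hn : 1 ≤ n) (hnm : n < m) : ∃ K : ℝ, 0 < K ∧
    ∀ (e L s : ℕ), 1 ≤ s → L + 1 ≤ 3 * s → K < e → 1 ≤ e → ∀ c : ℤ,
      1 ≤ xi m (e ^ (L + 1)) (1 + e * c) → xi m (e ^ (L + 1)) (1 + e * c) ≤ 3 →
      ∀ P : ℤ[X], P ≠ 0 → P.natDegree = n → e ^ s ≤ ht P → ht P ≤ e ^ T →
        ((ht P : ℝ) ^ (12 * n ^ 2))⁻¹ ≤ |aeval (xi m (e ^ (L + 1)) (1 + e * c)) P| := by
  classical
  obtain ⟨κ, hκ, D₀, hpade⟩ := pade_unif m n (n + T) hnm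
  obtain ⟨A, hA⟩ : ∃ A : ℝ, A = (n + 1) * (2 * 3) ^ n := ⟨_, rfl⟩
  have hA1 : 1 ≤ A := by
    have : (1 : ℝ) ≤ (2 * 3) ^ n := one_le_pow₀ (by norm_num)
    have hn0 : (0 : ℝ) ≤ n := Nat.cast_nonneg _
    rw [hA]
    nlinarith
  refine ⟨D₀ + A / κ + ((1 + 1 / κ) * A) ^ n / κ, by positivity, ?_⟩
  intro e L s hs hL hKe he c hξ1 hξ3 P hP hPn hPe hPT
  have he' : (1 : ℝ) ≤ e := by exact_mod_cast he
  have q1 : (0 : ℝ) ≤ A / κ := by positivity
  have q2 : (0 : ℝ) ≤ ((1 + 1 / κ) * A) ^ n / κ := by positivity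
  have q3 : (0 : ℝ) ≤ D₀ := Nat.cast_nonneg _
  have he1 : (D₀ : ℝ) < e := by linarith
  have he2 : A / κ < e := by linarith
  have he3 : ((1 + 1 / κ) * A) ^ n / κ < e := by linarith
  set D : ℕ := e ^ (L + 1) with hDdef
  set u : ℤ := 1 + e * c with hu
  set ξ := xi m D u with hξ
  have hD : 1 ≤ D := Nat.one_le_pow _ _ he
  have hD' : (1 : ℝ) ≤ D := by exact_mod_cast hD
  have heD : (e : ℝ) ≤ D := by
    rw [hDdef]; push_cast
    exact le_self_pow₀ he' (by omega)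
  have hDD0 : D₀ ≤ D := by
    have : (D₀ : ℝ) ≤ D := by linarith
    exact_mod_cast this
  set H : ℝ := (ht P : ℝ) with hH
  have hH1 : 1 ≤ H := by rw [hH]; exact_mod_cast one_le_ht hP
  have heH : (e : ℝ) ^ s ≤ H := by rw [hH]; exact_mod_cast hPe
  have hHT : H ≤ (e : ℝ) ^ T := by rw [hH]; exact_mod_cast hPT
  have heH1 : (e : ℝ) ≤ H := by
    calc (e : ℝ) = (e : ℝ) ^ 1 := (pow_one _).symm
      _ ≤ (e : ℝ) ^ s := pow_le_pow_right₀ he' hs
      _ ≤ H := heH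
  have hDH : (D : ℝ) ≤ H ^ 3 := by
    calc (D : ℝ) = (e : ℝ) ^ (L + 1) := by rw [hDdef]; push_cast; rfl
      _ ≤ (e : ℝ) ^ (3 * s) := pow_le_pow_right₀ he' hL
      _ = ((e : ℝ) ^ s) ^ 3 := by rw [← pow_mul]; congr 1; ring
      _ ≤ H ^ 3 := pow_le_pow_left₀ (by positivity) heH _
  -- the shifted polynomial
  set Q := shiftPoly n (D : ℤ) u P with hQ
  have hQne : Q ≠ 0 := shiftPoly_ne_zero (by exact_mod_cast (by omega : D ≠ 0)) u hP hPn.le
  have hQdeg : Q.natDegree ≤ n := natDegree_shiftPoly_le _ _ _ _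
  have hQev : aeval (gam m D) Q = (D : ℝ) ^ n * aeval ξ P := by
    rw [hQ, aeval_shiftPoly (by exact_mod_cast (by omega : D ≠ 0)) u P hPn.le]
    push_cast
    rfl
  have hQht : (ht Q : ℝ) ≤ A * (D : ℝ) ^ n * H := by
    have := ht_shiftPoly_le n P (R := 3) (V := (D : ℤ)) (k := u) (by norm_num)
      (by exact_mod_cast hD) (by
        have := abs_u_le (by omega : 1 ≤ m) hD hξ1 hξ3
        push_cast
        exact this)
    push_cast at this
    rw [← hA] at this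
    exact this
  obtain ⟨Y, hY⟩ : ∃ Y : ℝ, Y = A * (D : ℝ) ^ n * H := ⟨_, rfl⟩
  rw [← hY] at hQht
  have hY1 : 1 ≤ Y := by
    have h1 : (1 : ℝ) ≤ (D : ℝ) ^ n := one_le_pow₀ hD'
    have h2 : 1 * 1 ≤ A * (D : ℝ) ^ n := mul_le_mul hA1 h1 (by norm_num) (by linarith)
    have h3 : 1 * 1 ≤ A * (D : ℝ) ^ n * H :=
      mul_le_mul (by linarith) hH1 (by norm_num) (by linarith)
    rw [hY]; linarith
  -- existence of k
  have hex : ∃ k, Y ≤ κ * (D : ℝ) ^ (k + 1) := by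
    refine ⟨n + T, ?_⟩
    have h1 : (D : ℝ) ^ (n + T + 1) = (D : ℝ) ^ n * (D : ℝ) ^ T * D := by
      rw [← pow_add, ← pow_succ]
    have h2 : (e : ℝ) ^ T ≤ (D : ℝ) ^ T := pow_le_pow_left₀ (by linarith) heD _
    have h3 : A ≤ κ * D := by
      rw [div_lt_iff₀ hκ] at he2
      have := mul_le_mul_of_nonneg_right heD hκ.le
      linarith
    rw [h1, hY]
    calc A * (D : ℝ) ^ n * H ≤ (κ * D) * (D : ℝ) ^ n * (D : ℝ) ^ T := by
          apply mul_le_mul _ (hHT.trans h2) (by linarith) (by positivity)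
          exact mul_le_mul_of_nonneg_right h3 (by positivity)
      _ = _ := by ring
  set k := Nat.find hex with hk
  have hk1 : Y ≤ κ * (D : ℝ) ^ (k + 1) := Nat.find_spec hex
  have hkK : k ≤ n + T := by
    apply Nat.find_min'
    -- repeat the proof
    have h1 : (D : ℝ) ^ (n + T + 1) = (D : ℝ) ^ n * (D : ℝ) ^ T * D := by
      rw [← pow_add, ← pow_succ]
    have h2 : (e : ℝ) ^ T ≤ (D : ℝ) ^ T := pow_le_pow_left₀ (by linarith) heD _
    have h3 : A ≤ κ * D := by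
      rw [div_lt_iff₀ hκ] at he2
      have := mul_le_mul_of_nonneg_right heD hκ.le
      linarith
    rw [h1, hY]
    calc A * (D : ℝ) ^ n * H ≤ (κ * D) * (D : ℝ) ^ n * (D : ℝ) ^ T := by
          apply mul_le_mul _ (hHT.trans h2) (by linarith) (by positivity)
          exact mul_le_mul_of_nonneg_right h3 (by positivity)
      _ = _ := by ring
  have hk2 : (D : ℝ) ^ (k + 1) ≤ (1 + 1 / κ) * Y * D := by
    rcases Nat.eq_zero_or_pos k with h0 | hpos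
    · rw [h0, zero_add, pow_one]
      have hk0 : (0 : ℝ) ≤ 1 / κ := by positivity
      have h1 : (1 : ℝ) * 1 ≤ (1 + 1 / κ) * Y :=
        mul_le_mul (by linarith) hY1 (by norm_num) (by linarith)
      have h2 : (1 : ℝ) * D ≤ (1 + 1 / κ) * Y * D :=
        mul_le_mul_of_nonneg_right (by linarith) (by linarith)
      linarith
    · have h1 : ¬ Y ≤ κ * (D : ℝ) ^ (k - 1 + 1) := Nat.find_min hex (by omega)
      rw [Nat.sub_add_cancel hpos] at h1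
      push Not at h1
      have h2 : (D : ℝ) ^ k ≤ Y / κ := by
        rw [le_div_iff₀ hκ]; linarith
      rw [pow_succ]
      apply mul_le_mul_of_nonneg_right _ (by linarith)
      calc (D : ℝ) ^ k ≤ Y / κ := h2
        _ = (1 / κ) * Y := by ring
        _ ≤ (1 + 1 / κ) * Y := by
          apply mul_le_mul_of_nonneg_right _ (by linarith)
          linarith
  have key := hpade D hDD0 k hkK Q hQne hQdeg (hQht.trans hk1)
  rw [hQev, abs_mul, abs_of_nonneg (show (0 : ℝ) ≤ (D : ℝ) ^ n by positivity)] at key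
  have hA0 : 0 ≤ |aeval ξ P| := abs_nonneg _
  have h5 : κ ≤ |aeval ξ P| * (((1 + 1 / κ) * A) ^ n * ((D : ℝ) ^ (n ^ 2 + 2 * n) * H ^ n)) := by
    refine key.trans ?_
    calc (D : ℝ) ^ n * |aeval ξ P| * ((D : ℝ) ^ (k + 1)) ^ n
        ≤ (D : ℝ) ^ n * |aeval ξ P| * ((1 + 1 / κ) * Y * D) ^ n := by gcongr
      _ = (D : ℝ) ^ n * |aeval ξ P| * (((1 + 1 / κ) * A) * ((D : ℝ) ^ (n + 1) * H)) ^ n := by
          congr 2
          rw [hY, pow_succ]; ring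
      _ = |aeval ξ P| * (((1 + 1 / κ) * A) ^ n *
          (((D : ℝ) ^ n * ((D : ℝ) ^ (n + 1)) ^ n) * H ^ n)) := by
          rw [mul_pow ((1 + 1 / κ) * A) _ n, mul_pow ((D : ℝ) ^ (n + 1)) H n]
          generalize ((1 + 1 / κ) * A) ^ n = g
          ring
      _ = _ := by
          rw [← pow_mul, ← pow_add]
          congr 4
          ring
  have h6 : (D : ℝ) ^ (n ^ 2 + 2 * n) * H ^ n ≤ H ^ (3 * n ^ 2 + 7 * n) := by
    calc (D : ℝ) ^ (n ^ 2 + 2 * n) * H ^ n ≤ (H ^ 3) ^ (n ^ 2 + 2 * n) * H ^ n := by gcongr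
      _ = H ^ (3 * n ^ 2 + 7 * n) := by rw [← pow_mul, ← pow_add]; congr 1; ring
  have h7 : ((1 + 1 / κ) * A) ^ n ≤ κ * H := by
    rw [div_lt_iff₀ hκ] at he3
    have := mul_le_mul_of_nonneg_right heH1 hκ.le
    linarith
  have h8 : κ ≤ |aeval ξ P| * (κ * H ^ (3 * n ^ 2 + 7 * n + 1)) := by
    refine h5.trans ?_
    apply mul_le_mul_of_nonneg_left _ hA0
    calc ((1 + 1 / κ) * A) ^ n * ((D : ℝ) ^ (n ^ 2 + 2 * n) * H ^ n) ≤
        (κ * H) * H ^ (3 * n ^ 2 + 7 * n) := by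
          apply mul_le_mul h7 h6 (by positivity) (by positivity)
      _ = _ := by rw [pow_succ]; ring
  have h9 : 1 ≤ |aeval ξ P| * H ^ (3 * n ^ 2 + 7 * n + 1) := by
    have : κ * 1 ≤ κ * (|aeval ξ P| * H ^ (3 * n ^ 2 + 7 * n + 1)) := by linarith
    exact le_of_mul_le_mul_left this hκ
  have h10 : H ^ (3 * n ^ 2 + 7 * n + 1) ≤ H ^ (12 * n ^ 2) := by
    apply pow_le_pow_right₀ hH1
    have h1 : n ≤ n ^ 2 := by rw [pow_two]; exact Nat.le_mul_self n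
    have h2 : 1 ≤ n ^ 2 := hn.trans h1
    omega
  rw [inv_le_iff_one_le_mul₀ (by positivity)]
  calc (1 : ℝ) ≤ |aeval ξ P| * H ^ (3 * n ^ 2 + 7 * n + 1) := h9
    _ ≤ |aeval ξ P| * H ^ (12 * n ^ 2) := mul_le_mul_of_nonneg_left h10 hA0

end Pool.Agent.TNum
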