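import Mathlib
import Pool.Agent.TNum.Good
import Pool.Agent.TNum.R3
import Pool.Agent.TNum.Gap

set_option autoImplicit false

namespace Pool.Agent.TNum

open Polynomial Finset

/-- The point `β + c / e^L` is `xi`. -/
theorem xi_eq (m e L : ℕ) (he : 1 ≤ e) (c : ℤ) :
    gam m (e ^ (L + 1)) + 1 / (e : ℝ) ^ (L + 1) + (c : ℝ) / (e : ℝ) ^ L =
      xi m (e ^ (L + 1)) (1 + e * c) := by
  have he' : (e : ℝ) ≠ 0 := by exact_mod_cast (by omega : e ≠ 0)
  rw [xi]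
  push_cast
  rw [pow_succ]
  field_simp
  ring

/-- All irreducible polynomials are under control at `ξ`. -/
theorem control_at_xi (N m T : ℕ) (hN : 1 ≤ N) (hm : 2 ≤ m) (a b : ℝ) (ha : 1 ≤ a) (hab : a < b)
    (hb : b ≤ 3) (B : ℕ → ℕ) (hB3 : ∀ n ∈ Finset.Icc 1 N, 3 ≤ B n)
    (hBM : ∀ n ∈ Finset.Icc 1 N, 16 * n * N * ((B n : ℝ) ^ (4 * n))⁻¹ ≤ b - a) :
    ∃ K : ℝ, ∀ e : ℕ, K < e → 1 ≤ e → ∃ c : ℤ,
      a ≤ xi m (e ^ (2 * N + 6)) (1 + e * c) ∧ xi m (e ^ (2 * N + 6)) (1 + e * c) ≤ (a + b) / 2 ∧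
      ∀ n ∈ Finset.Icc 1 N, ∀ P : ℤ[X], Irreducible P → P.natDegree = n → B n ≤ ht P →
        ht P ≤ e ^ T →
        (Pxi m ((e : ℤ) ^ (2 * N + 6)) (1 + e * c) = P ∨
          Pxi m ((e : ℤ) ^ (2 * N + 6)) (1 + e * c) = -P) ∨
        ((ht P : ℝ) ^ (12 * n ^ 2))⁻¹ ≤ |aeval (xi m (e ^ (2 * N + 6)) (1 + e * c)) P| := by
  classical
  obtain ⟨Kg, hgood⟩ := exists_good N hN a b ha hab hb B hB3 hBM
  have hK : ∀ n ∈ Finset.Icc 1 N, ∃ K : ℝ, 0 < K ∧
      ∀ (e L s : ℕ), 1 ≤ s → L + 1 ≤ 3 * s → K < e → 1 ≤ e → ∀ c : ℤ,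
      1 ≤ xi m (e ^ (L + 1)) (1 + e * c) → xi m (e ^ (L + 1)) (1 + e * c) ≤ 3 →
      ∀ P : ℤ[X], Irreducible P → P.natDegree = n → e ^ s ≤ ht P → ht P ≤ e ^ T →
        (Pxi m ((e : ℤ) ^ (L + 1)) (1 + e * c) = P ∨ Pxi m ((e : ℤ) ^ (L + 1)) (1 + e * c) = -P) ∨
        ((ht P : ℝ) ^ (12 * n ^ 2))⁻¹ ≤ |aeval (xi m (e ^ (L + 1)) (1 + e * c)) P| := by
    intro n hn
    obtain ⟨hn1, hnN⟩ := Finset.mem_Icc.mp hn
    rcases Nat.lt_or_ge n m with hlt | hge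
    · obtain ⟨K, hK, h⟩ := pade_part m n T hn1 hlt
      refine ⟨K, hK, ?_⟩
      intro e L s hs hL hKe he c h1 h3 P hP hPn hPs hPT
      right
      exact h e L s hs hL hKe he c h1 h3 P hP.ne_zero hPn hPs hPT
    · obtain ⟨K, hK, h⟩ := liouville_part m n hm hge
      refine ⟨K, hK, ?_⟩
      intro e L s hs hL hKe he c h1 h3 P hP hPn hPs hPT
      by_cases h0 : aeval (xi m (e ^ (L + 1)) (1 + e * c)) P = 0
      · left
        exact eq_Pxi_of_aeval_eq_zero hm he hP (by omega) h0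
      · right
        exact h e L s hs hL hKe he c h1 h3 P hP hPn hPs h0
  choose! K hKpos hKall using hK
  refine ⟨max Kg (∑ n ∈ Finset.Icc 1 N, K n), ?_⟩
  intro e hKe he
  have he1 : Kg < e := lt_of_le_of_lt (le_max_left _ _) hKe
  have he2 : ∀ n ∈ Finset.Icc 1 N, K n < e := by
    intro n hn
    have h1 : K n ≤ ∑ n ∈ Finset.Icc 1 N, K n :=
      Finset.single_le_sum (f := K) (fun i hi => (hKpos i hi).le) hn
    exact lt_of_le_of_lt (h1.trans (le_max_right _ _)) hKe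
  obtain ⟨c, hc1, hc2, hc3⟩ := hgood e he1 (gam m (e ^ (2 * N + 5 + 1)) + 1 / (e : ℝ) ^ (2 * N + 5 + 1))
  rw [xi_eq m e (2 * N + 5) he c] at hc1 hc2
  refine ⟨c, hc1, hc2, ?_⟩
  intro n hn P hP hPn hPB hPT
  have hc4 := hc3 n hn P hP hPn hPB
  rw [xi_eq m e (2 * N + 5) he c] at hc4
  rcases Nat.le_or_ge (ht P) (e ^ (N + 2)) with hle | hge
  · right
    exact (hc4 hle).le
  · exact hKall n hn e (2 * N + 5) (N + 2) (by omega) (by omega) (he2 n hn) he c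
      (by linarith) (by linarith) P hP hPn hge hPT

/-- The exceptional polynomials on the interval to the right of `ξ` -/
def Exc (e T n : ℕ) (ξ : ℝ) (P : ℤ[X]) : Prop :=
  Irreducible P ∧ P.natDegree = n ∧ ht P ≤ e ^ (T / (3 * n)) ∧
    (e : ℝ) ^ T < 2 * ((n + 1) * n * 3 ^ n) * (ht P : ℝ) ^ (12 * n ^ 2 + 1) ∧
    ∃ x : ℝ, ξ ≤ x ∧ x ≤ ξ + ((e : ℝ) ^ T)⁻¹ ∧ |aeval x P| < ((ht P : ℝ) ^ (26 * n ^ 2))⁻¹

theorem exists_avoid (e T N : ℕ) (ξ : ℝ) : ∃ Z : Finset ℝ, Z.card ≤ N ^ 2 ∧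
    ∀ n ∈ Finset.Icc 1 N, (∃ P, Exc e T n ξ P) → ∃ P, Exc e T n ξ P ∧
      ∀ α ∈ (P.map (algebraMap ℤ ℂ)).roots, α.re ∈ Z := by
  classical
  set f : ℕ → Finset ℝ := fun n => if h : ∃ P, Exc e T n ξ P then
    ((h.choose).map (algebraMap ℤ ℂ)).roots.toFinset.image Complex.re else ∅ with hf
  refine ⟨(Finset.Icc 1 N).biUnion f, ?_, ?_⟩
  · have h1 : ∀ n ∈ Finset.Icc 1 N, (f n).card ≤ N := by
      intro n hn
      obtain ⟨hn1, hnN⟩ := Finset.mem_Icc.mp hn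
      simp only [hf]
      split_ifs with h
      · refine Finset.card_image_le.trans ?_
        refine (Multiset.toFinset_card_le _).trans ?_
        refine (Polynomial.card_roots' _).trans ?_
        refine natDegree_map_le.trans ?_
        rw [h.choose_spec.2.1]
        exact hnN
      · simp
    calc ((Finset.Icc 1 N).biUnion f).card ≤ ∑ n ∈ Finset.Icc 1 N, (f n).card :=
          Finset.card_biUnion_le
      _ ≤ ∑ _n ∈ Finset.Icc 1 N, N := Finset.sum_le_sum h1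
      _ = N ^ 2 := by rw [Finset.sum_const, Nat.card_Icc]; simp [pow_two]
  · intro n hn h
    refine ⟨h.choose, h.choose_spec, ?_⟩
    intro α hα
    rw [Finset.mem_biUnion]
    refine ⟨n, hn, ?_⟩
    simp only [hf, dif_pos h]
    rw [Finset.mem_image]
    exact ⟨α, Multiset.mem_toFinset.mpr hα, rfl⟩

set_option maxHeartbeats 4000000 in
theorem step (N m : ℕ) (hN : 1 ≤ N) (hm : 2 ≤ m) (a b : ℝ) (ha : 1 ≤ a) (hab : a < b) (hb : b ≤ 3)
    (B : ℕ → ℕ) (hB3 : ∀ n ∈ Finset.Icc 1 N, 3 ≤ B n)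
    (hBM : ∀ n ∈ Finset.Icc 1 N, 16 * n * N * ((B n : ℝ) ^ (4 * n))⁻¹ ≤ b - a) (Y : ℕ) :
    ∃ (a' b' : ℝ) (B' : ℕ → ℕ) (F : ℤ[X]), a ≤ a' ∧ a' < b' ∧ b' ≤ b ∧
      (∀ n ∈ Finset.Icc 1 (N + 1), 3 ≤ B' n ∧ Y ≤ B' n) ∧
      (∀ n ∈ Finset.Icc 1 (N + 1),
        16 * n * ((N + 1 : ℕ) : ℝ) * ((B' n : ℝ) ^ (4 * n))⁻¹ ≤ b' - a') ∧
      (∀ n ∈ Finset.Icc 1 N, ∀ P : ℤ[X], Irreducible P → P.natDegree = n → B n ≤ ht P →
        ht P < B' n → ∀ x : ℝ, a' ≤ x → x ≤ b' → ((ht P : ℝ) ^ (26 * n ^ 2))⁻¹ ≤ |aeval x P|) ∧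
      F.natDegree = m ∧ Y ≤ ht F ∧
      ∀ x : ℝ, a' ≤ x → x ≤ b' → aeval x F ≠ 0 ∧ |aeval x F| ≤ ((ht F : ℝ) ^ (m ^ 2))⁻¹ := by
  classical
  obtain ⟨T, hT⟩ : ∃ T : ℕ, T = (2 * N + 6) * m * (m ^ 2 + 2) := ⟨_, rfl⟩
  have hT24 : 24 * N + 72 ≤ T := by
    rw [hT]
    have h1 : 6 ≤ m ^ 2 + 2 := by nlinarith
    calc 24 * N + 72 = (2 * N + 6) * 2 * 6 := by ring
      _ ≤ (2 * N + 6) * m * (m ^ 2 + 2) := by gcongr
  obtain ⟨Kc, hctrl⟩ := control_at_xi N m T hN hm a b ha hab hb B hB3 hBM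
  choose! Ku hKupos hKu using fun n (hn : 1 ≤ n) => caseB hn
  -- the size of e
  obtain ⟨KN, hKN⟩ : ∃ KN : ℝ, KN = (N + 1) * N * 3 ^ N := ⟨_, rfl⟩
  obtain ⟨Km, hKm⟩ : ∃ Km : ℝ, Km = (m + 1) * m * 3 ^ m := ⟨_, rfl⟩
  have hN' : (1 : ℝ) ≤ N := by exact_mod_cast hN
  have hKN0 : 0 < KN := by rw [hKN]; positivity
  have hKm0 : 0 < Km := by rw [hKm]; positivity
  have hab0 : 0 < b - a := by linarith
  obtain ⟨e, he⟩ := exists_nat_gt (max Kc 0 + ∑ n ∈ Finset.Icc 1 N, Ku n + 3 + Y + 2 / (b - a) +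
    16 * (N + 1) * (N + 1) * (8 * (N ^ 2 + 1)) + 2 * KN * (8 * N ^ 2 + 9) ^ N +
    Km * (6 ^ m + 2) ^ (m ^ 2 + 1))
  have q0 : 0 ≤ max Kc 0 := le_max_right _ _
  have q1 : 0 ≤ ∑ n ∈ Finset.Icc 1 N, Ku n :=
    Finset.sum_nonneg fun n hn => (hKupos n (Finset.mem_Icc.mp hn).1).le
  have q2 : (0 : ℝ) ≤ Y := Nat.cast_nonneg _
  have q3 : 0 ≤ 2 / (b - a) := by positivity
  have q4 : (0 : ℝ) ≤ 16 * (N + 1) * (N + 1) * (8 * (N ^ 2 + 1)) := by positivity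
  have q5 : (0 : ℝ) ≤ 2 * KN * (8 * N ^ 2 + 9) ^ N := by positivity
  have q6 : (0 : ℝ) ≤ Km * (6 ^ m + 2) ^ (m ^ 2 + 1) := by positivity
  have heKc : Kc < e := by have := le_max_left Kc 0; linarith
  have heKu : ∀ n ∈ Finset.Icc 1 N, Ku n < e := by
    intro n hn
    have h1 : Ku n ≤ ∑ n ∈ Finset.Icc 1 N, Ku n :=
      Finset.single_le_sum (f := Ku) (fun i hi => (hKupos i (Finset.mem_Icc.mp hi).1).le) hn
    linarith
  have he3r : (3 : ℝ) < e := by linarith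
  have he3 : 3 ≤ e := by exact_mod_cast he3r.le
  have heY : Y ≤ e := by
    have : (Y : ℝ) ≤ e := by linarith
    exact_mod_cast this
  have heab : 2 / (b - a) ≤ e := by linarith
  have heM : (16 : ℝ) * (N + 1) * (N + 1) * (8 * (N ^ 2 + 1)) ≤ e := by linarith
  have heR : 2 * KN * (8 * N ^ 2 + 9) ^ N ≤ e := by linarith
  have heF : Km * (6 ^ m + 2) ^ (m ^ 2 + 1) ≤ e := by linarith
  clear he
  have he1 : 1 ≤ e := by omega
  have he1r : (1 : ℝ) ≤ e := by linarith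
  have hepos : (0 : ℝ) < e := by linarith
  obtain ⟨c, hca, hcb, hctl⟩ := hctrl e heKc he1
  set D : ℕ := e ^ (2 * N + 6) with hD
  have hD1 : 1 ≤ D := Nat.one_le_pow _ _ he1
  have heD : e ≤ D := by rw [hD]; exact Nat.le_self_pow (by omega) e
  have hDr : (2 : ℝ) ≤ D := by exact_mod_cast (by omega : 2 ≤ D)
  set u : ℤ := 1 + e * c with hu
  set ξ : ℝ := xi m D u with hξ
  have hDZ : ((e : ℤ) ^ (2 * N + 6)) = (D : ℤ) := by rw [hD]; push_cast; rfl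
  rw [hDZ] at hctl
  set F : ℤ[X] := Pxi m (D : ℤ) u with hF
  have hFdeg : F.natDegree = m := natDegree_Pxi (by omega) (by exact_mod_cast hD1) u
  have hξ1 : 1 ≤ ξ := by linarith
  have hξ3 : ξ ≤ 3 := by linarith
  obtain ⟨E, hE⟩ : ∃ E : ℝ, E = (e : ℝ) ^ T := ⟨_, rfl⟩
  have hT1 : T ≠ 0 := by omega
  have heE : (e : ℝ) ≤ E := by rw [hE]; exact le_self_pow₀ he1r hT1
  have hEpos : 0 < E := by linarith
  obtain ⟨δ, hδ⟩ : ∃ δ : ℝ, δ = E⁻¹ := ⟨_, rfl⟩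
  have hδpos : 0 < δ := by rw [hδ]; positivity
  have hδE : δ * E = 1 := by rw [hδ]; field_simp
  have hδab : δ ≤ (b - a) / 2 := by
    have h1 : 2 / (b - a) ≤ E := heab.trans heE
    rw [div_le_iff₀ hab0] at h1
    rw [hδ, inv_le_iff_one_le_mul₀ hEpos]
    linarith
  -- avoid real parts of roots of exceptional polynomials
  obtain ⟨Z, hZcard, hZ⟩ := exists_avoid e T N ξ
  obtain ⟨a', ha'1, ha'2, ha'3⟩ := gap_lemma Z (N ^ 2) hZcard ξ δ hδpos
  obtain ⟨η, hη⟩ : ∃ η : ℝ, η = δ / (8 * (((N ^ 2 : ℕ) : ℝ) + 1)) := ⟨_, rfl⟩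
  rw [← hη] at ha'2 ha'3
  have hηpos : 0 < η := by rw [hη]; positivity
  have hδη : δ / η = 8 * (N ^ 2 + 1) := by rw [hη]; push_cast; field_simp
  have hx_range : ∀ x : ℝ, a' ≤ x → x ≤ a' + η → ξ + δ / 2 ≤ x ∧ x ≤ ξ + δ ∧ |x| ≤ 3 ∧
      |x - ξ| ≤ δ := by
    intro x h1 h2
    have h3 : ξ + δ / 2 ≤ x := by linarith
    have h4 : x ≤ ξ + δ := by linarith
    refine ⟨h3, h4, ?_, ?_⟩
    · rw [abs_of_nonneg (by linarith)]; linarith
    · rw [abs_of_nonneg (by linarith)]; linarith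
  have hdivT : ∀ n ∈ Finset.Icc 1 N, 1 ≤ T / (3 * n) ∧ T + 1 ≤ T / (3 * n) * (4 * n) ∧
      2 * n * (T / (3 * n)) + 1 ≤ T := by
    intro n hn
    obtain ⟨hn1, hnN⟩ := Finset.mem_Icc.mp hn
    have h1 : 3 * n * (T / (3 * n)) ≤ T := Nat.mul_div_le T (3 * n)
    have h2 : T < 3 * n * (T / (3 * n) + 1) := Nat.lt_mul_div_succ T (by omega)
    obtain ⟨p, hp⟩ : ∃ p, p = n * (T / (3 * n)) := ⟨_, rfl⟩
    have h1' : 3 * p ≤ T := by rw [hp]; linarith
    have h2' : T < 3 * p + 3 * n := by rw [hp]; linarith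
    have h3 : T / (3 * n) * (4 * n) = 4 * p := by rw [hp]; ring
    have h4 : 2 * n * (T / (3 * n)) = 2 * p := by rw [hp]; ring
    refine ⟨?_, ?_, ?_⟩
    · rw [Nat.one_le_div_iff (by omega)]; omega
    · rw [h3]; omega
    · rw [h4]; omega
  set B' : ℕ → ℕ := fun n => if n ≤ N then e ^ (T / (3 * n)) else e ^ T with hB'
  refine ⟨a', a' + η, B', F, by linarith, by linarith, by linarith, ?_, ?_, ?_, hFdeg, ?_, ?_⟩
  · -- lower bounds on B'
    intro n hn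
    obtain ⟨hn1, hnN⟩ := Finset.mem_Icc.mp hn
    have h1 : e ≤ B' n := by
      simp only [hB']
      split_ifs with h
      · exact Nat.le_self_pow (by have := (hdivT n (Finset.mem_Icc.mpr ⟨hn1, h⟩)).1; omega) e
      · exact Nat.le_self_pow hT1 e
    exact ⟨he3.trans h1, heY.trans h1⟩
  · -- measure condition
    intro n hn
    obtain ⟨hn1, hnN⟩ := Finset.mem_Icc.mp hn
    have hnN' : (n : ℝ) ≤ N + 1 := by exact_mod_cast hnN
    have h1 : E * e ≤ (B' n : ℝ) ^ (4 * n) := by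
      have h2 : ∃ p : ℕ, (B' n : ℝ) ^ (4 * n) = (e : ℝ) ^ p ∧ T + 1 ≤ p := by
        simp only [hB']
        split_ifs with h
        · refine ⟨T / (3 * n) * (4 * n), ?_, (hdivT n (Finset.mem_Icc.mpr ⟨hn1, h⟩)).2.1⟩
          push_cast
          rw [← pow_mul]
        · refine ⟨T * (4 * n), ?_, ?_⟩
          · push_cast
            rw [← pow_mul]
          · have : T * 4 ≤ T * (4 * n) := Nat.mul_le_mul_left T (by omega)
            omega
      obtain ⟨p, hp1, hp2⟩ := h2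
      rw [hp1, hE, ← pow_succ]
      exact pow_le_pow_right₀ he1r hp2
    have h3 : ((B' n : ℝ) ^ (4 * n))⁻¹ ≤ (E * e)⁻¹ := inv_anti₀ (by positivity) h1
    have h4 : (a' + η) - a' = η := by ring
    rw [h4]
    have hpos : (0 : ℝ) ≤ 16 * n * ((N + 1 : ℕ) : ℝ) := by positivity
    refine (mul_le_mul_of_nonneg_left h3 hpos).trans ?_
    rw [hη, hδ, le_div_iff₀ (by positivity), mul_inv]
    have h5 : (16 : ℝ) * n * ((N + 1 : ℕ) : ℝ) * (8 * (((N ^ 2 : ℕ) : ℝ) + 1)) ≤ e := by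
      push_cast
      refine le_trans ?_ heM
      gcongr
    calc (16 : ℝ) * n * ((N + 1 : ℕ) : ℝ) * (E⁻¹ * (e : ℝ)⁻¹) * (8 * (((N ^ 2 : ℕ) : ℝ) + 1))
        = ((16 : ℝ) * n * ((N + 1 : ℕ) : ℝ) * (8 * (((N ^ 2 : ℕ) : ℝ) + 1))) *
          (e : ℝ)⁻¹ * E⁻¹ := by ring
      _ ≤ e * (e : ℝ)⁻¹ * E⁻¹ := by gcongr
      _ = E⁻¹ := by field_simp
  · -- the main lower bound
    intro n hn P hP hPn hPB hPB' x hx1 hx2
    obtain ⟨hn1, hnN⟩ := Finset.mem_Icc.mp hn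
    obtain ⟨hxl, hxu, hx3, hxξ⟩ := hx_range x hx1 hx2
    have hτ := hdivT n hn
    have hPB'' : ht P ≤ e ^ (T / (3 * n)) := by
      simp only [hB', if_pos hnN] at hPB'
      exact hPB'.le
    have hPT : ht P ≤ e ^ T := by
      refine hPB''.trans ?_
      exact Nat.pow_le_pow_right he1 (Nat.div_le_self _ _)
    rcases hctl n hn P hP hPn hPB hPT with hPF | hPξ
    · -- P = ± F
      have h1 : |aeval x P| = |aeval x F| ∧ ht P = ht F := by
        rcases hPF with h | h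
        · rw [h]; exact ⟨rfl, rfl⟩
        · have hP' : P = -F := by rw [h]; simp
          rw [hP', ht_neg]
          simp
      have hnm : n = m := by
        rw [← hPn, ← hFdeg]
        rcases hPF with h | h
        · rw [h]
        · rw [h, natDegree_neg]
      rw [h1.1, h1.2, hnm]
      have h2 := Pxi_lower (by omega : 1 ≤ m) hD1 u (x := x) (by linarith)
      rw [← hξ, ← hF] at h2
      have h3 : δ ≤ D * (x - ξ) := by
        calc δ = 2 * (δ / 2) := by ring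
          _ ≤ D * (x - ξ) := mul_le_mul hDr (by linarith) (by linarith) (by linarith)
      have h4 : δ ≤ |aeval x F| := by
        refine le_trans (h3.trans h2) (le_abs_self _)
      refine le_trans ?_ h4
      rw [hδ, hE]
      apply inv_anti₀ (by positivity)
      have h5 : (e : ℝ) ^ ((2 * N + 6) * m) ≤ ht F := by
        have h6 := pow_le_ht_Pxi (by omega : 1 ≤ m) D u
        rw [← hF, hD, ← pow_mul] at h6
        exact_mod_cast h6
      calc (e : ℝ) ^ T ≤ ((e : ℝ) ^ ((2 * N + 6) * m)) ^ (26 * m ^ 2) := by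
            rw [← pow_mul]
            apply pow_le_pow_right₀ he1r
            rw [hT]
            apply Nat.mul_le_mul_left
            have : 1 ≤ m ^ 2 := Nat.one_le_pow _ _ (by omega)
            omega
        _ ≤ (ht F : ℝ) ^ (26 * m ^ 2) := pow_le_pow_left₀ (by positivity) h5 _
    · by_cases hA : 2 * ((n + 1) * n * 3 ^ n) * (ht P : ℝ) ^ (12 * n ^ 2 + 1) ≤ E
      · apply caseA hn1 hPn ((hB3 n hn).trans hPB) hx3
          (by rw [abs_of_nonneg (by linarith)]; exact hξ3) hxξ hPξ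
        calc _ ≤ E * δ := mul_le_mul_of_nonneg_right hA hδpos.le
          _ = 1 := by rw [mul_comm]; exact hδE
      · push Not at hA
        by_contra hcon
        push Not at hcon
        have hexc : Exc e T n ξ P :=
          ⟨hP, hPn, hPB'', by rw [← hE]; exact hA, x, by linarith, by rw [← hE, ← hδ]; exact hxu,
            hcon⟩
        obtain ⟨P', hexc', hroots⟩ := hZ n hn ⟨P, hexc⟩
        obtain ⟨hP', hPn', hPt', hPE', x', hx'1, hx'2, hx'3⟩ := hexc'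
        rw [← hE, ← hδ] at hx'2
        have hx'abs : |x'| ≤ 3 := by rw [abs_of_nonneg (by linarith)]; linarith
        have hxx' : |x - x'| ≤ ((e : ℝ) ^ T)⁻¹ := by
          rw [← hE, ← hδ, abs_le]; constructor <;> linarith
        have hPP' := hKu n hn1 e T (T / (3 * n)) (heKu n hn) he1 hτ.2.2 x x' hx3 hx'abs hxx'
          P P' hP hP' hPn hPn' hPB'' hPt' (by rw [← hE]; exact hA) hPE' hcon hx'3
        have hroots' : ∀ α ∈ (P.map (algebraMap ℤ ℂ)).roots, η ≤ |x - α.re| := by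
          intro α hα
          apply ha'3 _ _ x hx1 hx2
          apply hroots
          rcases hPP' with h | h
          · rw [h]; exact hα
          · rw [h, Polynomial.map_neg, roots_neg]; exact hα
        have hrem := remez P x ξ δ η hηpos hδpos.le (by rw [abs_sub_comm]; exact hxξ) hroots'
        rw [hPn, hδη] at hrem
        have hHpos : (1 : ℝ) ≤ ht P := by exact_mod_cast one_le_ht hP.ne_zero
        obtain ⟨H, hH⟩ : ∃ H : ℝ, H = (ht P : ℝ) := ⟨_, rfl⟩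
        rw [← hH] at hA hcon hPξ hHpos
        -- contradiction
        have h1 : (1 + 8 * ((N : ℝ) ^ 2 + 1)) ^ n ≤ (8 * N ^ 2 + 9) ^ N := by
          have h2 : (1 + 8 * ((N : ℝ) ^ 2 + 1)) = 8 * N ^ 2 + 9 := by ring
          rw [h2]
          have h2' : (0 : ℝ) ≤ (N : ℝ) ^ 2 := sq_nonneg _
          exact pow_le_pow_right₀ (by linarith) hnN
        have hnN' : (n : ℝ) ≤ N := by exact_mod_cast hnN
        have hKn : ((n : ℝ) + 1) * n * 3 ^ n ≤ KN := by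
          rw [hKN]
          have : (3 : ℝ) ^ n ≤ 3 ^ N := pow_le_pow_right₀ (by norm_num) hnN
          gcongr
        have h3 : (8 * (N : ℝ) ^ 2 + 9) ^ N < H ^ (12 * n ^ 2 + 1) := by
          have h4 : 2 * KN * (8 * N ^ 2 + 9) ^ N < 2 * KN * H ^ (12 * n ^ 2 + 1) := by
            calc 2 * KN * (8 * N ^ 2 + 9) ^ N ≤ E := heR.trans heE
              _ < 2 * (((n : ℝ) + 1) * n * 3 ^ n) * H ^ (12 * n ^ 2 + 1) := hA
              _ ≤ 2 * KN * H ^ (12 * n ^ 2 + 1) := by gcongr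
          exact lt_of_mul_lt_mul_left h4 (by positivity)
        have h5 : H ^ (12 * n ^ 2 + 1) ≤ H ^ (14 * n ^ 2) := by
          apply pow_le_pow_right₀ hHpos
          have : 1 ≤ n ^ 2 := Nat.one_le_pow _ _ hn1
          omega
        have h6 : (1 + 8 * ((N : ℝ) ^ 2 + 1)) ^ n * |aeval x P| <
            H ^ (14 * n ^ 2) * (H ^ (26 * n ^ 2))⁻¹ := by
          have hp : (0 : ℝ) < (1 + 8 * ((N : ℝ) ^ 2 + 1)) ^ n := by positivity
          have h7 : (1 + 8 * ((N : ℝ) ^ 2 + 1)) ^ n ≤ H ^ (14 * n ^ 2) := by linarith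
          calc (1 + 8 * ((N : ℝ) ^ 2 + 1)) ^ n * |aeval x P| <
              (1 + 8 * ((N : ℝ) ^ 2 + 1)) ^ n * (H ^ (26 * n ^ 2))⁻¹ :=
                mul_lt_mul_of_pos_left hcon hp
            _ ≤ _ := mul_le_mul_of_nonneg_right h7 (by positivity)
        have h8 : H ^ (14 * n ^ 2) * (H ^ (26 * n ^ 2))⁻¹ = (H ^ (12 * n ^ 2))⁻¹ := by
          have : H ^ (26 * n ^ 2) = H ^ (14 * n ^ 2) * H ^ (12 * n ^ 2) := by
            rw [← pow_add]; congr 1; ring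
          rw [this, mul_inv, ← mul_assoc, mul_inv_cancel₀ (by positivity), one_mul]
        linarith
  · -- ht F is large
    have h1 := pow_le_ht_Pxi (by omega : 1 ≤ m) D u
    rw [← hF] at h1
    calc Y ≤ e := heY
      _ ≤ D := heD
      _ ≤ D ^ m := Nat.le_self_pow (by omega) D
      _ ≤ ht F := h1
  · -- F is small
    intro x hx1 hx2
    obtain ⟨hxl, hxu, hx3, hxξ⟩ := hx_range x hx1 hx2
    have h2 := Pxi_lower (by omega : 1 ≤ m) hD1 u (x := x) (by linarith)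
    rw [← hξ, ← hF] at h2
    have h3 : 0 < aeval x F := by
      have : 0 < (D : ℝ) * (x - ξ) := mul_pos (by linarith) (by linarith)
      linarith
    refine ⟨h3.ne', ?_⟩
    have h0 : aeval ξ F = 0 := aeval_xi_Pxi (by omega) hD1 u
    have h4 := abs_aeval_sub_le F hFdeg.le (by norm_num : (1 : ℝ) ≤ 3) hx3
      (by rw [abs_of_nonneg (by linarith)]; exact hξ3 : |ξ| ≤ 3)
    rw [h0, sub_zero, ← hKm] at h4
    have hFne : F ≠ 0 := by rintro h; rw [h] at hFdeg; simp at hFdeg; omega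
    have hH1 : (1 : ℝ) ≤ ht F := by exact_mod_cast one_le_ht hFne
    have hHub := ht_Pxi_le (by omega : 1 ≤ m) hD1 (abs_u_le (by omega) hD1 hξ1 hξ3)
    rw [← hF] at hHub
    obtain ⟨H, hH⟩ : ∃ H : ℝ, H = (ht F : ℝ) := ⟨_, rfl⟩
    rw [← hH] at h4 hH1 hHub ⊢
    have h5 : |aeval x F| ≤ Km * H * δ := h4.trans (by gcongr)
    refine h5.trans ?_
    have hHp : 0 < H ^ (m ^ 2) := by positivity
    rw [← one_div, le_div_iff₀ hHp]
    have h6 : Km * H ^ (m ^ 2 + 1) ≤ E := by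
      have h7 : (D : ℝ) ^ m = (e : ℝ) ^ ((2 * N + 6) * m) := by
        rw [hD]; push_cast; rw [← pow_mul]
      calc Km * H ^ (m ^ 2 + 1) ≤ Km * ((6 ^ m + 2) * (D : ℝ) ^ m) ^ (m ^ 2 + 1) := by gcongr
        _ = (Km * (6 ^ m + 2) ^ (m ^ 2 + 1)) * (e : ℝ) ^ ((2 * N + 6) * m * (m ^ 2 + 1)) := by
            rw [mul_pow, h7, ← pow_mul]; ring
        _ ≤ (e : ℝ) ^ ((2 * N + 6) * m) * (e : ℝ) ^ ((2 * N + 6) * m * (m ^ 2 + 1)) := by
            apply mul_le_mul_of_nonneg_right _ (by positivity)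
            refine heF.trans ?_
            apply le_self_pow₀ he1r
            have : 1 ≤ m := by omega
            positivity
        _ = E := by
            rw [hE, hT, ← pow_add]; congr 1; ring
    calc Km * H * δ * H ^ (m ^ 2) = (Km * H ^ (m ^ 2 + 1)) * δ := by rw [pow_succ]; ring
      _ ≤ E * δ := by gcongr
      _ = 1 := by rw [mul_comm]; exact hδE

end Pool.Agent.TNum
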