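import Mathlib
import Pool.Agent.TNum.Step
import Pool.Agent.TNum.Mahler

set_option autoImplicit false

namespace Pool.Agent.TNum

open Polynomial Finset

/-- state of the construction -/
structure St where
  a : ℝ
  b : ℝ
  B : ℕ → ℕ

instance : Inhabited St := ⟨⟨1, 3, fun _ => 3⟩⟩

/-- validity of a state at level `N` -/
def Valid (N : ℕ) (S : St) : Prop :=
  1 ≤ S.a ∧ S.a < S.b ∧ S.b ≤ 3 ∧ (∀ n ∈ Finset.Icc 1 N, 3 ≤ S.B n) ∧
    ∀ n ∈ Finset.Icc 1 N, 16 * (n : ℝ) * (N : ℝ) * ((S.B n : ℝ) ^ (4 * n))⁻¹ ≤ S.b - S.a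

/-- the relation between consecutive states -/
def Rel (N m Y : ℕ) (S S' : St) (F : ℤ[X]) : Prop :=
  S.a ≤ S'.a ∧ S'.b ≤ S.b ∧ (∀ n ∈ Finset.Icc 1 (N + 1), Y ≤ S'.B n) ∧
  (∀ n ∈ Finset.Icc 1 N, ∀ P : ℤ[X], Irreducible P → P.natDegree = n → S.B n ≤ ht P →
    ht P < S'.B n → ∀ x : ℝ, S'.a ≤ x → x ≤ S'.b → ((ht P : ℝ) ^ (26 * n ^ 2))⁻¹ ≤ |aeval x P|) ∧
  F.natDegree = m ∧ Y ≤ ht F ∧
  ∀ x : ℝ, S'.a ≤ x → x ≤ S'.b → aeval x F ≠ 0 ∧ |aeval x F| ≤ ((ht F : ℝ) ^ (m ^ 2))⁻¹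

theorem step' (j : ℕ) (S : St) (hS : Valid (j + 1) S) :
    ∃ (S' : St) (F : ℤ[X]), Valid (j + 2) S' ∧ Rel (j + 1) ((Nat.unpair j).1 + 2) j S S' F := by
  obtain ⟨h1, h2, h3, h4, h5⟩ := hS
  obtain ⟨a', b', B', F, g1, g2, g3, g4, g5, g6, g7, g8, g9⟩ :=
    step (j + 1) ((Nat.unpair j).1 + 2) (by omega) (by omega) S.a S.b h1 h2 h3 S.B h4 h5 j
  refine ⟨⟨a', b', B'⟩, F, ⟨h1.trans g1, g2, g3.trans h3, fun n hn => (g4 n hn).1, ?_⟩,
    g1, g3, fun n hn => (g4 n hn).2, g6, g7, g8, g9⟩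
  intro n hn
  exact g5 n hn

theorem exists_xi : ∃ (ξ : ℝ) (b₀ : ℕ → ℕ) (F : ℕ → ℤ[X]),
    (∀ n : ℕ, 1 ≤ n → ∀ P : ℤ[X], Irreducible P → P.natDegree = n → b₀ n ≤ ht P →
      ((ht P : ℝ) ^ (26 * n ^ 2))⁻¹ ≤ |aeval ξ P|) ∧
    (∀ j, (F j).natDegree = (Nat.unpair j).1 + 2 ∧ j ≤ ht (F j) ∧ aeval ξ (F j) ≠ 0 ∧
      |aeval ξ (F j)| ≤ ((ht (F j) : ℝ) ^ (((Nat.unpair j).1 + 2) ^ 2))⁻¹) := by
  classical
  choose! nxt G hval hrel using step'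
  set s : ℕ → St := fun j => Nat.rec (motive := fun _ => St) ⟨1, 3, fun _ => 3⟩
    (fun j S => nxt j S) j with hs
  have hs0 : s 0 = ⟨1, 3, fun _ => 3⟩ := rfl
  have hsS : ∀ j, s (j + 1) = nxt j (s j) := fun j => rfl
  have hvalid : ∀ j, Valid (j + 1) (s j) := by
    intro j
    induction j with
    | zero =>
      rw [hs0]
      refine ⟨le_rfl, by norm_num, le_rfl, fun n _ => le_rfl, ?_⟩
      intro n hn
      have : n = 1 := by simp at hn; omega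
      subst this
      norm_num
    | succ j ih =>
      rw [hsS]
      exact hval j (s j) ih
  have hR : ∀ j, Rel (j + 1) ((Nat.unpair j).1 + 2) j (s j) (s (j + 1)) (G j (s j)) := by
    intro j
    rw [hsS]
    exact hrel j (s j) (hvalid j)
  have hmono : Monotone fun j => (s j).a := monotone_nat_of_le_succ fun j => (hR j).1
  have hanti : Antitone fun j => (s j).b := antitone_nat_of_succ_le fun j => (hR j).2.1
  have hle : (fun j => (s j).a) ≤ fun j => (s j).b := fun j => (hvalid j).2.1.le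
  have hmem := hmono.ciSup_mem_iInter_Icc_of_antitone hanti hle
  set ξ : ℝ := ⨆ j, (s j).a with hξ
  have hξmem : ∀ j, (s j).a ≤ ξ ∧ ξ ≤ (s j).b := by
    intro j
    have := Set.mem_iInter.mp hmem j
    exact this
  refine ⟨ξ, fun n => (s (n - 1)).B n, fun j => G j (s j), ?_, ?_⟩
  · intro n hn P hP hPn hPB
    -- find the right stage
    have hex : ∃ j, n ≤ j ∧ ht P < (s j).B n := by
      refine ⟨ht P + n + 2, by omega, ?_⟩
      have h1 := (hR (ht P + n + 1)).2.2.1 n (by rw [Finset.mem_Icc]; omega)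
      have h2 : ht P + n + 1 + 1 = ht P + n + 2 := by ring
      rw [h2] at h1
      omega
    set j := Nat.find hex with hj
    obtain ⟨hj1, hj2⟩ := Nat.find_spec hex
    rw [← hj] at hj1 hj2
    have hj3 : (s (j - 1)).B n ≤ ht P := by
      rcases Nat.eq_or_lt_of_le hj1 with heq | hlt
      · rw [← heq]; exact hPB
      · have := Nat.find_min hex (m := j - 1) (by omega)
        push Not at this
        exact this (by omega)
    have h1 : j - 1 + 1 = j := by omega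
    have h2 := (hR (j - 1)).2.2.2.1 n (by rw [Finset.mem_Icc]; omega) P hP hPn hj3
      (by rw [h1]; exact hj2) ξ (hξmem (j - 1 + 1)).1 (hξmem (j - 1 + 1)).2
    exact h2
  · intro j
    obtain ⟨_, _, _, _, h5, h6, h7⟩ := hR j
    obtain ⟨h8, h9⟩ := h7 ξ (hξmem (j + 1)).1 (hξmem (j + 1)).2
    exact ⟨h5, h6, h8, h9⟩

theorem transcendental_of {ξ : ℝ} {F : ℕ → ℤ[X]}
    (hF : ∀ j, (F j).natDegree = (Nat.unpair j).1 + 2 ∧ j ≤ ht (F j) ∧ aeval ξ (F j) ≠ 0 ∧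
      |aeval ξ (F j)| ≤ ((ht (F j) : ℝ) ^ (((Nat.unpair j).1 + 2) ^ 2))⁻¹) :
    Transcendental ℤ ξ := by
  intro halg
  obtain ⟨p, hp, hp0⟩ := halg
  obtain ⟨q, hq, hqn, hq0⟩ := exists_irreducible_factor_root hp hp0
  set D := q.natDegree with hD
  -- take m = D + 2
  set R : ℝ := max 1 |ξ| with hR
  have hR1 : 1 ≤ R := le_max_left _ _
  set C : ℝ := ((D + (D + 2)).factorial : ℝ) * (D + (D + 2)) * R ^ (D + (D + 2)) *
    (ht q : ℝ) ^ (D + 2) with hC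
  have hqpos : (0 : ℝ) < ht q := by exact_mod_cast ht_pos hq.ne_zero
  have hCpos : 0 < C := by positivity
  obtain ⟨t, ht'⟩ := exists_nat_gt C
  set j := Nat.pair D t with hj
  obtain ⟨h1, h2, h3, h4⟩ := hF j
  have hun : (Nat.unpair j).1 = D := by rw [hj, Nat.unpair_pair]
  rw [hun] at h1 h4
  set G := F j with hG
  have hcop : Cop q G := cop_of_eval hq hqn hq0 h3
  have key := res_bound q G (by omega) (by omega) hcop ξ R hR1 (le_max_right _ _)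
  rw [hq0, abs_zero, zero_mul, zero_mul, add_zero, h1, ← hD] at key
  have hGt : (t : ℝ) ≤ ht G := by
    have : t ≤ j := Nat.right_le_pair D t
    exact_mod_cast this.trans h2
  obtain ⟨H, hH⟩ : ∃ H : ℝ, H = (ht G : ℝ) := ⟨_, rfl⟩
  rw [← hH] at key h4 hGt
  have hHC : C < H := by linarith
  have hH1 : 1 ≤ H := by
    have : G ≠ 0 := by rintro h; rw [h] at h3; simp at h3
    rw [hH]; exact_mod_cast one_le_ht this
  have h5 : |aeval ξ G| * H ^ (D - 1) ≤ H⁻¹ := by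
    calc |aeval ξ G| * H ^ (D - 1) ≤ (H ^ ((D + 2) ^ 2))⁻¹ * H ^ (D - 1) := by gcongr
      _ ≤ (H ^ (D - 1 + 1))⁻¹ * H ^ (D - 1) := by
          apply mul_le_mul_of_nonneg_right _ (by positivity)
          apply inv_anti₀ (by positivity)
          apply pow_le_pow_right₀ hH1
          have : D ≤ D * D := Nat.le_mul_self D
          have : (D + 2) ^ 2 = D * D + 4 * D + 4 := by ring
          omega
      _ = H⁻¹ := by
          rw [pow_succ, mul_inv]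
          have : H ^ (D - 1) ≠ 0 := by positivity
          field_simp
  have h6 : 1 ≤ C * H⁻¹ := by
    refine key.trans ?_
    push_cast
    calc ((D + (D + 2)).factorial : ℝ) * ((D : ℝ) + ((D : ℝ) + 2)) * R ^ (D + (D + 2)) *
          (|aeval ξ G| * H ^ (D - 1) * (ht q : ℝ) ^ (D + 2))
        = C * (|aeval ξ G| * H ^ (D - 1)) := by rw [hC]; ring
      _ ≤ C * H⁻¹ := mul_le_mul_of_nonneg_left h5 hCpos.le
  rw [← div_eq_mul_inv, le_div_iff₀ (by linarith)] at h6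
  linarith

/-- lower bound for all polynomials -/
theorem lower_all {ξ : ℝ} (htr : Transcendental ℤ ξ) {b₀ : ℕ → ℕ}
    (hb : ∀ n : ℕ, 1 ≤ n → ∀ P : ℤ[X], Irreducible P → P.natDegree = n → b₀ n ≤ ht P →
      ((ht P : ℝ) ^ (26 * n ^ 2))⁻¹ ≤ |aeval ξ P|) (n : ℕ) :
    ∃ κ : ℝ, 0 < κ ∧ ∀ P : ℤ[X], P ≠ 0 → P.natDegree ≤ n →
      κ * ((ht P : ℝ) ^ (26 * n ^ 2))⁻¹ ≤ |aeval ξ P| := by
  classical
  have hne : ∀ P : ℤ[X], P ≠ 0 → aeval ξ P ≠ 0 := by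
    intro P hP h0
    exact htr ⟨P, hP, h0⟩
  set A : ℕ := (Finset.range (n + 1)).sup b₀ with hA
  obtain ⟨κ, hκ0, hκ1, hκ⟩ := exists_pos_lower (polys n A) ξ (fun P _ hP => hne P hP)
  apply all_of_irreducible ξ n (26 * n ^ 2) κ hκ0 hκ1
  intro P hP hPn0 hPn
  have hH1 : (1 : ℝ) ≤ ht P := by exact_mod_cast one_le_ht hP.ne_zero
  rcases Nat.lt_or_ge (ht P) (b₀ P.natDegree) with hlt | hge
  · have hAle : b₀ P.natDegree ≤ A := Finset.le_sup (f := b₀) (by simp; omega)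
    have h1 := hκ P (mem_polys hPn (hlt.le.trans hAle)) hP.ne_zero
    refine le_trans ?_ h1
    have h2 : ((ht P : ℝ) ^ (26 * n ^ 2))⁻¹ ≤ 1 := inv_le_one_of_one_le₀ (one_le_pow₀ hH1)
    nlinarith
  · have h1 := hb P.natDegree (by omega) P hP rfl hge
    refine le_trans ?_ h1
    have h2 : ((ht P : ℝ) ^ (26 * n ^ 2))⁻¹ ≤ ((ht P : ℝ) ^ (26 * P.natDegree ^ 2))⁻¹ := by
      apply inv_anti₀ (by positivity)
      apply pow_le_pow_right₀ hH1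
      gcongr
    have h3 : (0 : ℝ) ≤ ((ht P : ℝ) ^ (26 * n ^ 2))⁻¹ := by positivity
    nlinarith

theorem finite_of_lower {ξ : ℝ} (n : ℕ) {κ : ℝ} (hκ : 0 < κ)
    (h : ∀ P : ℤ[X], P ≠ 0 → P.natDegree ≤ n → κ * ((ht P : ℝ) ^ (26 * n ^ 2))⁻¹ ≤ |aeval ξ P|)
    (w : ℝ) (hw : ((26 * n ^ 2 : ℕ) : ℝ) < w) :
    Set.Finite {P : ℤ[X] | P ≠ 0 ∧ P.natDegree ≤ n ∧ |aeval ξ P| ≤ (ht P : ℝ) ^ (-w)} := by
  set ε : ℝ := w - ((26 * n ^ 2 : ℕ) : ℝ) with hε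
  have hε0 : 0 < ε := by rw [hε]; linarith
  apply Set.Finite.subset (Finset.finite_toSet (polys n ⌈(κ⁻¹) ^ (ε⁻¹)⌉₊))
  intro P hP
  obtain ⟨hP0, hPn, hPx⟩ := hP
  apply mem_polys hPn
  have h1 := h P hP0 hPn
  have hH1 : (1 : ℝ) ≤ ht P := by exact_mod_cast one_le_ht hP0
  obtain ⟨H, hH⟩ : ∃ H : ℝ, H = (ht P : ℝ) := ⟨_, rfl⟩
  rw [← hH] at h1 hPx hH1
  have hHpos : 0 < H := by linarith
  have h2 : κ * (H ^ (26 * n ^ 2))⁻¹ ≤ H ^ (-w) := h1.trans hPx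
  have h3 : H ^ ε ≤ κ⁻¹ := by
    have h4 : H ^ (-w) = (H ^ (26 * n ^ 2))⁻¹ * (H ^ ε)⁻¹ := by
      rw [← Real.rpow_natCast H (26 * n ^ 2), ← Real.rpow_neg hHpos.le, ← Real.rpow_neg hHpos.le,
        ← Real.rpow_add hHpos]
      congr 1
      rw [hε]; ring
    rw [h4] at h2
    have h5 : (0 : ℝ) < (H ^ (26 * n ^ 2))⁻¹ := by positivity
    have h6 : κ ≤ (H ^ ε)⁻¹ := by
      have : (H ^ (26 * n ^ 2))⁻¹ * κ ≤ (H ^ (26 * n ^ 2))⁻¹ * (H ^ ε)⁻¹ := by linarith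
      exact le_of_mul_le_mul_left this h5
    have h7 : 0 < H ^ ε := by positivity
    rw [le_inv_comm₀ hκ h7] at h6
    exact h6
  have h8 : H ≤ (κ⁻¹) ^ (ε⁻¹) := by
    calc H = (H ^ ε) ^ (ε⁻¹) := by
          rw [← Real.rpow_mul hHpos.le, mul_inv_cancel₀ hε0.ne', Real.rpow_one]
      _ ≤ (κ⁻¹) ^ (ε⁻¹) := Real.rpow_le_rpow (by positivity) h3 (by positivity)
  have h9 : (ht P : ℝ) ≤ (⌈(κ⁻¹) ^ (ε⁻¹)⌉₊ : ℝ) := by
    rw [← hH]
    exact h8.trans (Nat.le_ceil _)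
  exact_mod_cast h9

theorem main : ∃ ξ : ℝ, Transcendental ℤ ξ ∧
      (∀ n : ℕ, 1 ≤ n → ∃ W : ℝ,
        Set.Finite {P : Polynomial ℤ | P ≠ 0 ∧ P.natDegree ≤ n ∧
          |Polynomial.aeval ξ P| ≤ ((ht P : ℕ) : ℝ) ^ (-W)}) ∧
      (∀ M : ℝ, ∃ n : ℕ, 1 ≤ n ∧
        Set.Infinite {P : Polynomial ℤ | P ≠ 0 ∧ P.natDegree ≤ n ∧
          |Polynomial.aeval ξ P| ≤ ((ht P : ℕ) : ℝ) ^ (-(M * (n : ℝ)))}) ∧
      (∃ t : ℝ, t < 3 ∧ ∃ N : ℕ, ∀ n : ℕ, N ≤ n → ∀ w : ℝ, (n : ℝ) ^ t < w →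
        Set.Finite {P : Polynomial ℤ | P ≠ 0 ∧ P.natDegree ≤ n ∧
          |Polynomial.aeval ξ P| ≤ ((ht P : ℕ) : ℝ) ^ (-w)}) := by
  obtain ⟨ξ, b₀, F, hb, hF⟩ := exists_xi
  have htr := transcendental_of hF
  refine ⟨ξ, htr, ?_, ?_, ?_⟩
  · intro n _
    obtain ⟨κ, hκ, h⟩ := lower_all htr hb n
    exact ⟨((26 * n ^ 2 : ℕ) : ℝ) + 1, finite_of_lower n hκ h _ (by linarith)⟩
  · intro M
    obtain ⟨k, hk⟩ := exists_nat_gt M
    refine ⟨k + 2, by omega, ?_⟩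
    intro hfin
    -- heights are bounded on a finite set
    obtain ⟨A, hA⟩ := (hfin.image ht).bddAbove
    set j := Nat.pair k (A + 1) with hj
    obtain ⟨h1, h2, h3, h4⟩ := hF j
    have hun : (Nat.unpair j).1 = k := by rw [hj, Nat.unpair_pair]
    rw [hun] at h1 h4
    have hF0 : F j ≠ 0 := by rintro h; rw [h] at h3; simp at h3
    have hmem : F j ∈ {P : Polynomial ℤ | P ≠ 0 ∧ P.natDegree ≤ k + 2 ∧
          |Polynomial.aeval ξ P| ≤ ((ht P : ℕ) : ℝ) ^ (-(M * ((k + 2 : ℕ) : ℝ)))} := by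
      refine ⟨hF0, h1.le, ?_⟩
      have hH1 : (1 : ℝ) ≤ ht (F j) := by exact_mod_cast one_le_ht hF0
      refine h4.trans ?_
      rw [Real.rpow_neg (by linarith), ← Real.rpow_natCast]
      apply inv_anti₀ (by positivity)
      apply Real.rpow_le_rpow_of_exponent_le hH1
      push_cast
      have hk0 : (0 : ℝ) ≤ k := Nat.cast_nonneg _
      nlinarith
    have h5 := hA (Set.mem_image_of_mem ht hmem)
    have h6 : A + 1 ≤ j := Nat.right_le_pair k (A + 1)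
    omega
  · refine ⟨5 / 2, by norm_num, 676, ?_⟩
    intro n hn w hw
    obtain ⟨κ, hκ, h⟩ := lower_all htr hb n
    apply finite_of_lower n hκ h w
    refine lt_of_le_of_lt ?_ hw
    have hn' : (676 : ℝ) ≤ n := by exact_mod_cast hn
    have hn0 : (0 : ℝ) < n := by linarith
    have h1 : (n : ℝ) ^ (5 / 2 : ℝ) = (n : ℝ) ^ 2 * Real.sqrt n := by
      rw [Real.sqrt_eq_rpow, ← Real.rpow_natCast, ← Real.rpow_add hn0]
      norm_num
    rw [h1]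
    have h2 : (26 : ℝ) ≤ Real.sqrt n := by
      rw [show (26 : ℝ) = Real.sqrt (26 ^ 2) by rw [Real.sqrt_sq (by norm_num)]]
      apply Real.sqrt_le_sqrt
      linarith
    push_cast
    nlinarith [sq_nonneg (n : ℝ)]

end Pool.Agent.TNum
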